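import Pool.Agent.Lib.MP_05e272_an.Defs

/-! MP_05e272_an: the statements of the modules, as propositions. -/

set_option autoImplicit false

open Metric Set Complex Filter Topology
open scoped Real

noncomputable section

namespace MP05e272

/-- Cauchy's theorem for a disc with finitely many disjoint discs removed -/
def MultiHoleStmt : Prop :=
  ∀ (ι : Type) [Fintype ι] (c : ι → ℂ) (r : ι → ℝ) (a : ℂ) (R : ℝ) (U : Set ℂ) (g : ℂ → ℂ),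
    (∀ i, 0 < r i) → (∀ i j, i ≠ j → Disjoint (closedBall (c i) (r i)) (closedBall (c j) (r j))) →
    (∀ i, closedBall (c i) (r i) ⊆ ball a R) → IsOpen U → DifferentiableOn ℂ g U →
    closedBall a R \ (⋃ i, ball (c i) (r i)) ⊆ U →
    (∮ z in C(a, R), g z) = ∑ i, ∮ z in C(c i, r i), g z

/-- the `M`-th roots of unity -/
def cM (M : ℕ) (j : Fin M) : ℂ := exp (2 * π * I * (j : ℕ) / M)

def RingStmt : Prop := ∀ M : ℕ, 1 ≤ M → ∃ δ : ℝ, Ring δ (cM M)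

def WeightsStmt : Prop :=
  ∀ (k M : ℕ) (ρ : ℝ), 1 ≤ k → 4 * k < M → 0 < ρ → ρ ≤ 1 / 4 →
    ∃ w : Fin M → ℝ, (∀ j, 0 ≤ w j) ∧ ∑ j, w j = 1 ∧
      ∀ ζ : ℂ, ‖ζ‖ = ρ / 2 →
        ‖∑ j, (w j : ℂ) / (ζ - cM M j) - (ρ : ℂ) ^ (2 * k) * ρ / (ζ ^ 2 - (ρ : ℂ) ^ 2)‖ ≤
          2 * (ρ ^ (2 * k) / ρ) / 4 ^ k

/-- removing from an open connected set compact pieces `K i` lying in disjoint open sets `O i`
with `O i \ K i` connected keeps it connected -/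
def ConnStmt : Prop :=
  ∀ (ι : Type) (X : Set ℂ) (O K : ι → Set ℂ), IsOpen X → IsConnected X →
    (∀ i, IsOpen (O i)) → (∀ i, O i ⊆ X) → (∀ i, K i ⊆ O i) →
    (∀ i j, i ≠ j → Disjoint (O i) (O j)) → (∀ i, IsConnected (O i \ K i)) →
    IsOpen (X \ ⋃ i, K i) → IsConnected (X \ ⋃ i, K i)

def AnnulusStmt : Prop :=
  ∀ (c : ℂ) (r R : ℝ), 0 ≤ r → r < R → IsConnected (ball c R \ closedBall c r)

/-- geometry of the next generation, for all small scales `τ` -/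
def GeoStepStmt : Prop :=
  ∀ (M : ℕ) (ρ δ : ℝ) (c : Fin M → ℂ) (K : Set ℂ) (Z : Finset ℂ), Ring δ c → 0 < ρ → ρ ≤ 1 / 4 →
    Geo K Z → ∀ᶠ τ in 𝓝[>] (0 : ℝ), Geo (nextK ρ τ c K) (nextZ ρ τ c Z) ∧
      ∀ α : ℂ → ℂ, (∀ p ∈ Z, ‖α p‖ ≤ 1) →
        ∃ α' : ℂ → ℂ, NextData ρ τ c Z α α' ∧ ∀ p ∈ nextZ ρ τ c Z, ‖α' p‖ ≤ 1

/-- separation for the next generation -/
def SepStepStmt : Prop :=
  ∀ (M N : ℕ) (ρ δ θ S B : ℝ) (c : Fin M → ℂ) (K : Set ℂ) (Z : Finset ℂ), Ring δ c → Even N →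
    2 ≤ N → ρ * 4 ^ N = 1 → 0 < θ → θ ≤ 1 / 2 → (2 * ρ) ^ N ≤ θ / 8 → 12 ≤ S →
    1 + 4 ^ N ≤ B → B ≤ 2 * (1 + 4 ^ N) → Geo K Z → Sep K Z S B →
    ∀ᶠ τ in 𝓝[>] (0 : ℝ), Sep (nextK ρ τ c K) (nextZ ρ τ c Z) (S * (1 + θ)) (B * (1 + θ))

/-- the drift of the mean value for the next generation -/
def LowStepStmt : Prop :=
  ∀ (M : ℕ) (ρ δ lam κ C R : ℝ) (c : Fin M → ℂ) (w : Fin M → ℝ), Ring δ c → 0 < ρ → ρ ≤ 1 / 4 →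
    0 < lam → lam ≤ 1 → 1 ≤ C → 100 * C / lam ≤ R → (∀ j, 0 ≤ w j) → ∑ j, w j = 1 →
    (∀ ζ : ℂ, ‖ζ‖ = ρ / 2 →
      ‖∑ j, (w j : ℂ) / (ζ - c j) - (lam : ℂ) * ρ / (ζ ^ 2 - (ρ : ℂ) ^ 2)‖ ≤ κ) →
    C * (ρ / 2) * κ ≤ lam / 8 →
    ∀ᶠ τ in 𝓝[>] (0 : ℝ), ∀ (v : ℝ) (K : Set ℂ) (Z : Finset ℂ) (α α' : ℂ → ℂ), Geo K Z →
      NextData ρ τ c Z α α' → Low K Z α C R v →
      Low (nextK ρ τ c K) (nextZ ρ τ c Z) α' C R (v - lam / 2)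

/-- for every bound `C` a finite gadget with separation constant 20 whose data `α` are not
interpolated by a function bounded by `C`, even locally -/
def GadgetStmt : Prop :=
  ∀ C : ℝ, 1 ≤ C → ∃ (K : Set ℂ) (Z : Finset ℂ) (α : ℂ → ℂ) (R B : ℝ), Geo K Z ∧ Sep K Z 20 B ∧
    Z.Nonempty ∧ (∀ p ∈ Z, ‖α p‖ ≤ 1) ∧
    ∀ G : ℂ → ℂ, DifferentiableOn ℂ G (ball 0 R \ K) → (∀ z ∈ ball 0 R \ K, ‖G z‖ ≤ C) →
      ¬ ∀ p ∈ Z, G p = α p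

/-- the domain, the sequence and the data -/
def FinalStmt : Prop :=
  ∃ (D : Set ℂ) (z : ℕ → ℂ) (F : ℕ → ℂ → ℂ) (C : ℝ) (α : ℕ → ℂ), IsOpen D ∧ IsConnected D ∧
    (∀ j, z j ∈ D) ∧ (∀ j, DifferentiableOn ℂ (F j) D) ∧ (∀ j, ∀ w ∈ D, ‖F j w‖ ≤ C) ∧
    (∀ j, F j (z j) = 1) ∧ (∀ j k, k ≠ j → F j (z k) = 0) ∧ (∀ j, ‖α j‖ ≤ 1) ∧
    ∀ G : ℂ → ℂ, DifferentiableOn ℂ G D → (∃ M : ℝ, ∀ w ∈ D, ‖G w‖ ≤ M) →
      ¬ ∀ j, G (z j) = α j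

def GadgetOfStmts : Prop :=
  RingStmt → WeightsStmt → GeoStepStmt → SepStepStmt → LowStepStmt → GadgetStmt

def AssemblyStmt : Prop := GadgetStmt → FinalStmt

end MP05e272
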