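import Mathlib
import Pool.Agent.Lib.MP_05e272_an.Stmts

set_option autoImplicit false

/-!
Connectedness of the complement of a family of holes.
-/

namespace Pool.Agent.Lib.MP_05e272_an

open Metric Set

/-- Removing from a preconnected set `E` a family of holes `K i`, each contained in an open
set `B i ⊆ E` with `B i \ K i` preconnected, the sets `B i` being pairwise disjoint, leaves a
preconnected set (if what is left is open). -/
theorem preconnected_diff {ι : Type*} {E : Set ℂ} (hE : IsPreconnected E) {K B : ι → Set ℂ}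
    (hBo : ∀ i, IsOpen (B i)) (hBE : ∀ i, B i ⊆ E) (hKB : ∀ i, K i ⊆ B i)
    (hc : ∀ i, IsPreconnected (B i \ K i)) (hd : ∀ i j, i ≠ j → Disjoint (B i) (B j))
    (hW : IsOpen (E \ ⋃ i, K i)) :
    IsPreconnected (E \ ⋃ i, K i) := by
  intro u v hu hv huv hnu hnv
  by_contra hcon
  rw [Set.not_nonempty_iff_eq_empty] at hcon
  set W : Set ℂ := E \ ⋃ i, K i with hWdef
  have hcon' : ∀ x ∈ W, x ∈ u → x ∈ v → False := by
    intro x h1 h2 h3
    have : x ∈ W ∩ (u ∩ v) := ⟨h1, h2, h3⟩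
    rw [hcon] at this
    exact this
  have hsub : ∀ i, B i \ K i ⊆ W := by
    rintro i x ⟨hx1, hx2⟩
    refine ⟨hBE i hx1, fun h => ?_⟩
    obtain ⟨j, hj⟩ := mem_iUnion.1 h
    by_cases hij : i = j
    · subst hij; exact hx2 hj
    · exact (Set.disjoint_left.1 (hd i j hij)) hx1 (hKB j hj)
  have hside : ∀ i, ¬ (B i \ K i ⊆ u) → B i \ K i ⊆ v := by
    intro i h1
    obtain ⟨x, hx, hxu⟩ := Set.not_subset.1 h1
    have hxv : x ∈ v := (huv (hsub i hx)).resolve_left hxu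
    by_contra h2
    obtain ⟨y, hy, hyv⟩ := Set.not_subset.1 h2
    have hyu : y ∈ u := (huv (hsub i hy)).resolve_right hyv
    obtain ⟨z, hz, hzu, hzv⟩ := hc i u v hu hv ((hsub i).trans huv) ⟨y, hy, hyu⟩ ⟨x, hx, hxv⟩
    exact hcon' z (hsub i hz) hzu hzv
  let u' : Set ℂ := (u ∩ W) ∪ ⋃ i ∈ {i | B i \ K i ⊆ u}, B i
  let v' : Set ℂ := (v ∩ W) ∪ ⋃ i ∈ {i | ¬ (B i \ K i ⊆ u)}, B i
  have hu' : IsOpen u' := (hu.inter hW).union (isOpen_biUnion fun i _ => hBo i)
  have hv' : IsOpen v' := (hv.inter hW).union (isOpen_biUnion fun i _ => hBo i)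
  have hcov : E ⊆ u' ∪ v' := by
    intro x hx
    by_cases hxK : x ∈ ⋃ i, K i
    · obtain ⟨i, hi⟩ := mem_iUnion.1 hxK
      by_cases h : B i \ K i ⊆ u
      · exact Or.inl (Or.inr (mem_biUnion (x := i) h (hKB i hi)))
      · exact Or.inr (Or.inr (mem_biUnion (x := i) h (hKB i hi)))
    · have hxW : x ∈ W := ⟨hx, hxK⟩
      rcases huv hxW with h | h
      · exact Or.inl (Or.inl ⟨h, hxW⟩)
      · exact Or.inr (Or.inl ⟨h, hxW⟩)
  obtain ⟨a, ha, hau⟩ := hnu
  obtain ⟨b, hb, hbv⟩ := hnv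
  obtain ⟨x, hxE, hxu, hxv⟩ := hE u' v' hu' hv' hcov ⟨a, ha.1, Or.inl ⟨hau, ha⟩⟩
    ⟨b, hb.1, Or.inl ⟨hbv, hb⟩⟩
  rcases hxu with ⟨h1, h2⟩ | h1
  · rcases hxv with ⟨h3, _⟩ | h3
    · exact hcon' x h2 h1 h3
    · obtain ⟨i, hi, hxi⟩ := mem_iUnion₂.1 h3
      have hxK : x ∉ K i := fun h => h2.2 (mem_iUnion.2 ⟨i, h⟩)
      exact hcon' x h2 h1 (hside i hi ⟨hxi, hxK⟩)
  · obtain ⟨i, hi, hxi⟩ := mem_iUnion₂.1 h1
    rcases hxv with ⟨h3, h4⟩ | h3
    · have hxK : x ∉ K i := fun h => h4.2 (mem_iUnion.2 ⟨i, h⟩)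
      exact hcon' x h4 (hi ⟨hxi, hxK⟩) h3
    · obtain ⟨j, hj, hxj⟩ := mem_iUnion₂.1 h3
      by_cases hij : i = j
      · subst hij; exact hj hi
      · exact (Set.disjoint_left.1 (hd i j hij)) hxi hxj

/-- An open annulus (possibly with outer radius a real number) is preconnected. -/
theorem preconnected_annulus (a : ℂ) {r R : ℝ} (hr : 0 ≤ r) :
    IsPreconnected (ball a R \ closedBall a r) := by
  have h1 : IsPreconnected ((Ioo r R) ×ˢ (univ : Set ℝ)) :=
    isPreconnected_Ioo.prod isPreconnected_univ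
  have h2 : Continuous (fun p : ℝ × ℝ => a + p.1 * Complex.exp (p.2 * Complex.I)) := by fun_prop
  have h3 : ball a R \ closedBall a r =
      (fun p : ℝ × ℝ => a + p.1 * Complex.exp (p.2 * Complex.I)) '' ((Ioo r R) ×ˢ univ) := by
    ext z
    constructor
    · rintro ⟨hz1, hz2⟩
      rw [mem_ball, dist_eq_norm] at hz1
      rw [mem_closedBall, dist_eq_norm, not_le] at hz2
      refine ⟨(‖z - a‖, Complex.arg (z - a)), ⟨⟨hz2, hz1⟩, mem_univ _⟩, ?_⟩
      simp only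
      rw [Complex.norm_mul_exp_arg_mul_I]
      ring
    · rintro ⟨⟨s, t⟩, ⟨⟨hs1, hs2⟩, _⟩, rfl⟩
      have : ‖a + (s : ℂ) * Complex.exp (t * Complex.I) - a‖ = s := by
        rw [add_sub_cancel_left, norm_mul, Complex.norm_exp_ofReal_mul_I, mul_one,
          Complex.norm_real, Real.norm_eq_abs, abs_of_nonneg (by linarith)]
      constructor
      · rw [mem_ball, dist_eq_norm]; simp only; rw [this]; exact hs2
      · rw [mem_closedBall, dist_eq_norm, not_le]; simp only; rw [this]; exact hs1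
  rw [h3]
  exact h1.image _ h2.continuousOn

end Pool.Agent.Lib.MP_05e272_an

namespace MP05e272

open Metric Set

theorem conn : ConnStmt := by
  intro ι X O K hX hXc hO hOX hKO hd hc hW
  refine ⟨?_, Pool.Agent.Lib.MP_05e272_an.preconnected_diff hXc.isPreconnected hO hOX hKO
    (fun i => (hc i).isPreconnected) hd hW⟩
  by_cases hi : Nonempty ι
  · obtain ⟨i⟩ := hi
    obtain ⟨x, hx1, hx2⟩ := (hc i).nonempty
    refine ⟨x, hOX i hx1, fun h => ?_⟩
    obtain ⟨j, hj⟩ := mem_iUnion.1 h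
    by_cases hij : i = j
    · subst hij; exact hx2 hj
    · exact (Set.disjoint_left.1 (hd i j hij)) hx1 (hKO j hj)
  · obtain ⟨x, hx⟩ := hXc.nonempty
    refine ⟨x, hx, fun h => ?_⟩
    obtain ⟨j, _⟩ := mem_iUnion.1 h
    exact hi ⟨j⟩

theorem annulus : AnnulusStmt := by
  intro c r R h0 h1
  refine ⟨⟨c + ((r + R) / 2 : ℝ), ?_, ?_⟩,
    Pool.Agent.Lib.MP_05e272_an.preconnected_annulus c h0⟩
  · rw [mem_ball, dist_eq_norm, add_sub_cancel_left, Complex.norm_real, Real.norm_eq_abs,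
      abs_of_nonneg (by linarith)]
    linarith
  · rw [mem_closedBall, dist_eq_norm, add_sub_cancel_left, Complex.norm_real, Real.norm_eq_abs,
      abs_of_nonneg (by linarith)]
    linarith

end MP05e272
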