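import Mathlib

set_option autoImplicit false

/-!
Infinite products of holomorphic functions (locally uniformly close to one), and the decay at
infinity of a function holomorphic near infinity.
-/

namespace MP05e272

open Metric Set Filter Topology

/-- Infinite products. -/
theorem infProd {D : Set ℂ} (hD : IsOpen D) (U : ℕ → ℂ → ℂ)
    (hU : ∀ k, DifferentiableOn ℂ (U k) D) (e : ℕ → ℝ) (he : Summable e)
    (hloc : ∀ z ∈ D, ∃ V ∈ 𝓝 z, ∀ᶠ k in atTop, ∀ w ∈ V ∩ D, ‖U k w - 1‖ ≤ e k) :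
    DifferentiableOn ℂ (fun z => ∏' k, U k z) D ∧
      ∀ z ∈ D, HasProd (fun k => U k z) (∏' k, U k z) := by
  have key : ∀ z ∈ D, ∃ W : Set ℂ, IsOpen W ∧ z ∈ W ∧ W ⊆ D ∧
      HasProdLocallyUniformlyOn (fun n x => 1 + (U n x - 1)) (fun x => ∏' i, (1 + (U i x - 1))) W := by
    intro z hz
    obtain ⟨V, hV, hk⟩ := hloc z hz
    obtain ⟨W, hWV, hWo, hzW⟩ := _root_.mem_nhds_iff.1 (inter_mem hV (hD.mem_nhds hz))
    refine ⟨W, hWo, hzW, fun x hx => (hWV hx).2, ?_⟩
    apply Summable.hasProdLocallyUniformlyOn_nat_one_add hWo he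
    · filter_upwards [hk] with k hk x hx using hk x (hWV hx)
    · intro n
      exact ((hU n).continuousOn.mono fun x hx => (hWV hx).2).sub continuousOn_const
  have e1 : ∀ n x, 1 + (U n x - 1) = U n x := fun n x => by ring
  constructor
  · intro z hz
    obtain ⟨W, hWo, hzW, hWD, hP⟩ := key z hz
    have h1 := hP.tendstoLocallyUniformlyOn_finsetRange.differentiableOn
      (Eventually.of_forall fun n => by
        simp only [e1]
        exact DifferentiableOn.fun_finsetProd fun i _ => (hU i).mono hWD) hWo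
    simp only [e1] at h1
    exact (h1.differentiableAt (hWo.mem_nhds hzW)).differentiableWithinAt
  · intro z hz
    obtain ⟨W, hWo, hzW, hWD, hP⟩ := key z hz
    have h1 := hP.hasProd hzW
    simp only [e1] at h1
    exact h1

lemma hasProd_zero {f : ℕ → ℂ} {P : ℂ} (h : HasProd f P) {k : ℕ} (hk : f k = 0) : P = 0 := by
  refine tendsto_nhds_unique h ?_
  apply tendsto_const_nhds.congr'
  filter_upwards [eventually_ge_atTop ({k} : Finset ℕ)] with s hs
  exact (Finset.prod_eq_zero (hs (Finset.mem_singleton_self k)) hk).symm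

lemma prod_sub_one_le {f : ℕ → ℂ} {e : ℕ → ℝ} (he : Summable e) (he0 : ∀ k, 0 ≤ e k)
    (s : Finset ℕ) (h : ∀ k ∈ s, ‖f k - 1‖ ≤ e k) :
    ‖∏ k ∈ s, f k - 1‖ ≤ Real.exp (∑' k, e k) - 1 := by
  have h1 := s.norm_prod_one_add_sub_one_le (fun k => f k - 1)
  simp only [add_sub_cancel] at h1
  refine h1.trans ?_
  have h2 : ∑ k ∈ s, ‖f k - 1‖ ≤ ∑' k, e k :=
    (Finset.sum_le_sum h).trans (he.sum_le_tsum s (fun k _ => he0 k))
  linarith [Real.exp_le_exp.2 h2]

lemma hasProd_sub_one_le {f : ℕ → ℂ} {P : ℂ} (h : HasProd f P) {e : ℕ → ℝ} (he : Summable e)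
    (he0 : ∀ k, 0 ≤ e k) (hf : ∀ k, ‖f k - 1‖ ≤ e k) : ‖P - 1‖ ≤ Real.exp (∑' k, e k) - 1 := by
  have h1 : Tendsto (fun s : Finset ℕ => ‖∏ k ∈ s, f k - 1‖) atTop (𝓝 ‖P - 1‖) :=
    (h.sub_const 1).norm
  exact le_of_tendsto h1 (Eventually.of_forall fun s => prod_sub_one_le he he0 s fun k _ => hf k)

lemma hasProd_norm_le {f : ℕ → ℂ} {P : ℂ} (h : HasProd f P) {e : ℕ → ℝ} (he : Summable e)
    (he0 : ∀ k, 0 ≤ e k) {B : ℝ} (hB : 1 ≤ B) (k0 : ℕ) (hk0 : ‖f k0‖ ≤ B)
    (hf : ∀ k, k ≠ k0 → ‖f k - 1‖ ≤ e k) : ‖P‖ ≤ B * Real.exp (∑' k, e k) := by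
  have h1 : Tendsto (fun s : Finset ℕ => ‖∏ k ∈ s, f k‖) atTop (𝓝 ‖P‖) :=
    Filter.Tendsto.norm (f := fun s : Finset ℕ => ∏ k ∈ s, f k) h
  refine le_of_tendsto h1 (Eventually.of_forall fun s => ?_)
  have key : ∀ t : Finset ℕ, k0 ∉ t → ‖∏ k ∈ t, f k‖ ≤ Real.exp (∑' k, e k) := by
    intro t ht
    have h2 := prod_sub_one_le he he0 t (f := f)
      (fun k hk => hf k (fun h => ht (h ▸ hk)))
    have h3 : ‖∏ k ∈ t, f k‖ ≤ ‖∏ k ∈ t, f k - 1‖ + ‖(1 : ℂ)‖ := by
      have := norm_add_le (∏ k ∈ t, f k - 1) 1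
      simpa using this
    rw [norm_one] at h3
    linarith
  by_cases hs : k0 ∈ s
  · rw [← Finset.mul_prod_erase s f hs, norm_mul]
    exact mul_le_mul hk0 (key _ (Finset.notMem_erase k0 s)) (norm_nonneg _) (by linarith)
  · have h3 := key s hs
    have h4 : 0 < Real.exp (∑' k, e k) := Real.exp_pos _
    nlinarith

/-- A function differentiable outside a bounded set with limit `l` at infinity is
`l + O (1 / z)`. -/
theorem decay {f : ℂ → ℂ} {K : Set ℂ} (hK : K ⊆ closedBall 0 2) (hf : DifferentiableOn ℂ f Kᶜ)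
    {l : ℂ} (hl : Tendsto f (cocompact ℂ) (𝓝 l)) :
    ∃ A : ℝ, 0 ≤ A ∧ ∀ z : ℂ, 4 ≤ ‖z‖ → ‖f z - l‖ ≤ A / ‖z‖ := by
  classical
  let h : ℂ → ℂ := fun w => if w = 0 then l else f w⁻¹
  have h0 : h 0 = l := if_pos rfl
  have hne : ∀ w, w ≠ 0 → h w = f w⁻¹ := fun w hw => if_neg hw
  have hd : DifferentiableOn ℂ h (ball 0 (1 / 2) \ {0}) := by
    intro w hw
    have hw0 : w ≠ 0 := hw.2
    have hwn : 0 < ‖w‖ := norm_pos_iff.2 hw0
    have h1 : w⁻¹ ∈ Kᶜ ∧ Kᶜ ∈ 𝓝 w⁻¹ := by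
      have h2 : 2 < ‖w⁻¹‖ := by
        rw [norm_inv]
        have h3 : ‖w‖ < 1 / 2 := by simpa using hw.1
        rw [lt_inv_comm₀ (by norm_num) hwn]
        linarith
      have h3 : (closedBall (0 : ℂ) 2)ᶜ ∈ 𝓝 w⁻¹ := by
        apply isClosed_closedBall.isOpen_compl.mem_nhds
        simp only [mem_compl_iff, mem_closedBall, dist_zero_right, not_le]
        exact h2
      have h4 := mem_of_superset h3 (compl_subset_compl.2 hK)
      exact ⟨mem_of_mem_nhds h4, h4⟩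
    have h2 : DifferentiableAt ℂ f w⁻¹ := hf.differentiableAt h1.2
    have h3 : DifferentiableAt ℂ (fun w => f w⁻¹) w :=
      h2.comp w (differentiableAt_inv hw0)
    have h4 : h =ᶠ[𝓝 w] fun w => f w⁻¹ := by
      filter_upwards [isOpen_ne.mem_nhds hw0] with x hx using hne x hx
    exact (h3.congr_of_eventuallyEq h4).differentiableWithinAt
  have hc : ContinuousAt h 0 := by
    rw [continuousAt_iff_punctured_nhds, h0]
    have h1 : Tendsto (fun w : ℂ => f w⁻¹) (𝓝[≠] 0) (𝓝 l) :=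
      hl.comp (by
        rw [← Metric.cobounded_eq_cocompact]
        exact tendsto_inv₀_nhdsNE_zero)
    apply h1.congr'
    filter_upwards [self_mem_nhdsWithin] with w hw using (hne w hw).symm
  have hD : DifferentiableOn ℂ h (ball 0 (1 / 2)) :=
    (Complex.differentiableOn_compl_singleton_and_continuousAt_iff
      (ball_mem_nhds 0 (by norm_num))).1 ⟨hd, hc⟩
  have h2 : ContinuousOn (dslope h 0) (closedBall 0 (1 / 4)) := by
    have : ContinuousOn (dslope h 0) (ball 0 (1 / 2)) := by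
      rw [continuousOn_dslope (ball_mem_nhds 0 (by norm_num))]
      exact ⟨hD.continuousOn, hD.differentiableAt (ball_mem_nhds 0 (by norm_num))⟩
    exact this.mono (closedBall_subset_ball (by norm_num))
  obtain ⟨A, hA⟩ := (isCompact_closedBall (0 : ℂ) (1 / 4)).exists_bound_of_continuousOn h2
  refine ⟨A, (norm_nonneg _).trans (hA 0 (by simp)), fun z hz => ?_⟩
  have hz0 : z ≠ 0 := by
    rintro rfl
    rw [norm_zero] at hz
    linarith
  have hzn : ‖z⁻¹‖ ≤ 1 / 4 := by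
    rw [norm_inv, inv_le_comm₀ (by linarith) (by norm_num)]
    linarith
  have h3 := hA z⁻¹ (by simpa using hzn)
  have h4 := sub_smul_dslope h 0 z⁻¹
  rw [h0, hne _ (inv_ne_zero hz0), inv_inv, sub_zero] at h4
  rw [← h4, norm_smul, norm_inv, div_eq_inv_mul]
  exact mul_le_mul_of_nonneg_left h3 (by positivity)

end MP05e272
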