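import Mathlib
import Pool.Agent.Lib.MP_05e272_an.Stmts
import Pool.Agent.Lib.MP_05e272_an.Conn
import Pool.Agent.Lib.MP_05e272_an.InfProd

set_option autoImplicit false

/-!
The assembly: gadgets for the bounds `1, 2, 3, …` are placed far apart at small scales.
-/

namespace MP05e272

open Metric Set Filter Topology

/-- A gadget with all the data needed for the assembly. -/
structure PG (C : ℝ) where
  K : Set ℂ
  Z : Finset ℂ
  α : ℂ → ℂ
  R : ℝ
  B : ℝ
  A : ℝ
  U : ℂ → ℂ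
  F : ℂ → ℂ → ℂ
  geo : Geo K Z
  ne : Z.Nonempty
  α_le : ∀ p ∈ Z, ‖α p‖ ≤ 1
  R_le : 1 ≤ R
  B_le : 1 ≤ B
  A_le : 1 ≤ A
  U_diff : DifferentiableOn ℂ U Kᶜ
  U_le : ∀ z ∈ Kᶜ, ‖U z‖ ≤ B
  U_zero : ∀ p ∈ Z, U p = 0
  U_dec : ∀ z : ℂ, 4 ≤ ‖z‖ → ‖U z - 1‖ ≤ A / ‖z‖
  F_diff : ∀ p ∈ Z, DifferentiableOn ℂ (F p) Kᶜ
  F_le : ∀ p ∈ Z, ∀ z ∈ Kᶜ, ‖F p z‖ ≤ 20
  F_one : ∀ p ∈ Z, F p p = 1
  F_zero : ∀ p ∈ Z, ∀ q ∈ Z, q ≠ p → F p q = 0
  F_dec : ∀ p ∈ Z, ∀ z : ℂ, 4 ≤ ‖z‖ → ‖F p z‖ ≤ A / ‖z‖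
  low : ∀ G : ℂ → ℂ, DifferentiableOn ℂ G (ball 0 R \ K) → (∀ z ∈ ball 0 R \ K, ‖G z‖ ≤ C) →
      ¬ ∀ p ∈ Z, G p = α p

lemma exists_PG (h : GadgetStmt) (C : ℝ) (hC : 1 ≤ C) : Nonempty (PG C) := by
  obtain ⟨K, Z, α, R, B, geo, sep, hne, hα, hlow⟩ := h C hC
  obtain ⟨U, U1, U2, U3, U4⟩ := sep.exU
  obtain ⟨AU, hAU, hAU'⟩ := decay geo.sub U1 U4
  have hF := sep.exF
  choose! F F1 F2 F3 F4 F5 using hF
  have hdec : ∀ p ∈ Z, ∃ A : ℝ, 0 ≤ A ∧ ∀ z : ℂ, 4 ≤ ‖z‖ → ‖F p z - 0‖ ≤ A / ‖z‖ :=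
    fun p hp => decay geo.sub (F1 p hp) (F5 p hp)
  choose! AF hAF hAF' using hdec
  have hs : 0 ≤ ∑ p ∈ Z, AF p := Finset.sum_nonneg hAF
  refine ⟨{
    K := K, Z := Z, α := α, R := max R 1, B := max B 1, A := (1 + AU + ∑ p ∈ Z, AF p),
    U := U, F := F, geo := geo, ne := hne, α_le := hα, R_le := le_max_right _ _,
    B_le := le_max_right _ _, A_le := by linarith, U_diff := U1,
    U_le := fun z hz => (U2 z hz).trans (le_max_left _ _), U_zero := U3, U_dec := ?_,
    F_diff := F1, F_le := F2, F_one := F3, F_zero := F4, F_dec := ?_, low := ?_ }⟩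
  · intro z hz
    refine (hAU' z hz).trans ?_
    apply div_le_div_of_nonneg_right _ (norm_nonneg z)
    linarith
  · intro p hp z hz
    have h1 := hAF' p hp z hz
    rw [sub_zero] at h1
    refine h1.trans ?_
    apply div_le_div_of_nonneg_right _ (norm_nonneg z)
    have := Finset.single_le_sum hAF hp
    linarith
  · intro G hG hGC hGα
    have hsub : ball (0 : ℂ) R \ K ⊆ ball 0 (max R 1) \ K := fun x hx =>
      ⟨ball_subset_ball (le_max_left _ _) hx.1, hx.2⟩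
    exact hlow G (hG.mono hsub) (fun z hz => hGC z (hsub hz)) hGα

/-- Positions. -/
noncomputable def pos (B : ℕ → ℝ) (L : ℕ) : ℝ :=
  ∑ i ∈ Finset.range L, 2 * (4 + B i) + (4 + B L)

lemma pos_lt {B : ℕ → ℝ} (hB : ∀ i, 1 ≤ B i) {L k : ℕ} (h : L < k) :
    8 + B L + B k ≤ pos B k - pos B L := by
  unfold pos
  have h1 : ∑ i ∈ Finset.range (L + 1), 2 * (4 + B i) ≤ ∑ i ∈ Finset.range k, 2 * (4 + B i) := by
    apply Finset.sum_le_sum_of_subset_of_nonneg
    · exact Finset.range_subset_range.2 h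
    · intro i _ _
      have := hB i
      linarith
  rw [Finset.sum_range_succ] at h1
  linarith

lemma pos_far {B : ℕ → ℝ} (hB : ∀ i, 1 ≤ B i) {L k : ℕ} (h : L ≠ k) :
    8 + B L + B k ≤ |pos B L - pos B k| := by
  rcases lt_or_gt_of_ne h with h | h
  · have := pos_lt hB h
    rw [abs_sub_comm]
    exact this.trans (le_abs_self _)
  · have := pos_lt hB h
    refine le_trans ?_ (le_abs_self _)
    linarith

/-- The error terms. -/
noncomputable def er (k : ℕ) : ℝ := (1 / 2) ^ k / 400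

lemma er_nonneg (k : ℕ) : 0 ≤ er k := by unfold er; positivity

lemma er_summable : Summable er := summable_geometric_two.div_const 400

lemma er_exp : Real.exp (∑' k, er k) ≤ 101 / 100 := by
  have h1 : ∑' k, er k = 1 / 200 := by
    unfold er
    rw [tsum_div_const, tsum_geometric_two]
    norm_num
  rw [h1]
  have := Real.exp_bound_div_one_sub_of_interval (x := 1 / 200) (by norm_num) (by norm_num)
  refine this.trans ?_
  norm_num

section

variable (g : ∀ L : ℕ, PG ((L : ℝ) + 1))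

noncomputable def aa (L : ℕ) : ℝ := pos (fun i => (g i).B) L

noncomputable def sg (L : ℕ) : ℝ := (1 / 2) ^ L / (400 * (g L).A * (g L).R)

lemma sg_pos (L : ℕ) : 0 < sg g L := by
  have h1 := (g L).A_le
  have h2 := (g L).R_le
  unfold sg
  positivity

lemma sg_A (L : ℕ) : (g L).A * sg g L ≤ er L := by
  have h1 := (g L).A_le
  have h2 := (g L).R_le
  unfold sg er
  rw [mul_div_assoc', div_le_div_iff₀ (by positivity) (by norm_num)]
  have h3 : (0 : ℝ) < (1 / 2) ^ L := by positivity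
  have h4 : 0 < (g L).A * (1 / 2) ^ L * 400 := by positivity
  have h5 : (1 / 2 : ℝ) ^ L * (400 * (g L).A * (g L).R) = (g L).A * (1 / 2) ^ L * 400 * (g L).R := by
    ring
  rw [h5]
  nlinarith

lemma er_le (L : ℕ) : er L ≤ 1 / 400 := by
  unfold er
  have : (1 / 2 : ℝ) ^ L ≤ 1 := pow_le_one₀ (by norm_num) (by norm_num)
  linarith

lemma sg_le (L : ℕ) : sg g L ≤ 1 / 400 := by
  have h1 := (g L).A_le
  have h2 := sg_A g L
  have h3 := er_le L
  have h4 := sg_pos g L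
  nlinarith

lemma sg_R (L : ℕ) : sg g L * (g L).R ≤ 1 := by
  have h1 := (g L).A_le
  have h2 := (g L).R_le
  have h3 : (1 / 2 : ℝ) ^ L ≤ 1 := pow_le_one₀ (by norm_num) (by norm_num)
  unfold sg
  rw [div_mul_eq_mul_div, div_le_one (by positivity)]
  nlinarith [mul_pos (show (0 : ℝ) < (g L).A by linarith) (show (0 : ℝ) < (g L).R by linarith)]

lemma aa_far {L k : ℕ} (h : L ≠ k) : 8 + (g L).B + (g k).B ≤ |aa g L - aa g k| :=
  pos_far (B := fun i => (g i).B) (fun i => (g i).B_le) h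

lemma aa_far' {L k : ℕ} (h : L ≠ k) : 8 + (g L).B + (g k).B ≤ ‖(aa g L : ℂ) - aa g k‖ := by
  rw [← Complex.ofReal_sub, Complex.norm_real, Real.norm_eq_abs]
  exact aa_far g h

/-- Local coordinate of the `L`-th gadget. -/
noncomputable def ph (L : ℕ) (z : ℂ) : ℂ := (z - aa g L) / sg g L

noncomputable def pt (L : ℕ) (w : ℂ) : ℂ := aa g L + sg g L * w

lemma sgC (L : ℕ) : (sg g L : ℂ) ≠ 0 := by exact_mod_cast (sg_pos g L).ne'

lemma ph_pt (L : ℕ) (w : ℂ) : ph g L (pt g L w) = w := by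
  unfold ph pt
  rw [add_sub_cancel_left, mul_div_cancel_left₀ _ (sgC g L)]

lemma pt_ph (L : ℕ) (z : ℂ) : pt g L (ph g L z) = z := by
  unfold ph pt
  rw [mul_div_cancel₀ _ (sgC g L)]
  ring

lemma norm_ph (L : ℕ) (z : ℂ) : ‖ph g L z‖ = ‖z - aa g L‖ / sg g L := by
  unfold ph
  rw [norm_div, Complex.norm_real, Real.norm_eq_abs, abs_of_pos (sg_pos g L)]

lemma norm_sub_eq (L : ℕ) (z : ℂ) : ‖z - aa g L‖ = sg g L * ‖ph g L z‖ := by
  rw [norm_ph, mul_div_cancel₀ _ (sg_pos g L).ne']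

lemma ph_diff (L : ℕ) : Differentiable ℂ (ph g L) := by
  unfold ph
  fun_prop

lemma ph_cont (L : ℕ) : Continuous (ph g L) := (ph_diff g L).continuous

lemma pt_cont (L : ℕ) : Continuous (pt g L) := by
  unfold pt
  fun_prop

/-- The holes of the `L`-th gadget. -/
def Hh (L : ℕ) : Set ℂ := ph g L ⁻¹' (g L).K

/-- The domain. -/
def Dd : Set ℂ := univ \ ⋃ L, Hh g L

lemma H_sub {L : ℕ} {z : ℂ} (hz : z ∈ Hh g L) : ‖z - aa g L‖ < 1 := by
  have h1 : ‖ph g L z‖ ≤ 2 := by simpa using (g L).geo.sub hz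
  rw [norm_sub_eq]
  have h2 := sg_le g L
  have h3 := sg_pos g L
  nlinarith [norm_nonneg (ph g L z)]

lemma uniq {L k : ℕ} {z : ℂ} (h1 : ‖z - aa g L‖ < 2) (h2 : ‖z - aa g k‖ < 2) : L = k := by
  by_contra hne
  have h3 := aa_far' g hne
  have h4 : ‖(aa g L : ℂ) - aa g k‖ ≤ ‖z - aa g L‖ + ‖z - aa g k‖ := by
    rw [norm_sub_rev z (aa g L : ℂ)]
    have := norm_add_le ((aa g L : ℂ) - z) (z - aa g k)
    rwa [sub_add_sub_cancel] at this
  have h5 := (g L).B_le
  have h6 := (g k).B_le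
  linarith

lemma D_open : IsOpen (Dd g) := by
  have h1 : LocallyFinite (Hh g) := by
    intro z
    refine ⟨ball z 1, ball_mem_nhds z one_pos, Set.Subsingleton.finite ?_⟩
    rintro L ⟨x, hx1, hx2⟩ k ⟨y, hy1, hy2⟩
    have e1 := H_sub g hx1
    have e2 := H_sub g hy1
    rw [mem_ball, dist_eq_norm] at hx2 hy2
    apply uniq g (z := z)
    · have := norm_add_le (z - x) (x - aa g L)
      rw [sub_add_sub_cancel, norm_sub_rev z x] at this
      linarith
    · have := norm_add_le (z - y) (y - aa g k)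
      rw [sub_add_sub_cancel, norm_sub_rev z y] at this
      linarith
  have h2 : IsClosed (⋃ L, Hh g L) :=
    h1.isClosed_iUnion fun L => (g L).geo.closed.preimage (ph_cont g L)
  have h3 : Dd g = (⋃ L, Hh g L)ᶜ := by unfold Dd; rw [compl_eq_univ_sdiff]
  rw [h3]
  exact h2.isOpen_compl

lemma D_conn : IsConnected (Dd g) := by
  have h1 : ∀ L, ph g L ⁻¹' (ball 0 4) \ Hh g L = pt g L '' (ball 0 4 \ (g L).K) := by
    intro L
    ext z
    constructor
    · rintro ⟨h1, h2⟩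
      exact ⟨ph g L z, ⟨h1, h2⟩, pt_ph g L z⟩
    · rintro ⟨w, ⟨h1, h2⟩, rfl⟩
      refine ⟨?_, ?_⟩
      · rw [mem_preimage, ph_pt]; exact h1
      · unfold Hh
        rw [mem_preimage, ph_pt]; exact h2
  have hD := D_open g
  unfold Dd at hD ⊢
  refine conn ℕ univ (fun L => ph g L ⁻¹' (ball 0 4)) (Hh g) isOpen_univ isConnected_univ
    (fun L => isOpen_ball.preimage (ph_cont g L)) (fun L => subset_univ _) ?_ ?_ ?_ hD
  · intro L z hz
    have h2 : ‖ph g L z‖ ≤ 2 := by simpa using (g L).geo.sub hz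
    rw [mem_preimage, mem_ball, dist_zero_right]
    linarith
  · intro L k hne
    rw [Set.disjoint_left]
    intro z hz1 hz2
    rw [mem_preimage, mem_ball, dist_zero_right] at hz1 hz2
    apply hne
    apply uniq g (z := z)
    · rw [norm_sub_eq]
      have h2 := sg_le g L
      have h3 := sg_pos g L
      nlinarith [norm_nonneg (ph g L z)]
    · rw [norm_sub_eq]
      have h2 := sg_le g k
      have h3 := sg_pos g k
      nlinarith [norm_nonneg (ph g k z)]
  · intro L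
    rw [h1 L]
    exact (g L).geo.conn.image _ (pt_cont g L).continuousOn

/-- The factors. -/
noncomputable def Uk (k : ℕ) (z : ℂ) : ℂ := (g k).U (ph g k z)

lemma mem_D {z : ℂ} (hz : z ∈ Dd g) (k : ℕ) : ph g k z ∈ ((g k).K)ᶜ := by
  intro h
  exact hz.2 (mem_iUnion.2 ⟨k, h⟩)

lemma Uk_diff (k : ℕ) : DifferentiableOn ℂ (Uk g k) (Dd g) := by
  unfold Uk
  exact (g k).U_diff.comp (ph_diff g k).differentiableOn fun z hz => mem_D g hz k

lemma norm_ph_ge {k : ℕ} {z : ℂ} (h : 1 ≤ ‖z - aa g k‖) : 4 ≤ ‖ph g k z‖ := by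
  rw [norm_ph, le_div_iff₀ (sg_pos g k)]
  have := sg_le g k
  linarith

lemma Uk_dec {k : ℕ} {z : ℂ} (h : 1 ≤ ‖z - aa g k‖) : ‖Uk g k z - 1‖ ≤ er k := by
  have h1 := (g k).U_dec _ (norm_ph_ge g h)
  unfold Uk
  refine h1.trans ?_
  rw [norm_ph, div_div_eq_mul_div, div_le_iff₀ (by linarith)]
  have h2 := sg_A g k
  have h3 := er_nonneg k
  nlinarith

/-- The product of the factors of the other gadgets. -/
noncomputable def Pl (L : ℕ) (z : ℂ) : ℂ := ∏' k, (if k = L then 1 else Uk g k z)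

lemma Pl_both (L : ℕ) : DifferentiableOn ℂ (Pl g L) (Dd g) ∧
    ∀ z ∈ Dd g, HasProd (fun k => if k = L then 1 else Uk g k z) (Pl g L z) := by
  apply infProd (D_open g) (fun k z => if k = L then 1 else Uk g k z) _ er er_summable
  · intro z hz
    refine ⟨ball z 1, ball_mem_nhds z one_pos, ?_⟩
    have h1 : ∃ N, ∀ k, N ≤ k → ∀ w ∈ ball z 1, 1 ≤ ‖w - aa g k‖ := by
      by_cases hex : ∃ k0, ‖z - aa g k0‖ < 2
      · obtain ⟨k0, hk0⟩ := hex
        refine ⟨k0 + 1, fun k hk w hw => ?_⟩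
        by_contra hcon
        push Not at hcon
        rw [mem_ball, dist_eq_norm] at hw
        have h2 : ‖z - aa g k‖ < 2 := by
          have := norm_add_le (z - w) (w - aa g k)
          rw [sub_add_sub_cancel, norm_sub_rev z w] at this
          linarith
        have := uniq g hk0 h2
        omega
      · push Not at hex
        refine ⟨0, fun k _ w hw => ?_⟩
        rw [mem_ball, dist_eq_norm] at hw
        have h2 := hex k
        have := norm_add_le (z - w) (w - aa g k)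
        rw [sub_add_sub_cancel, norm_sub_rev z w] at this
        linarith
    obtain ⟨N, hN⟩ := h1
    filter_upwards [eventually_ge_atTop N] with k hk w hw
    split_ifs with hkL
    · simpa using er_nonneg k
    · exact Uk_dec g (hN k hk w hw.1)
  · intro k
    by_cases hkL : k = L
    · simp only [hkL, if_true]
      exact differentiableOn_const 1
    · simp only [if_neg hkL]
      exact Uk_diff g k

/-- If `z` is not close to another gadget then the product is close to one. -/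
lemma Pl_near {L : ℕ} {z : ℂ} (hz : z ∈ Dd g) (h : ∀ k, k ≠ L → 1 ≤ ‖z - aa g k‖) :
    ‖Pl g L z - 1‖ ≤ 1 / 100 := by
  have h1 := hasProd_sub_one_le ((Pl_both g L).2 z hz) er_summable er_nonneg (by
    intro k
    split_ifs with hkL
    · simpa using er_nonneg k
    · exact Uk_dec g (h k hkL))
  have := er_exp
  linarith

lemma Pl_le {L k0 : ℕ} {z : ℂ} (hz : z ∈ Dd g) (h : ∀ k, k ≠ k0 → 1 ≤ ‖z - aa g k‖) :
    ‖Pl g L z‖ ≤ (g k0).B * (101 / 100) := by
  have h1 := hasProd_norm_le ((Pl_both g L).2 z hz) er_summable er_nonneg (g k0).B_le k0 (by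
    split_ifs with hkL
    · simpa using (g k0).B_le
    · exact (g k0).U_le _ (mem_D g hz k0)) (by
    intro k hk
    split_ifs with hkL
    · simpa using er_nonneg k
    · exact Uk_dec g (h k hk))
  refine h1.trans ?_
  exact mul_le_mul_of_nonneg_left er_exp (by linarith [(g k0).B_le])

/-- The separating functions. -/
noncomputable def Sf (L : ℕ) (p z : ℂ) : ℂ :=
  (g L).F p (ph g L z) * Pl g L z / Pl g L (pt g L p)

lemma pt_mem {L : ℕ} {p : ℂ} (hp1 : p ∉ (g L).K) (hp2 : ‖p‖ < (g L).R ∨ ‖p‖ ≤ 2) :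
    pt g L p ∈ Dd g ∧ ∀ k, k ≠ L → 1 ≤ ‖pt g L p - aa g k‖ := by
  have h1 : ‖pt g L p - aa g L‖ ≤ 1 := by
    rw [norm_sub_eq, ph_pt]
    have h2 := sg_le g L
    have h3 := sg_pos g L
    have h4 := sg_R g L
    rcases hp2 with h | h
    · nlinarith
    · nlinarith [norm_nonneg p]
  have h2 : ∀ k, k ≠ L → 1 ≤ ‖pt g L p - aa g k‖ := by
    intro k hk
    by_contra hcon
    push Not at hcon
    exact hk (uniq g (z := pt g L p) (by linarith) (by linarith)).symm.symm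
  refine ⟨⟨mem_univ _, fun h => ?_⟩, h2⟩
  obtain ⟨k, hk⟩ := mem_iUnion.1 h
  by_cases hkL : k = L
  · subst hkL
    unfold Hh at hk
    rw [mem_preimage, ph_pt] at hk
    exact hp1 hk
  · have h3 := h2 k hkL
    have h4 := H_sub g hk
    linarith

lemma pts_mem {L : ℕ} {p : ℂ} (hp : p ∈ (g L).Z) :
    pt g L p ∈ Dd g ∧ ∀ k, k ≠ L → 1 ≤ ‖pt g L p - aa g k‖ := by
  have h := (g L).geo.pts p hp
  exact pt_mem g h.2 (Or.inr (by simpa using h.1))

lemma Pl_pt {L : ℕ} {p : ℂ} (hp : p ∈ (g L).Z) : 99 / 100 ≤ ‖Pl g L (pt g L p)‖ := by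
  obtain ⟨h1, h2⟩ := pts_mem g hp
  have h3 := Pl_near g h1 h2
  have h4 := norm_sub_norm_le (1 : ℂ) (1 - Pl g L (pt g L p))
  rw [sub_sub_cancel, norm_one, norm_sub_rev] at h4
  linarith

lemma Sf_diff {L : ℕ} {p : ℂ} (hp : p ∈ (g L).Z) : DifferentiableOn ℂ (Sf g L p) (Dd g) := by
  unfold Sf
  apply DifferentiableOn.div_const
  apply DifferentiableOn.mul
  · exact ((g L).F_diff p hp).comp (ph_diff g L).differentiableOn fun z hz => mem_D g hz L
  · exact (Pl_both g L).1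

lemma Sf_le {L : ℕ} {p : ℂ} (hp : p ∈ (g L).Z) {z : ℂ} (hz : z ∈ Dd g) : ‖Sf g L p z‖ ≤ 21 := by
  unfold Sf
  have h0 := Pl_pt g hp
  rw [norm_div, norm_mul, div_le_iff₀ (by linarith)]
  by_cases hcase : ∀ k, k ≠ L → 1 ≤ ‖z - aa g k‖
  · have h1 := Pl_near g hz hcase
    have h2 : ‖Pl g L z‖ ≤ 101 / 100 := by
      have := norm_add_le (Pl g L z - 1) 1
      rw [sub_add_cancel, norm_one] at this
      linarith
    have h3 := (g L).F_le p hp _ (mem_D g hz L)
    have h4 : ‖(g L).F p (ph g L z)‖ * ‖Pl g L z‖ ≤ 20 * (101 / 100) :=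
      mul_le_mul h3 h2 (norm_nonneg _) (by norm_num)
    linarith
  · push Not at hcase
    obtain ⟨k0, hk0, hk0'⟩ := hcase
    have hall : ∀ k, k ≠ k0 → 1 ≤ ‖z - aa g k‖ := by
      intro k hk
      by_contra hcon
      push Not at hcon
      exact hk (uniq g (z := z) (by linarith) (by linarith))
    have h1 := Pl_le g (L := L) hz hall
    have h2 : 7 + (g k0).B ≤ ‖z - aa g L‖ := by
      have h3 := aa_far' g hk0
      have h4 := norm_add_le ((aa g k0 : ℂ) - z) (z - aa g L)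
      rw [sub_add_sub_cancel, norm_sub_rev (aa g k0 : ℂ) z] at h4
      have h5 := (g L).B_le
      linarith
    have hB := (g k0).B_le
    have h3 := (g L).F_dec p hp _ (norm_ph_ge g (by linarith : 1 ≤ ‖z - aa g L‖))
    rw [norm_ph, div_div_eq_mul_div] at h3
    have h4 : ‖(g L).F p (ph g L z)‖ ≤ 1 / (g k0).B := by
      refine h3.trans ?_
      rw [div_le_div_iff₀ (by linarith) (by linarith)]
      have h5 := sg_A g L
      have h6 := er_le L
      nlinarith
    have h5 : ‖(g L).F p (ph g L z)‖ * ‖Pl g L z‖ ≤ 1 / (g k0).B * ((g k0).B * (101 / 100)) :=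
      mul_le_mul h4 h1 (norm_nonneg _) (by positivity)
    have h6 : 1 / (g k0).B * ((g k0).B * (101 / 100)) = 101 / 100 := by
      field_simp
    rw [h6] at h5
    linarith

lemma Sf_one {L : ℕ} {p : ℂ} (hp : p ∈ (g L).Z) : Sf g L p (pt g L p) = 1 := by
  unfold Sf
  have h0 := Pl_pt g hp
  have h1 : Pl g L (pt g L p) ≠ 0 := by
    intro h
    rw [h, norm_zero] at h0
    norm_num at h0
  rw [ph_pt, (g L).F_one p hp, one_mul, div_self h1]

lemma Sf_zero {L k : ℕ} {p q : ℂ} (hp : p ∈ (g L).Z) (hq : q ∈ (g k).Z)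
    (h : pt g k q ≠ pt g L p) : Sf g L p (pt g k q) = 0 := by
  unfold Sf
  by_cases hkL : k = L
  · subst hkL
    have hqp : q ≠ p := fun h' => h (by rw [h'])
    rw [ph_pt, (g k).F_zero p hp q hq hqp, zero_mul, zero_div]
  · have h1 := (Pl_both g L).2 _ (pts_mem g hq).1
    have h2 : Pl g L (pt g k q) = 0 := by
      apply hasProd_zero h1 (k := k)
      simp only [if_neg hkL]
      unfold Uk
      rw [ph_pt, (g k).U_zero q hq]
    rw [h2, mul_zero, zero_div]

end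

lemma pt_close (g : ∀ L : ℕ, PG ((L : ℝ) + 1)) {L : ℕ} {p : ℂ} (hp : p ∈ (g L).Z) :
    ‖pt g L p - aa g L‖ < 1 := by
  have h := (g L).geo.pts p hp
  have h1 : ‖p‖ ≤ 2 := by simpa using h.1
  rw [norm_sub_eq, ph_pt]
  have h2 := sg_le g L
  have h3 := sg_pos g L
  nlinarith [norm_nonneg p]

lemma pt_inj (g : ∀ L : ℕ, PG ((L : ℝ) + 1)) {L k : ℕ} {p q : ℂ} (hp : p ∈ (g L).Z)
    (hq : q ∈ (g k).Z) (h : pt g k q = pt g L p) : k = L ∧ q = p := by
  have hkL : k = L := by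
    by_contra hne
    have h1 := (pts_mem g hp).2 k hne
    have h2 := pt_close g hq
    rw [h] at h2
    linarith
  subst hkL
  refine ⟨rfl, ?_⟩
  have := congrArg (ph g k) h
  rwa [ph_pt, ph_pt] at this

theorem assembly : AssemblyStmt := by
  intro hG
  have hg : ∀ L : ℕ, Nonempty (PG ((L : ℝ) + 1)) := fun L =>
    exists_PG hG _ (by
      have : (0 : ℝ) ≤ L := Nat.cast_nonneg L
      linarith)
  obtain ⟨g⟩ : Nonempty (∀ L : ℕ, PG ((L : ℝ) + 1)) := ⟨fun L => Classical.choice (hg L)⟩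
  let T := Σ L : ℕ, {p // p ∈ (g L).Z}
  have hinf : Infinite T := by
    refine Infinite.of_injective
      (fun L : ℕ => (⟨L, ⟨(g L).ne.choose, (g L).ne.choose_spec⟩⟩ : T)) ?_
    intro a b hab
    exact congrArg Sigma.fst hab
  obtain ⟨hden⟩ := nonempty_denumerable T
  let φ : ℕ ≃ T := (Denumerable.eqv T).symm
  refine ⟨Dd g, fun j => pt g (φ j).1 (φ j).2, fun j => Sf g (φ j).1 (φ j).2, 21,
    fun j => (g (φ j).1).α (φ j).2, D_open g, D_conn g, fun j => (pts_mem g (φ j).2.2).1,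
    fun j => Sf_diff g (φ j).2.2, fun j w hw => Sf_le g (φ j).2.2 hw,
    fun j => Sf_one g (φ j).2.2, ?_, fun j => (g (φ j).1).α_le _ (φ j).2.2, ?_⟩
  · intro j k hkj
    apply Sf_zero g (φ j).2.2 (φ k).2.2
    intro h
    apply hkj
    obtain ⟨h1, h2⟩ := pt_inj g (φ j).2.2 (φ k).2.2 h
    apply φ.injective
    revert h1 h2
    generalize φ k = x
    generalize φ j = y
    obtain ⟨a, p, hp⟩ := x
    obtain ⟨b, q, hq⟩ := y
    rintro rfl rfl
    rfl
  · rintro G hGd ⟨M, hM⟩ hGα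
    obtain ⟨L, hL⟩ := exists_nat_ge M
    have hmaps : ∀ w ∈ ball (0 : ℂ) (g L).R \ (g L).K, pt g L w ∈ Dd g := by
      intro w hw
      exact (pt_mem g hw.2 (Or.inl (by simpa using hw.1))).1
    apply (g L).low (fun w => G (pt g L w))
    · apply hGd.comp _ hmaps
      apply Differentiable.differentiableOn
      unfold pt
      fun_prop
    · intro w hw
      have := hM _ (hmaps w hw)
      linarith
    · intro p hp
      have hall : ∀ t : T, G (pt g t.1 t.2) = (g t.1).α t.2 := fun t => by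
        obtain ⟨j, rfl⟩ := φ.surjective t
        exact hGα j
      exact hall ⟨L, ⟨p, hp⟩⟩

end MP05e272
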