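import Mathlib
import Pool.Agent.Lib.MP_05e272_an.Assembly

set_option autoImplicit false

/-!
A bounded version of the counterexample: remove one more closed disc and apply `z ↦ z⁻¹`.
-/

namespace MP05e272

open Metric Set Filter Topology

section

variable (g : ∀ L : ℕ, PG ((L : ℝ) + 1))

lemma aa_ge (L : ℕ) : 5 ≤ aa g L := by
  unfold aa pos
  have h1 : 0 ≤ ∑ i ∈ Finset.range L, 2 * (4 + (fun i => (g i).B) i) := by
    apply Finset.sum_nonneg
    intro i _
    have := (g i).B_le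
    simp only
    linarith
  have h2 := (g L).B_le
  linarith

lemma norm_aa_ge (L : ℕ) : 5 ≤ ‖(aa g L : ℂ)‖ := by
  rw [Complex.norm_real, Real.norm_eq_abs]
  exact (aa_ge g L).trans (le_abs_self _)

/-- The domain with one more hole. -/
def Dh : Set ℂ := Dd g \ closedBall 0 1

lemma two_lt_of_close {L : ℕ} {z : ℂ} (h : ‖z - aa g L‖ ≤ 1) : 2 < ‖z‖ := by
  have h1 := norm_aa_ge g L
  have h2 := norm_add_le (z : ℂ) ((aa g L : ℂ) - z)
  rw [add_sub_cancel, norm_sub_rev] at h2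
  linarith

lemma ball_sub_D : ball (0 : ℂ) 2 ⊆ Dd g := by
  intro z hz
  refine ⟨mem_univ _, fun h => ?_⟩
  obtain ⟨L, hL⟩ := mem_iUnion.1 h
  have h1 := two_lt_of_close g (H_sub g hL).le
  rw [mem_ball, dist_zero_right] at hz
  linarith

lemma Dh_open : IsOpen (Dh g) := (D_open g).sdiff isClosed_closedBall

lemma Dh_conn : IsConnected (Dh g) := by
  have h := conn Unit (Dd g) (fun _ => ball 0 2) (fun _ => closedBall 0 1) (D_open g) (D_conn g)
    (fun _ => isOpen_ball) (fun _ => ball_sub_D g)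
    (fun _ => closedBall_subset_ball (by norm_num)) (fun i j h => absurd rfl h)
    (fun _ => annulus 0 1 2 (by norm_num) (by norm_num))
    (by rw [iUnion_const]; exact Dh_open g)
  rw [iUnion_const] at h
  exact h

lemma Dh_ne {z : ℂ} (hz : z ∈ Dh g) : z ≠ 0 := by
  rintro rfl
  exact hz.2 (by simp)

/-- The bounded domain. -/
def Db : Set ℂ := {z | z⁻¹ ∈ Dh g}

lemma Db_ne {z : ℂ} (hz : z ∈ Db g) : z ≠ 0 := by
  rintro rfl
  have h : (0 : ℂ)⁻¹ ∈ Dh g := hz
  rw [inv_zero] at h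
  exact Dh_ne g h rfl

lemma Db_sub : Db g ⊆ ball 0 1 := by
  intro z hz
  have h0 := Db_ne g hz
  have h1 : z⁻¹ ∉ closedBall (0 : ℂ) 1 := hz.2
  rw [mem_closedBall, dist_zero_right, norm_inv, not_le] at h1
  rw [mem_ball, dist_zero_right]
  have h2 : 0 < ‖z‖ := norm_pos_iff.2 h0
  rwa [one_lt_inv₀ h2] at h1

lemma Db_open : IsOpen (Db g) := by
  have h1 : IsOpen ({z : ℂ | z ≠ 0} ∩ (fun z => z⁻¹) ⁻¹' (Dh g)) := by
    apply ContinuousOn.isOpen_inter_preimage _ isOpen_ne (Dh_open g)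
    exact continuousOn_inv₀
  have h2 : {z : ℂ | z ≠ 0} ∩ (fun z => z⁻¹) ⁻¹' (Dh g) = Db g := by
    ext z
    constructor
    · rintro ⟨-, h⟩
      exact h
    · intro h
      exact ⟨Db_ne g h, h⟩
  rwa [h2] at h1

lemma Db_conn : IsConnected (Db g) := by
  have h1 : (fun z : ℂ => z⁻¹) '' (Dh g) = Db g := by
    ext z
    constructor
    · rintro ⟨w, hw, rfl⟩
      show (w⁻¹)⁻¹ ∈ Dh g
      rwa [inv_inv]
    · intro h
      exact ⟨z⁻¹, h, inv_inv z⟩
  rw [← h1]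
  apply (Dh_conn g).image
  exact continuousOn_inv₀.mono fun z hz => Dh_ne g hz

lemma inv_diff : DifferentiableOn ℂ (fun z : ℂ => z⁻¹) (Db g) := by
  intro z hz
  exact (differentiableAt_inv (Db_ne g hz)).differentiableWithinAt

end

/-- The counterexample with a domain inside the unit disc and with the separation constant 21. -/
theorem bounded_counterexample (hG : GadgetStmt) :
    ∃ (D : Set ℂ) (z : ℕ → ℂ) (F : ℕ → ℂ → ℂ) (α : ℕ → ℂ), IsOpen D ∧ IsConnected D ∧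
      D ⊆ ball 0 1 ∧ (∀ j, z j ∈ D) ∧ (∀ j, DifferentiableOn ℂ (F j) D) ∧
      (∀ j, ∀ w ∈ D, ‖F j w‖ ≤ 21) ∧ (∀ j, F j (z j) = 1) ∧ (∀ j k, k ≠ j → F j (z k) = 0) ∧
      (∀ j, ‖α j‖ ≤ 1) ∧
      ∀ G : ℂ → ℂ, DifferentiableOn ℂ G D → (∃ M : ℝ, ∀ w ∈ D, ‖G w‖ ≤ M) →
        ¬ ∀ j, G (z j) = α j := by
  have hg : ∀ L : ℕ, Nonempty (PG ((L : ℝ) + 1)) := fun L =>
    exists_PG hG _ (by
      have : (0 : ℝ) ≤ L := Nat.cast_nonneg L
      linarith)
  obtain ⟨g⟩ : Nonempty (∀ L : ℕ, PG ((L : ℝ) + 1)) := ⟨fun L => Classical.choice (hg L)⟩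
  let T := Σ L : ℕ, {p // p ∈ (g L).Z}
  have hinf : Infinite T := by
    refine Infinite.of_injective
      (fun L : ℕ => (⟨L, ⟨(g L).ne.choose, (g L).ne.choose_spec⟩⟩ : T)) ?_
    intro a b hab
    exact congrArg Sigma.fst hab
  obtain ⟨hden⟩ := nonempty_denumerable T
  let φ : ℕ ≃ T := (Denumerable.eqv T).symm
  have hmaps2 : ∀ w ∈ Db g, w⁻¹ ∈ Dd g := fun w hw => hw.1
  refine ⟨Db g, fun j => (pt g (φ j).1 (φ j).2)⁻¹, fun j w => Sf g (φ j).1 (φ j).2 w⁻¹,
    fun j => (g (φ j).1).α (φ j).2, Db_open g, Db_conn g, Db_sub g, ?_, ?_, ?_, ?_, ?_,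
    fun j => (g (φ j).1).α_le _ (φ j).2.2, ?_⟩
  · intro j
    show ((pt g (φ j).1 (φ j).2)⁻¹)⁻¹ ∈ Dh g
    rw [inv_inv]
    refine ⟨(pts_mem g (φ j).2.2).1, ?_⟩
    rw [mem_closedBall, dist_zero_right, not_le]
    have := two_lt_of_close g (pt_close g (φ j).2.2).le
    linarith
  · intro j
    exact (Sf_diff g (φ j).2.2).comp (inv_diff g) hmaps2
  · intro j w hw
    exact Sf_le g (φ j).2.2 (hmaps2 w hw)
  · intro j
    show Sf g (φ j).1 (φ j).2 ((pt g (φ j).1 (φ j).2)⁻¹)⁻¹ = 1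
    rw [inv_inv]
    exact Sf_one g (φ j).2.2
  · intro j k hkj
    show Sf g (φ j).1 (φ j).2 ((pt g (φ k).1 (φ k).2)⁻¹)⁻¹ = 0
    rw [inv_inv]
    apply Sf_zero g (φ j).2.2 (φ k).2.2
    intro h
    apply hkj
    obtain ⟨h1, h2⟩ := pt_inj g (φ j).2.2 (φ k).2.2 h
    apply φ.injective
    revert h1 h2
    generalize φ k = x
    generalize φ j = y
    obtain ⟨a, p, hp⟩ := x
    obtain ⟨b, q, hq⟩ := y
    rintro rfl rfl
    rfl
  · rintro G hGd ⟨M, hM⟩ hGα
    obtain ⟨L, hL⟩ := exists_nat_ge M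
    have hmaps : ∀ w ∈ ball (0 : ℂ) (g L).R \ (g L).K, (pt g L w)⁻¹ ∈ Db g := by
      intro w hw
      show ((pt g L w)⁻¹)⁻¹ ∈ Dh g
      rw [inv_inv]
      refine ⟨(pt_mem g hw.2 (Or.inl (by simpa using hw.1))).1, ?_⟩
      rw [mem_closedBall, dist_zero_right, not_le]
      have h1 : ‖pt g L w - aa g L‖ ≤ 1 := by
        rw [norm_sub_eq, ph_pt]
        have h2 : ‖w‖ < (g L).R := by simpa using hw.1
        have h3 := sg_pos g L
        have h4 := sg_R g L
        nlinarith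
      have := two_lt_of_close g h1
      linarith
    apply (g L).low (fun w => G (pt g L w)⁻¹)
    · apply hGd.comp _ hmaps
      intro w hw
      have h1 : pt g L w ≠ 0 := by
        intro h0
        have h2 := Db_ne g (hmaps w hw)
        rw [h0, inv_zero] at h2
        exact h2 rfl
      apply DifferentiableAt.differentiableWithinAt
      apply DifferentiableAt.inv _ h1
      unfold pt
      fun_prop
    · intro w hw
      have := hM _ (hmaps w hw)
      linarith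
    · intro p hp
      have hall : ∀ t : T, G (pt g t.1 t.2)⁻¹ = (g t.1).α t.2 := fun t => by
        obtain ⟨j, rfl⟩ := φ.surjective t
        exact hGα j
      exact hall ⟨L, ⟨p, hp⟩⟩

end MP05e272
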