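import Mathlib

/-! MP_05e272_an: definitions for the disproof of S03717.

A gadget is a compact set `K` (a finite union of closed discs), a finite set `Z` of points outside
`K` and data `α` on `Z`.  One generation adds the root hole `closedBall 0 (ρ/4)` with the two
points `ρ, -ρ` (data `1, -1`) and puts a copy of the old gadget, scaled by `τ`, at each of the
points `c j` of the unit circle. -/

set_option autoImplicit false

open Metric Set Complex Filter Topology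
open scoped Real

noncomputable section

namespace MP05e272

/-- the mean value of `G` on the circle `C(c,r)` -/
def V (G : ℂ → ℂ) (c : ℂ) (r : ℝ) : ℂ :=
  (2 * π * I : ℂ)⁻¹ • ∮ ζ in C(c, r), G ζ / (ζ - c)

/-- position and connectedness -/
structure Geo (K : Set ℂ) (Z : Finset ℂ) : Prop where
  closed : IsClosed K
  sub : K ⊆ closedBall 0 2
  conn : IsConnected (ball (0 : ℂ) 4 \ K)
  pts : ∀ p ∈ Z, p ∈ closedBall (0 : ℂ) 2 \ K

/-- bounded separation: a bounded function `U` vanishing on `Z` and tending to `1` at infinity,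
and separating functions bounded by `S` tending to `0` at infinity -/
structure Sep (K : Set ℂ) (Z : Finset ℂ) (S B : ℝ) : Prop where
  exU : ∃ U : ℂ → ℂ, DifferentiableOn ℂ U Kᶜ ∧ (∀ z ∈ Kᶜ, ‖U z‖ ≤ B) ∧
    (∀ p ∈ Z, U p = 0) ∧ Tendsto U (cocompact ℂ) (𝓝 1)
  exF : ∀ p ∈ Z, ∃ F : ℂ → ℂ, DifferentiableOn ℂ F Kᶜ ∧ (∀ z ∈ Kᶜ, ‖F z‖ ≤ S) ∧
    F p = 1 ∧ (∀ q ∈ Z, q ≠ p → F q = 0) ∧ Tendsto F (cocompact ℂ) (𝓝 0)

/-- no interpolation with a bound `C` unless the mean value has real part at most `v` -/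
def Low (K : Set ℂ) (Z : Finset ℂ) (α : ℂ → ℂ) (C R v : ℝ) : Prop :=
  ∀ G : ℂ → ℂ, DifferentiableOn ℂ G (ball 0 R \ K) → (∀ z ∈ ball 0 R \ K, ‖G z‖ ≤ C) →
    (∀ p ∈ Z, G p = α p) → (V G 0 4).re ≤ v

variable {ι : Type*} [Fintype ι]

/-- the holes of the next generation -/
def nextK (ρ τ : ℝ) (c : ι → ℂ) (K : Set ℂ) : Set ℂ :=
  closedBall 0 (ρ / 4) ∪ ⋃ j, (fun w : ℂ => c j + τ * w) '' K

/-- the points of the next generation -/
def nextZ (ρ τ : ℝ) (c : ι → ℂ) (Z : Finset ℂ) : Finset ℂ :=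
  {(ρ : ℂ), -(ρ : ℂ)} ∪ Finset.univ.biUnion (fun j => Z.image (fun w : ℂ => c j + τ * w))

theorem mem_nextZ {ρ τ : ℝ} {c : ι → ℂ} {Z : Finset ℂ} {z : ℂ} :
    z ∈ nextZ ρ τ c Z ↔ z = ρ ∨ z = -ρ ∨ ∃ j, ∃ w ∈ Z, c j + τ * w = z := by
  simp [nextZ]

/-- the data of the next generation -/
structure NextData (ρ τ : ℝ) (c : ι → ℂ) (Z : Finset ℂ) (α α' : ℂ → ℂ) : Prop where
  pos : α' ρ = 1
  neg : α' (-ρ) = -1
  child : ∀ j, ∀ w ∈ Z, α' (c j + τ * w) = α w

/-- the centres: `δ`-separated points on the unit circle -/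
structure Ring (δ : ℝ) (c : ι → ℂ) : Prop where
  pos : 0 < δ
  le_one : δ ≤ 1
  norm : ∀ j, ‖c j‖ = 1
  sep : ∀ i j, i ≠ j → δ ≤ ‖c i - c j‖

end MP05e272
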