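import Mathlib
import Pool.Agent.Lib.MP_05e272_an.Stmts

set_option autoImplicit false

/-!
From `FinalStmt` to the statement of `S03718`.
-/

namespace MP05e272

open Metric Set Filter Topology

theorem final_neg (h : FinalStmt) :
    ¬ (∀ (D : Set ℂ), IsOpen D → IsConnected D →
      ∀ (z : ℕ → ℂ), (∀ j, z j ∈ D) →
        (∃ C : ℝ, ∃ F : ℕ → ℂ → ℂ,
            (∀ j, DifferentiableOn ℂ (F j) D) ∧
            (∀ j, ∀ w ∈ D, ‖F j w‖ ≤ C) ∧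
            (∀ j, F j (z j) = 1) ∧
            (∀ j k, k ≠ j → F j (z k) = 0)) →
        ∀ α : ℕ → ℂ, (∃ M : ℝ, ∀ j, ‖α j‖ ≤ M) →
          ∃ G : ℂ → ℂ, DifferentiableOn ℂ G D ∧
            (∃ M : ℝ, ∀ w ∈ D, ‖G w‖ ≤ M) ∧
            ∀ j, G (z j) = α j) := by
  intro H
  obtain ⟨D, z, F, C, α, hD, hDc, hz, hF, hFb, hF1, hF0, hα, hG⟩ := h
  obtain ⟨G, hGd, hGb, hGα⟩ := H D hD hDc z hz ⟨C, F, hF, hFb, hF1, hF0⟩ α ⟨1, hα⟩
  exact hG G hGd hGb hGα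

end MP05e272
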