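import Pool.Agent.Lib.MP_05e272_an.Stmts

/-! MP_05e272_an: the induction over the generations. -/

set_option autoImplicit false

open Metric Set Complex Filter Topology
open scoped Real

noncomputable section

namespace MP05e272

theorem Sep.mono {K : Set ℂ} {Z : Finset ℂ} {S S' B : ℝ} (h : Sep K Z S B) (hS : S ≤ S') :
    Sep K Z S' B := by
  refine ⟨h.exU, fun p hp => ?_⟩
  obtain ⟨F, h1, h2, h3⟩ := h.exF p hp
  exact ⟨F, h1, fun z hz => (h2 z hz).trans hS, h3⟩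

/-- the mean value is bounded by the bound of the function -/
theorem norm_V_le {G : ℂ → ℂ} {c : ℂ} {r C : ℝ} (hr : 0 < r)
    (hG : ∀ z ∈ sphere c r, ‖G z‖ ≤ C) : ‖V G c r‖ ≤ C := by
  unfold V
  have h : ∀ z ∈ sphere c r, ‖G z / (z - c)‖ ≤ C / r := by
    intro z hz
    have h1 : ‖z - c‖ = r := by
      rw [← dist_eq]
      exact hz
    rw [norm_div, h1]
    exact div_le_div_of_nonneg_right (hG z hz) hr.le
  have h2 := circleIntegral.norm_two_pi_i_inv_smul_integral_le_of_norm_le_const hr.le h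
  rw [mul_div_cancel₀ _ hr.ne'] at h2
  exact h2

theorem circle_sub {K : Set ℂ} {Z : Finset ℂ} {R : ℝ} (hg : Geo K Z) (hR : 4 < R) :
    sphere (0 : ℂ) 4 ⊆ ball 0 R \ K := by
  intro z hz
  have h1 : ‖z‖ = 4 := by simpa using hz
  refine ⟨by simpa [h1] using hR, fun hK => ?_⟩
  have := hg.sub hK
  simp only [mem_closedBall, dist_zero_right] at this
  linarith

theorem geo_empty : Geo ∅ ∅ := by
  refine ⟨isClosed_empty, empty_subset _, ?_, by simp⟩
  rw [sdiff_empty]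
  exact (convex_ball _ _).isConnected ⟨0, by simp⟩

/-- one step -/
theorem step (hG : GeoStepStmt) (hS : SepStepStmt) (hL : LowStepStmt)
    (M N : ℕ) (ρ δ θ S B lam κ C R v : ℝ) (c : Fin M → ℂ) (w : Fin M → ℝ) (K : Set ℂ)
    (Z : Finset ℂ) (α : ℂ → ℂ) (hc : Ring δ c) (hN : Even N) (hN2 : 2 ≤ N) (hρ : 0 < ρ)
    (hρ4 : ρ ≤ 1 / 4) (hρN : ρ * 4 ^ N = 1) (hθ : 0 < θ) (hθ2 : θ ≤ 1 / 2)
    (h2ρ : (2 * ρ) ^ N ≤ θ / 8) (hS12 : 12 ≤ S) (hB1 : 1 + 4 ^ N ≤ B) (hB2 : B ≤ 2 * (1 + 4 ^ N))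
    (hlam : 0 < lam) (hlam1 : lam ≤ 1) (hC : 1 ≤ C) (hR : 100 * C / lam ≤ R)
    (hw : ∀ j, 0 ≤ w j) (hw1 : ∑ j, w j = 1)
    (hk : ∀ ζ : ℂ, ‖ζ‖ = ρ / 2 →
      ‖∑ j, (w j : ℂ) / (ζ - c j) - (lam : ℂ) * ρ / (ζ ^ 2 - (ρ : ℂ) ^ 2)‖ ≤ κ)
    (hκ : C * (ρ / 2) * κ ≤ lam / 8)
    (hgeo : Geo K Z) (hsep : Sep K Z S B) (hα : ∀ p ∈ Z, ‖α p‖ ≤ 1) (hlow : Low K Z α C R v) :
    ∃ (K' : Set ℂ) (Z' : Finset ℂ) (α' : ℂ → ℂ), Geo K' Z' ∧ Sep K' Z' (S * (1 + θ)) (B * (1 + θ))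
      ∧ Z'.Nonempty ∧ (∀ p ∈ Z', ‖α' p‖ ≤ 1) ∧ Low K' Z' α' C R (v - lam / 2) := by
  have e1 := hG M ρ δ c K Z hc hρ hρ4 hgeo
  have e2 := hS M N ρ δ θ S B c K Z hc hN hN2 hρN hθ hθ2 h2ρ hS12 hB1 hB2 hgeo hsep
  have e3 := hL M ρ δ lam κ C R c w hc hρ hρ4 hlam hlam1 hC hR hw hw1 hk hκ
  obtain ⟨τ, ⟨h1, h2⟩, h3, h4⟩ := (e1.and (e2.and e3)).exists
  obtain ⟨α', hn, hα'⟩ := h2 α hα
  refine ⟨nextK ρ τ c K, nextZ ρ τ c Z, α', h1, h3, ⟨ρ, ?_⟩, hα', h4 v K Z α α' hgeo hn hlow⟩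
  rw [mem_nextZ]
  exact Or.inl rfl

theorem gadgetOf : GadgetOfStmts := by
  intro hRing hWt hG hS hL C hC
  -- the parameters
  obtain ⟨k, hk1, hk⟩ : ∃ k : ℕ, 1 ≤ k ∧ 8 * C ≤ 4 ^ k := by
    obtain ⟨k, hk⟩ := pow_unbounded_of_one_lt (8 * C) (by norm_num : (1 : ℝ) < 4)
    refine ⟨k, ?_, hk.le⟩
    rcases Nat.eq_zero_or_pos k with h | h
    · subst h
      norm_num at hk
      linarith
    · exact h
  set N := 2 * k + 2 with hN
  set ρ : ℝ := ((4 : ℝ) ^ N)⁻¹ with hρdef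
  have hρ : 0 < ρ := by positivity
  have hρN : ρ * 4 ^ N = 1 := inv_mul_cancel₀ (by positivity)
  have hρ4 : ρ ≤ 1 / 4 := by
    rw [hρdef, one_div]
    apply inv_anti₀ (by norm_num)
    calc (4 : ℝ) = 4 ^ 1 := by norm_num
      _ ≤ 4 ^ N := pow_le_pow_right₀ (by norm_num) (by omega)
  set lam : ℝ := ρ ^ (2 * k) with hlamdef
  have hlam : 0 < lam := by positivity
  have hlam1 : lam ≤ 1 := pow_le_one₀ hρ.le (by linarith)
  set κ : ℝ := 2 * (ρ ^ (2 * k) / ρ) / 4 ^ k with hκdef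
  have hκ : C * (ρ / 2) * κ ≤ lam / 8 := by
    have h1 : C * (ρ / 2) * κ = C * lam / 4 ^ k := by
      rw [hκdef, ← hlamdef]
      field_simp
    rw [h1, div_le_div_iff₀ (by positivity) (by norm_num)]
    nlinarith
  obtain ⟨δ, hδ⟩ := hRing (4 * k + 1) (by omega)
  obtain ⟨w, hw, hw1, hwk⟩ := hWt k (4 * k + 1) ρ hk1 (by omega) hρ hρ4
  set R : ℝ := 100 * C / lam with hRdef
  have hR4 : 4 < R := by
    rw [hRdef, lt_div_iff₀ hlam]
    nlinarith
  -- number of generations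
  set n : ℕ := ⌊4 * C / lam⌋₊ + 1 with hn
  have hn1 : 4 * C / lam < n := by
    rw [hn]
    push_cast
    exact Nat.lt_floor_add_one _
  have hn2 : (n : ℝ) ≤ 4 * C / lam + 1 := by
    rw [hn]
    push_cast
    have := Nat.floor_le (show 0 ≤ 4 * C / lam by positivity)
    linarith
  have hn0 : (0 : ℝ) < n := by
    rw [hn]
    positivity
  have hnN : 1 ≤ n := by omega
  set θ : ℝ := 1 / (2 * n) with hθdef
  have hθ : 0 < θ := by positivity
  have hθ2 : θ ≤ 1 / 2 := by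
    rw [hθdef]
    apply one_div_le_one_div_of_le (by norm_num)
    have : (1 : ℝ) ≤ n := by exact_mod_cast hnN
    linarith
  have h2ρ : (2 * ρ) ^ N ≤ θ / 8 := by
    set P : ℝ := (4 : ℝ) ^ k with hP
    have hP8 : 8 ≤ P := by linarith
    have h2N : (2 : ℝ) ^ N = 4 * P := by
      rw [hN, pow_add, pow_mul]
      norm_num
      ring
    have h4N : (4 : ℝ) ^ N = 16 * P ^ 2 := by
      rw [hN, pow_add, pow_mul, hP, ← pow_mul, ← pow_mul, mul_comm 2 k]
      rw [show (4 : ℝ) ^ (k * 2) = (4 ^ 2) ^ k by rw [mul_comm, pow_mul]]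
      norm_num
      ring
    have h1 : (2 * ρ) ^ N = 4 * P * (lam * ρ ^ 2) := by
      rw [mul_pow, h2N, hlamdef, ← pow_add]
    have h3 : lam * n ≤ P := by
      have h4 : lam * n ≤ lam * (4 * C / lam + 1) := mul_le_mul_of_nonneg_left hn2 hlam.le
      have h5 : lam * (4 * C / lam + 1) = 4 * C + lam := by
        field_simp
      linarith
    have h6 : ρ * P ≤ 1 / 16 := by
      have h7 : ρ * (16 * P ^ 2) = 1 := by rw [← h4N]; exact hρN
      have h8 : ρ * P ≤ ρ * P ^ 2 := by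
        apply mul_le_mul_of_nonneg_left _ hρ.le
        nlinarith
      linarith
    have h9 : (2 * ρ) ^ N * (16 * n) ≤ 1 := by
      rw [h1]
      have h10 : 4 * P * (lam * ρ ^ 2) * (16 * n) = 64 * (ρ * P) * ρ * (lam * n) := by ring
      rw [h10]
      have h11 : 64 * (ρ * P) * ρ * (lam * n) ≤ 64 * (ρ * P) * ρ * P :=
        mul_le_mul_of_nonneg_left h3 (by positivity)
      have h12 : 64 * (ρ * P) * ρ * P = 64 * (ρ * P) ^ 2 := by ring
      have h13 : 0 ≤ ρ * P := by positivity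
      nlinarith
    have h14 : θ / 8 = 1 / (16 * n) := by
      rw [hθdef]
      field_simp
      norm_num
    rw [h14, le_div_iff₀ (by positivity)]
    exact h9
  have hpow : ∀ m : ℕ, m ≤ n → (1 + θ) ^ m ≤ 5 / 3 := by
    intro m hm
    have h1 : (1 + θ) ^ m ≤ (1 + θ) ^ n := pow_le_pow_right₀ (by linarith) hm
    have h2 : (1 + θ) ^ n ≤ Real.exp θ ^ n := by
      apply pow_le_pow_left₀ (by linarith)
      have := Real.add_one_le_exp θ
      linarith
    have h3 : Real.exp θ ^ n = Real.exp (1 / 2) := by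
      rw [← Real.exp_nat_mul, hθdef]
      congr 1
      field_simp
    have h4 : Real.exp (1 / 2) ≤ 5 / 3 := by
      have h5 : Real.exp (1 / 2) ^ 2 = Real.exp 1 := by
        rw [← Real.exp_nat_mul]
        norm_num
      have h6 := Real.exp_one_lt_d9
      nlinarith [Real.exp_pos (1 / 2)]
    linarith
  have hone : ∀ m : ℕ, 1 ≤ (1 + θ) ^ m := fun m => one_le_pow₀ (by linarith)
  -- the induction
  have main : ∀ m : ℕ, m ≤ n → ∃ (K : Set ℂ) (Z : Finset ℂ) (α : ℂ → ℂ), Geo K Z ∧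
      Sep K Z (12 * (1 + θ) ^ m) ((1 + 4 ^ N) * (1 + θ) ^ m) ∧ (1 ≤ m → Z.Nonempty) ∧
      (∀ p ∈ Z, ‖α p‖ ≤ 1) ∧ Low K Z α C R (C - m * (lam / 2)) := by
    intro m
    induction m with
    | zero =>
      intro _
      refine ⟨∅, ∅, 0, geo_empty, ⟨⟨fun _ => 1, by fun_prop, ?_, by simp, tendsto_const_nhds⟩,
        by simp⟩, by omega, by simp, ?_⟩
      · intro z _
        simp
      · intro G _ hGb _
        have h1 : ‖V G 0 4‖ ≤ C := norm_V_le (by norm_num) fun z hz =>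
          hGb z (circle_sub geo_empty hR4 hz)
        have h2 := (Complex.re_le_norm _).trans h1
        simpa using h2
    | succ m ih =>
      intro hm
      obtain ⟨K, Z, α, h1, h2, h3, h4, h5⟩ := ih (by omega)
      have hm1 := hpow m (by omega)
      obtain ⟨K', Z', α', g1, g2, g3, g4, g5⟩ := step hG hS hL (4 * k + 1) N ρ δ θ
        (12 * (1 + θ) ^ m) ((1 + 4 ^ N) * (1 + θ) ^ m) lam κ C R (C - m * (lam / 2))
        (cM (4 * k + 1)) w K Z α hδ ⟨k + 1, by omega⟩ (by omega) hρ hρ4 hρN hθ hθ2 h2ρ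
        (by nlinarith [hone m]) (by
          have : (0 : ℝ) < 1 + 4 ^ N := by positivity
          nlinarith [hone m]) (by
          have : (0 : ℝ) < 1 + 4 ^ N := by positivity
          nlinarith [hone m]) hlam hlam1 hC le_rfl hw hw1 (by
          intro ζ hζ
          have := hwk ζ hζ
          rw [hlamdef]
          push_cast
          exact this) hκ h1 h2 h4 h5
      refine ⟨K', Z', α', g1, ?_, fun _ => g3, g4, ?_⟩
      · rw [pow_succ, ← mul_assoc, ← mul_assoc]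
        exact g2
      · have : C - ((m + 1 : ℕ) : ℝ) * (lam / 2) = C - m * (lam / 2) - lam / 2 := by
          push_cast
          ring
        rw [this]
        exact g5
  obtain ⟨K, Z, α, h1, h2, h3, h4, h5⟩ := main n le_rfl
  refine ⟨K, Z, α, R, (1 + 4 ^ N) * (1 + θ) ^ n, h1, h2.mono ?_, h3 hnN, h4, ?_⟩
  · have := hpow n le_rfl
    linarith
  · intro G hGd hGb hGi
    have e1 := h5 G hGd hGb hGi
    have e2 : ‖V G 0 4‖ ≤ C := norm_V_le (by norm_num) fun z hz =>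
      hGb z (circle_sub h1 hR4 hz)
    have e3 := (Complex.abs_re_le_norm (V G 0 4)).trans e2
    have e4 := (abs_le.mp e3).1
    rw [div_lt_iff₀ hlam] at hn1
    nlinarith

end MP05e272
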