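import Pool.Agent.Lib.MP_05e272_an.Stmts
import Pool.Agent.Lib.MP_05e272_an.Conn

/-! MP_05e272_an: geometry of the next generation. -/

set_option autoImplicit false

open Metric Set Complex Filter Topology
open scoped Real

noncomputable section

namespace MP05e272

/-- the affine map placing a child -/
def place (c : ℂ) (τ : ℝ) : ℂ → ℂ := fun w => c + τ * w

theorem place_inj {c : ℂ} {τ : ℝ} (hτ : 0 < τ) : Function.Injective (place c τ) := by
  intro a b h
  have h1 : (τ : ℂ) ≠ 0 := by exact_mod_cast hτ.ne'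
  have h2 : c + τ * a = c + τ * b := h
  exact mul_left_cancel₀ h1 (add_left_cancel h2)

theorem place_cont (c : ℂ) (τ : ℝ) : Continuous (place c τ) := by
  unfold place
  fun_prop

theorem place_closed {c : ℂ} {τ : ℝ} (hτ : 0 < τ) {K : Set ℂ} (hK : IsClosed K) :
    IsClosed (place c τ '' K) := by
  have h1 : (τ : ℂ) ≠ 0 := by exact_mod_cast hτ.ne'
  have h2 : place c τ '' K = (fun z : ℂ => (z - c) / τ) ⁻¹' K := by
    ext z
    simp only [mem_image, mem_preimage, place]
    constructor
    · rintro ⟨w, hw, rfl⟩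
      rwa [add_sub_cancel_left, mul_div_cancel_left₀ _ h1]
    · intro h
      refine ⟨_, h, ?_⟩
      rw [mul_div_cancel₀ _ h1]
      ring
  rw [h2]
  exact hK.preimage (by fun_prop)

theorem place_ball {c : ℂ} {τ : ℝ} (hτ : 0 < τ) (r : ℝ) :
    place c τ '' ball 0 r = ball c (τ * r) := by
  have h1 : (τ : ℂ) ≠ 0 := by exact_mod_cast hτ.ne'
  ext z
  simp only [mem_image, mem_ball, dist_zero_right, place, dist_eq]
  constructor
  · rintro ⟨w, hw, rfl⟩
    rw [add_sub_cancel_left, norm_mul, norm_real, Real.norm_of_nonneg hτ.le]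
    exact mul_lt_mul_of_pos_left hw hτ
  · intro h
    refine ⟨(z - c) / τ, ?_, ?_⟩
    · rw [norm_div, norm_real, Real.norm_of_nonneg hτ.le, div_lt_iff₀ hτ, mul_comm]
      exact h
    · rw [mul_div_cancel₀ _ h1]
      ring

theorem dist_place {c : ℂ} {τ : ℝ} (hτ : 0 < τ) {w : ℂ} (hw : w ∈ closedBall (0 : ℂ) 2) :
    ‖place c τ w - c‖ ≤ 2 * τ := by
  unfold place
  rw [add_sub_cancel_left, norm_mul, norm_real, Real.norm_of_nonneg hτ.le]
  simp only [mem_closedBall, dist_zero_right] at hw
  nlinarith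

/-- the conditions on the scale -/
theorem geo_next {M : ℕ} {ρ δ τ : ℝ} {c : Fin M → ℂ} {K : Set ℂ} {Z : Finset ℂ}
    (hconn : ConnStmt) (hann : AnnulusStmt)
    (hc : Ring δ c) (hρ : 0 < ρ) (hρ4 : ρ ≤ 1 / 4) (hg : Geo K Z) (hτ : 0 < τ)
    (hτδ : 16 * τ ≤ δ) : Geo (nextK ρ τ c K) (nextZ ρ τ c Z) := by
  have hδ1 := hc.le_one
  have hfar : ∀ i j, i ≠ j → ∀ z, ‖z - c i‖ ≤ 2 * τ → ‖z - c j‖ ≤ 2 * τ → False := by
    intro i j hij z h1 h2
    have h3 := hc.sep i j hij
    have h4 : ‖c i - c j‖ ≤ ‖z - c i‖ + ‖z - c j‖ := by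
      rw [← norm_neg (z - c i), neg_sub]
      calc ‖c i - c j‖ = ‖(c i - z) + (z - c j)‖ := by ring_nf
        _ ≤ _ := norm_add_le _ _
    linarith
  have hnorm : ∀ j z, ‖z - c j‖ ≤ 2 * τ → 7 / 8 ≤ ‖z‖ ∧ ‖z‖ ≤ 9 / 8 := by
    intro j z h
    have h1 := hc.norm j
    have h2 : ‖c j‖ ≤ ‖z‖ + ‖z - c j‖ := by
      calc ‖c j‖ = ‖z - (z - c j)‖ := by ring_nf
        _ ≤ _ := norm_sub_le _ _
    have h3 : ‖z‖ ≤ ‖c j‖ + ‖z - c j‖ := by
      calc ‖z‖ = ‖c j + (z - c j)‖ := by ring_nf
        _ ≤ _ := norm_add_le _ _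
    constructor <;> linarith
  have hclosed : IsClosed (nextK ρ τ c K) := by
    unfold nextK
    exact isClosed_closedBall.union (isClosed_iUnion_of_finite fun j => place_closed hτ hg.closed)
  have hKj : ∀ j, ∀ z ∈ (fun w : ℂ => c j + τ * w) '' K, ‖z - c j‖ ≤ 2 * τ := by
    rintro j _ ⟨w, hw, rfl⟩
    exact dist_place hτ (hg.sub hw)
  refine ⟨hclosed, ?_, ?_, ?_⟩
  · rintro z (hz | hz)
    · simp only [mem_closedBall, dist_zero_right] at hz ⊢
      linarith
    · obtain ⟨j, hj⟩ := mem_iUnion.mp hz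
      have := (hnorm j z (hKj j z hj)).2
      simp only [mem_closedBall, dist_zero_right]
      linarith
  · have hU : nextK ρ τ c K = ⋃ i : Option (Fin M),
        (Option.elim i (closedBall 0 (ρ / 4)) fun j => (fun w : ℂ => c j + τ * w) '' K) := by
      rw [iUnion_option]
      rfl
    rw [hU]
    refine hconn (Option (Fin M)) (ball 0 4) (fun i => Option.elim i (ball 0 (1 / 2))
      fun j => ball (c j) (τ * 4)) _ isOpen_ball ?_ ?_ ?_ ?_ ?_ ?_ ?_
    · exact (convex_ball _ _).isConnected ⟨0, by simp⟩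
    · rintro (_ | j)
      · exact isOpen_ball
      · exact isOpen_ball
    · rintro (_ | j)
      · exact ball_subset_ball (by norm_num)
      · intro z hz
        simp only [Option.elim, mem_ball, dist_eq, sub_zero] at hz ⊢
        have h1 := hc.norm j
        have h3 : ‖z‖ ≤ ‖c j‖ + ‖z - c j‖ := by
          calc ‖z‖ = ‖c j + (z - c j)‖ := by ring_nf
            _ ≤ _ := norm_add_le _ _
        linarith
    · rintro (_ | j)
      · exact closedBall_subset_ball (by linarith)
      · intro z hz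
        have := hKj j z hz
        simp only [Option.elim, mem_ball, dist_eq]
        linarith
    · have h0 : ∀ j, Disjoint (ball (0 : ℂ) (1 / 2)) (ball (c j) (τ * 4)) := by
        intro j
        apply ball_disjoint_ball
        rw [dist_zero_left, hc.norm j]
        linarith
      rintro (_ | i) (_ | j) hij
      · exact absurd rfl hij
      · exact h0 j
      · exact (h0 i).symm
      · apply ball_disjoint_ball
        rw [dist_eq]
        have h1 : i ≠ j := fun h => hij (by rw [h])
        have := hc.sep i j h1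
        linarith
    · rintro (_ | j)
      · exact hann 0 (ρ / 4) (1 / 2) (by positivity) (by linarith)
      · have h1 : ball (c j) (τ * 4) \ (fun w : ℂ => c j + τ * w) '' K =
            place (c j) τ '' (ball 0 4 \ K) := by
          rw [image_sdiff (place_inj hτ), place_ball hτ]
          rfl
        simp only [Option.elim]
        rw [h1]
        exact hg.conn.image _ (place_cont _ _).continuousOn
    · rw [← hU]
      exact isOpen_ball.sdiff hclosed
  · intro p hp
    rw [mem_nextZ] at hp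
    have hnot : ∀ z : ℂ, ‖z‖ = ρ → z ∈ closedBall (0 : ℂ) 2 \ nextK ρ τ c K := by
      intro z hz
      refine ⟨by simp [hz]; linarith, ?_⟩
      rintro (h | h)
      · simp only [mem_closedBall, dist_zero_right] at h
        linarith
      · obtain ⟨j, hj⟩ := mem_iUnion.mp h
        have := (hnorm j z (hKj j z hj)).1
        linarith
    rcases hp with rfl | rfl | ⟨j, w, hw, rfl⟩
    · exact hnot _ (by rw [norm_real, Real.norm_of_nonneg hρ.le])
    · exact hnot _ (by rw [norm_neg, norm_real, Real.norm_of_nonneg hρ.le])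
    · have h1 := hg.pts w hw
      have h2 : ‖c j + τ * w - c j‖ ≤ 2 * τ := dist_place hτ h1.1
      have h3 := hnorm j _ h2
      refine ⟨by simp only [mem_closedBall, dist_zero_right]; linarith, ?_⟩
      rintro (h | h)
      · simp only [mem_closedBall, dist_zero_right] at h
        linarith
      · obtain ⟨i, hi⟩ := mem_iUnion.mp h
        by_cases hij : i = j
        · subst hij
          obtain ⟨w', hw', he⟩ := hi
          have := place_inj hτ he
          rw [this] at hw'
          exact h1.2 hw'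
        · exact hfar i j hij _ (hKj i _ hi) h2

theorem data_next {M : ℕ} {ρ δ τ : ℝ} {c : Fin M → ℂ} {K : Set ℂ} {Z : Finset ℂ}
    (hc : Ring δ c) (hρ : 0 < ρ) (hρ4 : ρ ≤ 1 / 4) (hg : Geo K Z) (hτ : 0 < τ)
    (hτδ : 16 * τ ≤ δ) (α : ℂ → ℂ) (hα : ∀ p ∈ Z, ‖α p‖ ≤ 1) :
    ∃ α' : ℂ → ℂ, NextData ρ τ c Z α α' ∧ ∀ p ∈ nextZ ρ τ c Z, ‖α' p‖ ≤ 1 := by
  classical
  have hδ1 := hc.le_one
  have hρc : (ρ : ℂ) ≠ -(ρ : ℂ) := by
    intro h
    have h1 : (ρ : ℂ) = ((-ρ : ℝ) : ℂ) := by
      push_cast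
      exact h
    have := Complex.ofReal_injective h1
    linarith
  have hnorm : ∀ j, ∀ w ∈ Z, 7 / 8 ≤ ‖c j + τ * w‖ := by
    intro j w hw
    have h := dist_place (c := c j) hτ (hg.pts w hw).1
    have h1 := hc.norm j
    have h2 : ‖c j‖ ≤ ‖c j + τ * w‖ + ‖place (c j) τ w - c j‖ := by
      calc ‖c j‖ = ‖(c j + τ * w) - (place (c j) τ w - c j)‖ := by
            unfold place
            ring_nf
        _ ≤ _ := norm_sub_le _ _
    linarith
  have hne : ∀ j, ∀ w ∈ Z, c j + τ * w ≠ ρ ∧ c j + τ * w ≠ -(ρ : ℂ) := by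
    intro j w hw
    have h := hnorm j w hw
    constructor <;> intro h' <;> rw [h'] at h
    · rw [norm_real, Real.norm_of_nonneg hρ.le] at h
      linarith
    · rw [norm_neg, norm_real, Real.norm_of_nonneg hρ.le] at h
      linarith
  refine ⟨fun z => if z = ρ then 1 else if z = -(ρ : ℂ) then -1 else
    if h : ∃ w ∈ Z, ∃ j, c j + τ * w = z then α h.choose else 0, ⟨?_, ?_, ?_⟩, ?_⟩
  · simp
  · simp [hρc.symm]
  · intro j w hw
    have hex : ∃ w' ∈ Z, ∃ j', c j' + τ * w' = c j + τ * w := ⟨w, hw, j, rfl⟩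
    simp only [(hne j w hw).1, (hne j w hw).2, if_false]
    rw [dif_pos hex]
    congr 1
    obtain ⟨h1, j', h2⟩ := hex.choose_spec
    have hjj : j' = j := by
      by_contra hjj
      have h3 := hc.sep j' j hjj
      have h4 := dist_place (c := c j') hτ (hg.pts _ h1).1
      have h5 := dist_place (c := c j) hτ (hg.pts w hw).1
      have h6 : ‖c j' - c j‖ ≤ ‖place (c j') τ hex.choose - c j'‖ + ‖place (c j) τ w - c j‖ := by
        have : c j' - c j = (place (c j) τ w - c j) - (place (c j') τ hex.choose - c j') := by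
          unfold place
          rw [h2]
          ring
        rw [this]
        refine (norm_sub_le _ _).trans ?_
        linarith
      linarith
    subst hjj
    exact place_inj hτ h2
  · intro p hp
    rw [mem_nextZ] at hp
    show ‖if p = ρ then (1 : ℂ) else if p = -(ρ : ℂ) then -1 else
      if h : ∃ w ∈ Z, ∃ j, c j + τ * w = p then α h.choose else 0‖ ≤ 1
    split_ifs with h1 h2 h3
    · simp
    · simp
    · exact hα _ h3.choose_spec.1
    · simp

theorem geoStep_of (hconn : ConnStmt) (hann : AnnulusStmt) : GeoStepStmt := by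
  intro M ρ δ c K Z hc hρ hρ4 hg
  have h1 : ∀ᶠ τ : ℝ in 𝓝[>] (0 : ℝ), τ < δ / 16 :=
    Filter.Eventually.filter_mono nhdsWithin_le_nhds (gt_mem_nhds (by linarith [hc.pos]))
  filter_upwards [h1, self_mem_nhdsWithin] with τ h2 h3
  exact ⟨geo_next hconn hann hc hρ hρ4 hg h3 (by linarith),
    fun α hα => data_next hc hρ hρ4 hg h3 (by linarith) α hα⟩

theorem geoStep : GeoStepStmt := geoStep_of conn annulus

end MP05e272
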