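import Mathlib

/-!
# Cauchy's theorem on a disc with finitely many round holes
-/

set_option autoImplicit false

open Complex MeasureTheory Metric Set Filter Topology
open scoped Real Interval

namespace Pool.Agent.Lib.MP_05e272_an

/-- Fubini for circle integrals. -/
theorem circle_swap {a c : ℂ} {R r : ℝ} (hR : 0 ≤ R) (hr : 0 ≤ r) {f : ℂ → ℂ → ℂ}
    (hf : ContinuousOn (Function.uncurry f) (sphere a R ×ˢ sphere c r)) :
    (∮ z in C(a, R), ∮ w in C(c, r), f z w) = ∮ w in C(c, r), ∮ z in C(a, R), f z w := by
  have hcont : Continuous (Function.uncurry fun θ φ : ℝ =>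
      deriv (circleMap a R) θ * (deriv (circleMap c r) φ * f (circleMap a R θ) (circleMap c r φ))) := by
    have h1 : Continuous fun p : ℝ × ℝ => f (circleMap a R p.1) (circleMap c r p.2) := by
      have h2 : Continuous fun p : ℝ × ℝ => (circleMap a R p.1, circleMap c r p.2) :=
        ((continuous_circleMap a R).comp continuous_fst).prodMk
          ((continuous_circleMap c r).comp continuous_snd)
      exact hf.comp_continuous h2 fun p =>
        ⟨circleMap_mem_sphere a hR p.1, circleMap_mem_sphere c hr p.2⟩
    have h3 : Continuous fun p : ℝ × ℝ => deriv (circleMap a R) p.1 := by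
      simp only [deriv_circleMap]
      exact ((continuous_circleMap 0 R).comp continuous_fst).mul continuous_const
    have h4 : Continuous fun p : ℝ × ℝ => deriv (circleMap c r) p.2 := by
      simp only [deriv_circleMap]
      exact ((continuous_circleMap 0 r).comp continuous_snd).mul continuous_const
    exact h3.mul (h4.mul h1)
  have hint : IntegrableOn (Function.uncurry fun θ φ : ℝ =>
      deriv (circleMap a R) θ * (deriv (circleMap c r) φ * f (circleMap a R θ) (circleMap c r φ)))
      (Ι (0 : ℝ) (2 * π) ×ˢ Ι (0 : ℝ) (2 * π)) :=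
    (hcont.continuousOn.integrableOn_compact (isCompact_uIcc.prod isCompact_uIcc)).mono_set
      (prod_mono uIoc_subset_uIcc uIoc_subset_uIcc)
  have hsw := intervalIntegral_intervalIntegral_swap hint
  simp only [circleIntegral, smul_eq_mul]
  calc (∫ θ in (0 : ℝ)..2 * π, deriv (circleMap a R) θ *
        ∫ φ in (0 : ℝ)..2 * π, deriv (circleMap c r) φ * f (circleMap a R θ) (circleMap c r φ))
      = ∫ θ in (0 : ℝ)..2 * π, ∫ φ in (0 : ℝ)..2 * π, deriv (circleMap a R) θ *
        (deriv (circleMap c r) φ * f (circleMap a R θ) (circleMap c r φ)) := by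
        simp only [intervalIntegral.integral_const_mul]
    _ = ∫ φ in (0 : ℝ)..2 * π, ∫ θ in (0 : ℝ)..2 * π, deriv (circleMap a R) θ *
        (deriv (circleMap c r) φ * f (circleMap a R θ) (circleMap c r φ)) := hsw
    _ = _ := by
        congr 1
        ext φ
        rw [← intervalIntegral.integral_const_mul]
        congr 1
        ext θ
        ring

theorem circleIntegral_inv_outside {c z : ℂ} {r : ℝ} (hr : 0 ≤ r) (hz : z ∉ closedBall c r) :
    (∮ ζ in C(c, r), (ζ - z)⁻¹) = 0 := by
  have hne : ∀ w ∈ closedBall c r, w - z ≠ 0 := fun w hw h => hz (by rwa [← sub_eq_zero.mp h])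
  apply circleIntegral_eq_zero_of_differentiable_on_off_countable hr countable_empty
  · intro w hw
    exact ((continuousAt_id.sub continuousAt_const).inv₀ (hne w hw)).continuousWithinAt
  · intro w hw
    exact (differentiableAt_id.sub (differentiableAt_const z)).inv
      (hne w (ball_subset_closedBall hw.1))

/-- Cauchy's formula on an annulus. -/
theorem annulus_formula {g : ℂ → ℂ} {U : Set ℂ} (hU : IsOpen U) (hg : DifferentiableOn ℂ g U)
    {c : ℂ} {r' r'' : ℝ} (h0 : 0 < r') (h1 : r' < r'') (hsub : closedBall c r'' \ ball c r' ⊆ U)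
    {z : ℂ} (hz1 : z ∉ closedBall c r') (hz2 : z ∈ ball c r'') :
    (∮ ζ in C(c, r''), (ζ - z)⁻¹ * g ζ) - (∮ ζ in C(c, r'), (ζ - z)⁻¹ * g ζ) =
      2 * π * I * g z := by
  have hzU : z ∈ U := hsub ⟨ball_subset_closedBall hz2, fun h => hz1 (ball_subset_closedBall h)⟩
  have hd : DifferentiableOn ℂ (dslope g z) U :=
    (differentiableOn_dslope (hU.mem_nhds hzU)).mpr hg
  have heq := circleIntegral_eq_of_differentiable_on_annulus_off_countable (c := c) h0 h1.le
    (f := dslope g z) countable_empty (hd.continuousOn.mono hsub)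
    (fun w hw => (hd w (hsub ⟨ball_subset_closedBall hw.1.1,
      fun h => hw.1.2 (ball_subset_closedBall h)⟩)).differentiableAt
      (hU.mem_nhds (hsub ⟨ball_subset_closedBall hw.1.1,
        fun h => hw.1.2 (ball_subset_closedBall h)⟩)))
  have hs1 : sphere c r'' ⊆ U := fun w hw => hsub ⟨sphere_subset_closedBall hw, fun h => by
    rw [mem_sphere] at hw; rw [mem_ball] at h; linarith⟩
  have hs2 : sphere c r' ⊆ U := fun w hw => hsub ⟨by
    rw [mem_sphere] at hw; rw [mem_closedBall]; linarith, fun h => by
    rw [mem_sphere] at hw; rw [mem_ball] at h; linarith⟩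
  have key : ∀ ρ : ℝ, 0 < ρ → sphere c ρ ⊆ U → z ∉ sphere c ρ →
      (∮ ζ in C(c, ρ), dslope g z ζ) = (∮ ζ in C(c, ρ), (ζ - z)⁻¹ * g ζ) -
        (∮ ζ in C(c, ρ), (ζ - z)⁻¹) * g z := by
    intro ρ hρ hsU hzs
    have hne : ∀ w ∈ sphere c ρ, w - z ≠ 0 := fun w hw h => hzs (by rwa [← sub_eq_zero.mp h])
    have hci : ContinuousOn (fun ζ => (ζ - z)⁻¹) (sphere c ρ) :=
      (continuousOn_id.sub continuousOn_const).inv₀ hne
    have e1 : (∮ ζ in C(c, ρ), dslope g z ζ) =
        ∮ ζ in C(c, ρ), ((ζ - z)⁻¹ * g ζ - (ζ - z)⁻¹ * g z) := by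
      apply circleIntegral.integral_congr hρ.le
      intro w hw
      have : w ≠ z := fun h => hne w hw (sub_eq_zero.mpr h)
      simp only [dslope_of_ne _ this, slope_def_field]
      rw [div_eq_inv_mul, mul_sub]
    rw [e1, circleIntegral.integral_sub]
    · congr 1
      have := circleIntegral.integral_smul_const (fun ζ => (ζ - z)⁻¹) (g z) c ρ
      simpa [smul_eq_mul] using this
    · exact (hci.mul (hg.continuousOn.mono hsU)).circleIntegrable hρ.le
    · exact (hci.mul continuousOn_const).circleIntegrable hρ.le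
  have hz1' : z ∉ sphere c r' := fun h => hz1 (sphere_subset_closedBall h)
  have hz2' : z ∉ sphere c r'' := fun h => by
    rw [mem_sphere] at h; rw [mem_ball] at hz2; linarith
  rw [key r'' (h0.trans h1) hs1 hz2', key r' h0 hs2 hz1',
    circleIntegral.integral_sub_inv_of_mem_ball hz2, circleIntegral_inv_outside h0.le hz1] at heq
  linear_combination heq

/-- The Cauchy transform of a continuous function on a circle. -/
noncomputable def cau (g : ℂ → ℂ) (c : ℂ) (r : ℝ) (z : ℂ) : ℂ :=
  (2 * π * I)⁻¹ * ∮ ζ in C(c, r), (ζ - z)⁻¹ * g ζ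

theorem cau_differentiableOn {g : ℂ → ℂ} {c : ℂ} {r : ℝ} (hr : 0 < r)
    (hg : ContinuousOn g (sphere c r)) : DifferentiableOn ℂ (cau g c r) (sphere c r)ᶜ := by
  intro z hz
  apply DifferentiableAt.differentiableWithinAt
  have hpos : 0 < infDist z (sphere c r) := by
    rw [← (isClosed_sphere).notMem_iff_infDist_pos (NormedSpace.sphere_nonempty.mpr hr.le)]
    exact hz
  set δ := infDist z (sphere c r) / 2 with hδ
  have hδ0 : 0 < δ := by positivity
  obtain ⟨M, hM⟩ := (isCompact_sphere c r).exists_bound_of_continuousOn hg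
  have hdist : ∀ w ∈ ball z δ, ∀ θ : ℝ, δ ≤ ‖circleMap c r θ - w‖ := by
    intro w hw θ
    have h1 : infDist z (sphere c r) ≤ dist z (circleMap c r θ) :=
      infDist_le_dist_of_mem (circleMap_mem_sphere c hr.le θ)
    rw [mem_ball] at hw
    have h2 := dist_triangle z w (circleMap c r θ)
    rw [dist_comm z w] at h2
    rw [← dist_eq_norm, dist_comm]
    linarith
  have hne : ∀ w ∈ ball z δ, ∀ θ : ℝ, circleMap c r θ - w ≠ 0 := by
    intro w hw θ h
    have := hdist w hw θ
    rw [h, norm_zero] at this
    linarith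
  have hcg : Continuous fun θ : ℝ => g (circleMap c r θ) :=
    hg.comp_continuous (continuous_circleMap c r) fun θ => circleMap_mem_sphere c hr.le θ
  have hcd : Continuous fun θ : ℝ => deriv (circleMap c r) θ := by
    simp only [deriv_circleMap]
    exact (continuous_circleMap 0 r).mul continuous_const
  have hFc : ∀ w ∈ ball z δ, Continuous fun θ : ℝ =>
      deriv (circleMap c r) θ * ((circleMap c r θ - w)⁻¹ * g (circleMap c r θ)) := fun w hw =>
    hcd.mul ((((continuous_circleMap c r).sub continuous_const).inv₀ (hne w hw)).mul hcg)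
  have hF'c : Continuous fun θ : ℝ =>
      deriv (circleMap c r) θ * (((circleMap c r θ - z) ^ 2)⁻¹ * g (circleMap c r θ)) :=
    hcd.mul (((((continuous_circleMap c r).sub continuous_const).pow 2).inv₀
      (fun θ => pow_ne_zero 2 (hne z (mem_ball_self hδ0) θ))).mul hcg)
  have hmain := intervalIntegral.hasDerivAt_integral_of_dominated_loc_of_deriv_le
    (μ := volume) (a := 0) (b := 2 * π) (𝕜 := ℂ) (x₀ := z) (s := ball z δ)
    (F := fun w θ => deriv (circleMap c r) θ * ((circleMap c r θ - w)⁻¹ * g (circleMap c r θ)))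
    (F' := fun w θ => deriv (circleMap c r) θ *
      (((circleMap c r θ - w) ^ 2)⁻¹ * g (circleMap c r θ)))
    (bound := fun _ => r * ((δ ^ 2)⁻¹ * M)) (ball_mem_nhds z hδ0)
    (by
      filter_upwards [ball_mem_nhds z hδ0] with w hw
      exact (hFc w hw).aestronglyMeasurable)
    ((hFc z (mem_ball_self hδ0)).intervalIntegrable _ _)
    hF'c.aestronglyMeasurable
    (by
      refine Eventually.of_forall fun θ _ w hw => ?_
      rw [norm_mul, norm_mul, norm_inv, norm_pow]
      have e1 : ‖deriv (circleMap c r) θ‖ = r := by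
        simp [deriv_circleMap, abs_of_pos hr]
      rw [e1]
      have h3 := hdist w hw θ
      have h4 : (‖circleMap c r θ - w‖ ^ 2)⁻¹ ≤ (δ ^ 2)⁻¹ := by
        apply inv_anti₀ (by positivity)
        exact pow_le_pow_left₀ hδ0.le h3 2
      have h5 := hM _ (circleMap_mem_sphere c hr.le θ)
      gcongr)
    (by simp)
    (by
      refine Eventually.of_forall fun θ _ w hw => ?_
      have h6 : HasDerivAt (fun w : ℂ => (circleMap c r θ - w)⁻¹)
          (((circleMap c r θ - w) ^ 2)⁻¹) w := by
        have h9 := ((hasDerivAt_id w).const_sub (circleMap c r θ)).inv (hne w hw θ)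
        simp only [neg_neg, one_div, id] at h9
        exact h9
      exact (h6.mul_const _).const_mul _)
  have h7 := hmain.2.differentiableAt
  have h8 : cau g c r = fun w => (2 * π * I)⁻¹ * ∫ θ in (0 : ℝ)..2 * π,
      deriv (circleMap c r) θ * ((circleMap c r θ - w)⁻¹ * g (circleMap c r θ)) := by
    ext w
    simp [cau, circleIntegral]
  rw [h8]
  exact h7.const_mul _

/-- The circle integral of the Cauchy transform over a circle around. -/
theorem integral_cau_around {g : ℂ → ℂ} {c a : ℂ} {r R : ℝ} (hr : 0 < r)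
    (hg : ContinuousOn g (sphere c r)) (hin : closedBall c r ⊆ ball a R) :
    (∮ z in C(a, R), cau g c r z) = -∮ ζ in C(c, r), g ζ := by
  have hR : 0 < R := dist_nonneg.trans_lt (mem_ball.mp (hin (mem_closedBall_self hr.le)))
  have hne : ∀ z ∈ sphere a R, ∀ ζ ∈ sphere c r, ζ - z ≠ 0 := by
    intro z hz ζ hζ h
    have h1 := hin (sphere_subset_closedBall hζ)
    rw [sub_eq_zero.mp h, mem_ball] at h1
    rw [mem_sphere] at hz
    linarith
  have hcont : ContinuousOn (Function.uncurry fun z ζ => (ζ - z)⁻¹ * g ζ)
      (sphere a R ×ˢ sphere c r) := by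
    refine ContinuousOn.mul (ContinuousOn.inv₀ (continuousOn_snd.sub continuousOn_fst) ?_)
      (hg.comp continuousOn_snd fun p hp => hp.2)
    rintro ⟨z, ζ⟩ ⟨h1, h2⟩
    exact hne z h1 ζ h2
  simp only [cau, circleIntegral.integral_const_mul]
  rw [circle_swap hR.le hr.le hcont]
  have h1 : (∮ w in C(c, r), ∮ z in C(a, R), (w - z)⁻¹ * g w) =
      ∮ w in C(c, r), (-(2 * π * I)) * g w := by
    apply circleIntegral.integral_congr hr.le
    intro w hw
    have h2 : (∮ z in C(a, R), (w - z)⁻¹ * g w) = ∮ z in C(a, R), (-g w) * (z - w)⁻¹ := by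
      apply circleIntegral.integral_congr hR.le
      intro z _
      have : (w - z)⁻¹ = -(z - w)⁻¹ := by rw [← inv_neg, neg_sub]
      simp only [this]
      ring
    simp only [h2, circleIntegral.integral_const_mul,
      circleIntegral.integral_sub_inv_of_mem_ball (hin (sphere_subset_closedBall hw))]
    ring
  rw [h1, circleIntegral.integral_const_mul]
  have h3 : (2 * π * I : ℂ) ≠ 0 := two_pi_I_ne_zero
  field_simp

/-- The circle integral of the Cauchy transform over a circle beside. -/
theorem integral_cau_beside {g : ℂ → ℂ} {c a : ℂ} {r R : ℝ} (hr : 0 < r) (hR : 0 < R)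
    (hg : ContinuousOn g (sphere c r)) (hdis : Disjoint (closedBall c r) (closedBall a R)) :
    (∮ z in C(a, R), cau g c r z) = 0 := by
  have hd := cau_differentiableOn hr hg
  have hsub : closedBall a R ⊆ (sphere c r)ᶜ := fun z hz h =>
    Set.disjoint_left.mp hdis (sphere_subset_closedBall h) hz
  apply circleIntegral_eq_zero_of_differentiable_on_off_countable hR.le countable_empty
  · exact hd.continuousOn.mono hsub
  · intro z hz
    exact (hd z (hsub (ball_subset_closedBall hz.1))).differentiableAt
      (isClosed_sphere.isOpen_compl.mem_nhds (hsub (ball_subset_closedBall hz.1)))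

/-- Splitting a holomorphic function near a round hole: `g = g₁ - cau g c r'` where `g₁` extends
into the hole. -/
theorem exists_split {g : ℂ → ℂ} {U : Set ℂ} (hU : IsOpen U) (hg : DifferentiableOn ℂ g U)
    {c : ℂ} {r : ℝ} (hr : 0 < r) (hs : sphere c r ⊆ U) :
    ∃ r' r'' : ℝ, 0 < r' ∧ r' < r ∧ r < r'' ∧ closedBall c r'' \ ball c r' ⊆ U ∧
      ∃ g₁ : ℂ → ℂ, DifferentiableOn ℂ g₁ ((U \ closedBall c r') ∪ ball c r'') ∧
        ∀ z ∈ U \ closedBall c r', g z = g₁ z - cau g c r' z := by
  obtain ⟨δ, hδ, hsub⟩ := (isCompact_sphere c r).exists_cthickening_subset_open hU hs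
  set ε := min δ (r / 2) with hε
  have hε0 : 0 < ε := lt_min hδ (by positivity)
  have hεδ : ε ≤ δ := min_le_left _ _
  have hεr : ε ≤ r / 2 := min_le_right _ _
  have hann : closedBall c (r + ε) \ ball c (r - ε) ⊆ U := by
    intro z hz
    have hz1 : dist z c ≤ r + ε := mem_closedBall.mp hz.1
    have hz2 : r - ε ≤ dist z c := not_lt.mp fun h => hz.2 (mem_ball.mpr h)
    have hpos : 0 < dist z c := by linarith
    rw [dist_eq_norm] at hz1 hz2 hpos
    apply hsub
    have hy : c + ((r / ‖z - c‖ : ℝ) : ℂ) * (z - c) ∈ sphere c r := by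
      rw [mem_sphere, dist_eq_norm, add_sub_cancel_left, norm_mul, Complex.norm_real,
        Real.norm_of_nonneg (by positivity)]
      field_simp
    refine mem_cthickening_of_dist_le z _ δ _ hy ?_
    have e1 : z - (c + ((r / ‖z - c‖ : ℝ) : ℂ) * (z - c)) =
        (((‖z - c‖ - r) / ‖z - c‖ : ℝ) : ℂ) * (z - c) := by
      have : (((‖z - c‖ - r) / ‖z - c‖ : ℝ) : ℂ) = 1 - ((r / ‖z - c‖ : ℝ) : ℂ) := by
        rw [sub_div, div_self hpos.ne']
        push_cast
        ring
      rw [this]
      ring
    rw [dist_eq_norm, e1, norm_mul, Complex.norm_real, Real.norm_eq_abs, abs_div,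
      abs_of_pos hpos, div_mul_cancel₀ _ hpos.ne']
    exact (abs_le.mpr ⟨by linarith, by linarith⟩).trans hεδ
  have h0' : 0 < r - ε := by linarith
  have hs' : sphere c (r - ε) ⊆ U := fun w hw => hann ⟨by
    rw [mem_sphere] at hw; rw [mem_closedBall]; linarith, fun h => by
    rw [mem_sphere] at hw; rw [mem_ball] at h; linarith⟩
  have hs'' : sphere c (r + ε) ⊆ U := fun w hw => hann ⟨by
    rw [mem_sphere] at hw; rw [mem_closedBall]; linarith, fun h => by
    rw [mem_sphere] at hw; rw [mem_ball] at h; linarith⟩
  have hd' := cau_differentiableOn h0' (hg.continuousOn.mono hs')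
  have hd'' := cau_differentiableOn (by linarith : (0 : ℝ) < r + ε) (hg.continuousOn.mono hs'')
  classical
  refine ⟨r - ε, r + ε, h0', by linarith, by linarith, hann,
    fun z => if z ∈ ball c (r + ε) then cau g c (r + ε) z else g z + cau g c (r - ε) z, ?_, ?_⟩
  · -- on the overlap both expressions agree
    have hagree : ∀ z ∈ U \ closedBall c (r - ε),
        (if z ∈ ball c (r + ε) then cau g c (r + ε) z else g z + cau g c (r - ε) z) =
          g z + cau g c (r - ε) z := by
      intro z hz
      split_ifs with h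
      · have h2 := annulus_formula hU hg h0' (by linarith) hann hz.2 h
        have h3 : (2 * π * I : ℂ) ≠ 0 := two_pi_I_ne_zero
        have h4 : cau g c (r + ε) z - cau g c (r - ε) z = g z := by
          rw [cau, cau, ← mul_sub, h2, ← mul_assoc, inv_mul_cancel₀ h3, one_mul]
        linear_combination h4
      · rfl
    have hopen : IsOpen (U \ closedBall c (r - ε)) := hU.sdiff isClosed_closedBall
    intro z hz
    apply DifferentiableAt.differentiableWithinAt
    rcases hz with hz | hz
    · have h1 : DifferentiableAt ℂ (fun z => g z + cau g c (r - ε) z) z := by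
        refine ((hg z hz.1).differentiableAt (hU.mem_nhds hz.1)).add ?_
        refine (hd' z fun h => hz.2 (sphere_subset_closedBall h)).differentiableAt ?_
        exact isClosed_sphere.isOpen_compl.mem_nhds fun h => hz.2 (sphere_subset_closedBall h)
      refine h1.congr_of_eventuallyEq ?_
      filter_upwards [hopen.mem_nhds hz] with w hw
      exact hagree w hw
    · have hzs : z ∉ sphere c (r + ε) := fun h => by
        rw [mem_sphere] at h; rw [mem_ball] at hz; linarith
      have h1 : DifferentiableAt ℂ (cau g c (r + ε)) z :=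
        (hd'' z hzs).differentiableAt (isClosed_sphere.isOpen_compl.mem_nhds hzs)
      refine h1.congr_of_eventuallyEq ?_
      filter_upwards [isOpen_ball.mem_nhds hz] with w hw
      exact if_pos hw
  · intro z hz
    simp only
    split_ifs with h
    · have h2 := annulus_formula hU hg h0' (by linarith) hann hz.2 h
      have h3 : (2 * π * I : ℂ) ≠ 0 := two_pi_I_ne_zero
      have h4 : cau g c (r + ε) z - cau g c (r - ε) z = g z := by
        rw [cau, cau, ← mul_sub, h2, ← mul_assoc, inv_mul_cancel₀ h3, one_mul]
      linear_combination -h4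
    · ring

/-- **Cauchy's theorem on a disc with finitely many round holes**, `Finset` form. -/
theorem multiHole_finset {ι : Type*} (s : Finset ι) (c : ι → ℂ) (r : ι → ℝ) (a : ℂ) (R : ℝ)
    (hR : 0 < R) (hr : ∀ i ∈ s, 0 < r i) (hin : ∀ i ∈ s, closedBall (c i) (r i) ⊆ ball a R)
    (hdis : ∀ i ∈ s, ∀ j ∈ s, i ≠ j → Disjoint (closedBall (c i) (r i)) (closedBall (c j) (r j)))
    (U : Set ℂ) (hU : IsOpen U) (hsub : closedBall a R \ ⋃ i ∈ s, ball (c i) (r i) ⊆ U)
    (g : ℂ → ℂ) (hg : DifferentiableOn ℂ g U) :
    (∮ z in C(a, R), g z) = ∑ i ∈ s, ∮ z in C(c i, r i), g z := by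
  classical
  induction s using Finset.induction_on generalizing U g with
  | empty =>
    simp only [Finset.notMem_empty, iUnion_of_empty, iUnion_empty, sdiff_empty] at hsub
    rw [Finset.sum_empty]
    apply circleIntegral_eq_zero_of_differentiable_on_off_countable hR.le countable_empty
    · exact hg.continuousOn.mono hsub
    · intro z hz
      exact (hg z (hsub (ball_subset_closedBall hz.1))).differentiableAt
        (hU.mem_nhds (hsub (ball_subset_closedBall hz.1)))
  | insert i t hit ih =>
    have hri : 0 < r i := hr i (Finset.mem_insert_self i t)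
    have hini := hin i (Finset.mem_insert_self i t)
    have hdisi : ∀ j ∈ t, Disjoint (closedBall (c i) (r i)) (closedBall (c j) (r j)) :=
      fun j hj => hdis i (Finset.mem_insert_self i t) j (Finset.mem_insert_of_mem hj)
        (fun h => hit (h ▸ hj))
    have hsphere : ∀ k ∈ insert i t, sphere (c k) (r k) ⊆ U := by
      intro k hk z hz
      apply hsub
      refine ⟨ball_subset_closedBall (hin k hk (sphere_subset_closedBall hz)), ?_⟩
      simp only [mem_iUnion, not_exists]
      intro j hj hzj
      by_cases hjk : j = k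
      · subst hjk
        rw [mem_sphere] at hz; rw [mem_ball] at hzj; linarith
      · exact Set.disjoint_left.mp (hdis j hj k hk hjk) (ball_subset_closedBall hzj)
          (sphere_subset_closedBall hz)
    have hout : sphere a R ⊆ U := by
      intro z hz
      apply hsub
      refine ⟨sphere_subset_closedBall hz, ?_⟩
      simp only [mem_iUnion, not_exists]
      intro j hj hzj
      have := hin j hj (ball_subset_closedBall hzj)
      rw [mem_sphere] at hz; rw [mem_ball] at this; linarith
    obtain ⟨r', r'', h0, h1, h2, hann, g₁, hg₁, hsplit⟩ :=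
      exists_split hU hg hri (hsphere i (Finset.mem_insert_self i t))
    have hgs : ContinuousOn g (sphere (c i) r') := hg.continuousOn.mono fun w hw => hann ⟨by
      rw [mem_sphere] at hw; rw [mem_closedBall]; linarith, fun h => by
      rw [mem_sphere] at hw; rw [mem_ball] at h; linarith⟩
    set U₁ := (U \ closedBall (c i) r') ∪ ball (c i) r'' with hU₁
    have hU₁o : IsOpen U₁ := (hU.sdiff isClosed_closedBall).union isOpen_ball
    have hsub₁ : closedBall a R \ ⋃ j ∈ t, ball (c j) (r j) ⊆ U₁ := by
      intro z hz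
      by_cases hzi : z ∈ ball (c i) (r i)
      · right
        rw [mem_ball] at hzi ⊢
        linarith
      · left
        refine ⟨hsub ⟨hz.1, ?_⟩, fun h => hzi ?_⟩
        · have h3 := hz.2
          simp only [mem_iUnion, not_exists, Finset.mem_insert] at h3 ⊢
          rintro j (rfl | hj)
          · exact hzi
          · exact h3 j hj
        · rw [mem_ball]; rw [mem_closedBall] at h; linarith
    have ih' := ih (fun j hj => hr j (Finset.mem_insert_of_mem hj))
      (fun j hj => hin j (Finset.mem_insert_of_mem hj))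
      (fun j hj k hk => hdis j (Finset.mem_insert_of_mem hj) k (Finset.mem_insert_of_mem hk))
      U₁ hU₁o hsub₁ g₁ hg₁
    have hd := cau_differentiableOn h0 hgs
    have hin' : closedBall (c i) r' ⊆ ball a R := (closedBall_subset_closedBall h1.le).trans hini
    -- splitting on any circle in `U` off the small disc
    have hcirc : ∀ (b : ℂ) (ρ : ℝ), 0 < ρ → sphere b ρ ⊆ U →
        Disjoint (sphere b ρ) (closedBall (c i) r') →
        (∮ z in C(b, ρ), g z) = (∮ z in C(b, ρ), g₁ z) - ∮ z in C(b, ρ), cau g (c i) r' z := by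
      intro b ρ hρ hb hb'
      have hb1 : sphere b ρ ⊆ U₁ := fun z hz => Or.inl ⟨hb hz, Set.disjoint_left.mp hb' hz⟩
      have hb2 : sphere b ρ ⊆ (sphere (c i) r')ᶜ := fun z hz h =>
        Set.disjoint_left.mp hb' hz (sphere_subset_closedBall h)
      rw [← circleIntegral.integral_sub ((hg₁.continuousOn.mono hb1).circleIntegrable hρ.le)
        ((hd.continuousOn.mono hb2).circleIntegrable hρ.le)]
      apply circleIntegral.integral_congr hρ.le
      intro z hz
      exact hsplit z ⟨hb hz, Set.disjoint_left.mp hb' hz⟩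
    have e1 := hcirc a R hR hout (Set.disjoint_left.mpr fun z hz h => by
      have := hin' h
      rw [mem_sphere] at hz; rw [mem_ball] at this; linarith)
    have e2 : ∀ j ∈ t, (∮ z in C(c j, r j), g z) = ∮ z in C(c j, r j), g₁ z := by
      intro j hj
      have h3 : Disjoint (closedBall (c i) r') (closedBall (c j) (r j)) :=
        (hdisi j hj).mono_left (closedBall_subset_closedBall h1.le)
      rw [hcirc (c j) (r j) (hr j (Finset.mem_insert_of_mem hj))
        (hsphere j (Finset.mem_insert_of_mem hj)) (h3.symm.mono_left sphere_subset_closedBall),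
        integral_cau_beside h0 (hr j (Finset.mem_insert_of_mem hj)) hgs h3, sub_zero]
    have e3 : (∮ z in C(c i, r i), g z) = -∮ z in C(c i, r i), cau g (c i) r' z := by
      rw [hcirc (c i) (r i) hri (hsphere i (Finset.mem_insert_self i t))
        (Set.disjoint_left.mpr fun z hz h => by
          rw [mem_sphere] at hz; rw [mem_closedBall] at h; linarith)]
      have : (∮ z in C(c i, r i), g₁ z) = 0 := by
        apply circleIntegral_eq_zero_of_differentiable_on_off_countable hri.le countable_empty
        · exact hg₁.continuousOn.mono fun z hz => Or.inr (by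
            rw [mem_closedBall] at hz; rw [mem_ball]; linarith)
        · intro z hz
          have hz' : z ∈ U₁ := Or.inr (by
            have := hz.1
            rw [mem_ball] at this ⊢; linarith)
          exact (hg₁ z hz').differentiableAt (hU₁o.mem_nhds hz')
      rw [this, zero_sub]
    rw [Finset.sum_insert hit, e1, ih', e3, integral_cau_around h0 hgs hin',
      integral_cau_around h0 hgs
        ((closedBall_subset_ball h1) : closedBall (c i) r' ⊆ ball (c i) (r i)),
      Finset.sum_congr rfl e2]
    ring

/-- **Cauchy's theorem on a disc with finitely many round holes.** -/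
theorem multiHole {ι : Type*} [Fintype ι] (c : ι → ℂ) (r : ι → ℝ) (a : ℂ) (R : ℝ) (hR : 0 < R)
    (hr : ∀ i, 0 < r i) (hin : ∀ i, closedBall (c i) (r i) ⊆ ball a R)
    (hdis : ∀ i j, i ≠ j → Disjoint (closedBall (c i) (r i)) (closedBall (c j) (r j)))
    (U : Set ℂ) (hU : IsOpen U) (hsub : closedBall a R \ ⋃ i, ball (c i) (r i) ⊆ U)
    (g : ℂ → ℂ) (hg : DifferentiableOn ℂ g U) :
    (∮ z in C(a, R), g z) = ∑ i, ∮ z in C(c i, r i), g z :=
  multiHole_finset Finset.univ c r a R hR (fun i _ => hr i) (fun i _ => hin i)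
    (fun i _ j _ h => hdis i j h) U hU (by simpa using hsub) g hg

end Pool.Agent.Lib.MP_05e272_an
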