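import Pool.Agent.Lib.MP_05e272_an.Stmts
import Pool.Agent.Lib.MP_05e272_an.MultiHole

/-! MP_05e272_an: the drift of the mean value from one generation to the next. -/

set_option autoImplicit false

open Metric Set Complex Filter Topology
open scoped Real

noncomputable section

namespace MP05e272

/-- normalised circle integral -/
def J (f : ℂ → ℂ) (c : ℂ) (r : ℝ) : ℂ := (2 * π * I : ℂ)⁻¹ • ∮ ζ in C(c, r), f ζ

theorem J_norm_le {f : ℂ → ℂ} {c : ℂ} {r B : ℝ} (hr : 0 ≤ r) (h : ∀ z ∈ sphere c r, ‖f z‖ ≤ B) :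
    ‖J f c r‖ ≤ r * B :=
  circleIntegral.norm_two_pi_i_inv_smul_integral_le_of_norm_le_const hr h

theorem J_congr {f g : ℂ → ℂ} {c : ℂ} {r : ℝ} (hr : 0 ≤ r) (h : ∀ z ∈ sphere c r, f z = g z) :
    J f c r = J g c r := by
  rw [J, J, circleIntegral.integral_congr hr h]

theorem J_add {f g : ℂ → ℂ} {c : ℂ} {r : ℝ} (hr : 0 ≤ r) (hf : ContinuousOn f (sphere c r))
    (hg : ContinuousOn g (sphere c r)) : J (fun z => f z + g z) c r = J f c r + J g c r := by
  rw [J, J, J, ← smul_add, circleIntegral.integral_add (hf.circleIntegrable hr)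
    (hg.circleIntegrable hr)]

theorem J_sub {f g : ℂ → ℂ} {c : ℂ} {r : ℝ} (hr : 0 ≤ r) (hf : ContinuousOn f (sphere c r))
    (hg : ContinuousOn g (sphere c r)) : J (fun z => f z - g z) c r = J f c r - J g c r := by
  rw [J, J, J, ← smul_sub, circleIntegral.integral_sub (hf.circleIntegrable hr)
    (hg.circleIntegrable hr)]

theorem J_const_mul (a : ℂ) (f : ℂ → ℂ) (c : ℂ) (r : ℝ) :
    J (fun z => a * f z) c r = a * J f c r := by
  simp only [J, circleIntegral.integral_const_mul, smul_eq_mul]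
  ring

theorem J_inv_inside {c w : ℂ} {r : ℝ} (hw : w ∈ ball c r) : J (fun z => (z - w)⁻¹) c r = 1 := by
  rw [J, circleIntegral.integral_sub_inv_of_mem_ball hw, smul_eq_mul,
    inv_mul_cancel₀ two_pi_I_ne_zero]

theorem J_inv_outside {c w : ℂ} {r : ℝ} (hr : 0 ≤ r) (hw : w ∉ closedBall c r) :
    J (fun z => (z - w)⁻¹) c r = 0 := by
  rw [J, Pool.Agent.Lib.MP_05e272_an.circleIntegral_inv_outside hr hw, smul_zero]

theorem V_eq_J (G : ℂ → ℂ) (c : ℂ) (r : ℝ) : V G c r = J (fun z => G z / (z - c)) c r := rfl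

/-- scaling of the mean value -/
theorem V_scale (G : ℂ → ℂ) (c : ℂ) {τ r : ℝ} (hτ : 0 < τ) (hr : 0 < r) :
    V G c (r * τ) = V (fun w => G (c + τ * w)) 0 r := by
  have hτ' : (τ : ℂ) ≠ 0 := by exact_mod_cast hτ.ne'
  simp only [V, circleIntegral]
  congr 1
  apply intervalIntegral.integral_congr
  intro θ _
  have h0 : circleMap 0 r θ ≠ 0 := circleMap_ne_center hr.ne'
  have e1 : circleMap c (r * τ) θ = c + τ * circleMap 0 r θ := by
    simp [circleMap]; ring
  have e2 : circleMap 0 (r * τ) θ = τ * circleMap 0 r θ := by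
    simp [circleMap]; ring
  simp only [deriv_circleMap, e1, e2, add_sub_cancel_left, sub_zero, smul_eq_mul]
  field_simp


/-- the mean value does not depend on the radius, on an annulus of holomorphy -/
theorem V_radius {G : ℂ → ℂ} {r R s S : ℝ} (hr : 0 < r) (hrR : r ≤ R) (hs : s < r) (hS : R < S)
    (hG : DifferentiableOn ℂ G (ball 0 S \ closedBall 0 s)) : V G 0 r = V G 0 R := by
  have hopen : IsOpen (ball (0 : ℂ) S \ closedBall 0 s) := isOpen_ball.sdiff isClosed_closedBall
  have hd : ∀ z : ℂ, z ∈ closedBall (0 : ℂ) R \ ball 0 r →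
      DifferentiableAt ℂ (fun z => G z / (z - 0)) z := by
    intro z hz
    have h1 : ‖z‖ ≤ R := by simpa using hz.1
    have h2 : r ≤ ‖z‖ := by simpa using hz.2
    have hz0 : z - 0 ≠ 0 := by
      rw [sub_zero]
      intro h
      rw [h, norm_zero] at h2
      linarith
    have hzU : z ∈ ball (0 : ℂ) S \ closedBall 0 s := by
      constructor
      · simpa using h1.trans_lt hS
      · simp only [mem_closedBall, dist_zero_right, not_le]
        linarith
    exact ((hG z hzU).differentiableAt (hopen.mem_nhds hzU)).div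
      (differentiableAt_id.sub (differentiableAt_const 0)) hz0
  have := circleIntegral_eq_of_differentiable_on_annulus_off_countable (c := (0 : ℂ)) hr hrR
    (f := fun z => G z / (z - 0)) countable_empty
    (fun z hz => (hd z hz).continuousAt.continuousWithinAt)
    (fun z hz => hd z ⟨ball_subset_closedBall hz.1.1, fun h => hz.1.2 (ball_subset_closedBall h)⟩)
  rw [V, V, this]

variable {M : ℕ}

/-- centres of the circles -/
def cc (c : Fin M → ℂ) : Option (Fin M) → ℂ
  | none => 0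
  | some j => c j

/-- radii of the circles -/
def rr (M : ℕ) (ρ τ : ℝ) : Option (Fin M) → ℝ
  | none => ρ / 2
  | some _ => 4 * τ

/-- the domain of holomorphy used below -/
def UU (ρ τ R : ℝ) (c : Fin M → ℂ) : Set ℂ :=
  ball 0 R \ (closedBall 0 (ρ / 4) ∪ ⋃ j, closedBall (c j) (2 * τ))

theorem isOpen_UU (ρ τ R : ℝ) (c : Fin M → ℂ) : IsOpen (UU ρ τ R c) :=
  isOpen_ball.sdiff (isClosed_closedBall.union
    (isClosed_iUnion_of_finite fun _ => isClosed_closedBall))

theorem mem_UU {ρ τ R : ℝ} {c : Fin M → ℂ} {z : ℂ} :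
    z ∈ UU ρ τ R c ↔ ‖z‖ < R ∧ ρ / 4 < ‖z‖ ∧ ∀ j, 2 * τ < ‖z - c j‖ := by
  simp [UU, dist_eq_norm]

/-- the Cauchy theorem for the configuration -/
theorem cauchy_config {ρ τ δ R R' : ℝ} {c : Fin M → ℂ} (hring : Ring δ c) (hρ : 0 < ρ)
    (hρ4 : ρ ≤ 1 / 4) (hτ : 0 < τ) (hτδ : 16 * τ ≤ δ) (hR' : 2 ≤ R') (hR : R' < R) {f : ℂ → ℂ}
    (hf : DifferentiableOn ℂ f (UU ρ τ R c)) :
    J f 0 R' = J f 0 (ρ / 2) + ∑ j, J f (c j) (4 * τ) := by
  have hδ1 := hring.le_one
  have hr : ∀ i, 0 < rr M ρ τ i := by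
    rintro (_ | j)
    · simp only [rr]; positivity
    · simp only [rr]; positivity
  have hin : ∀ i, closedBall (cc c i) (rr M ρ τ i) ⊆ ball 0 R' := by
    rintro (_ | j) z hz
    · simp only [cc, rr, mem_closedBall, dist_zero_right] at hz
      simp only [mem_ball, dist_zero_right]
      linarith
    · simp only [cc, rr, mem_closedBall, dist_eq_norm] at hz
      simp only [mem_ball, dist_zero_right]
      have h1 : ‖z‖ ≤ ‖z - c j‖ + ‖c j‖ := by simpa using norm_add_le (z - c j) (c j)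
      rw [hring.norm j] at h1
      linarith
  have hdis : ∀ i j, i ≠ j → Disjoint (closedBall (cc c i) (rr M ρ τ i))
      (closedBall (cc c j) (rr M ρ τ j)) := by
    have hns : ∀ j, Disjoint (closedBall (0 : ℂ) (ρ / 2)) (closedBall (c j) (4 * τ)) := by
      intro j
      refine closedBall_disjoint_closedBall ?_
      rw [dist_zero_left, hring.norm j]
      linarith
    rintro (_ | i) (_ | j) hij
    · exact absurd rfl hij
    · exact hns j
    · exact (hns i).symm
    · refine closedBall_disjoint_closedBall ?_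
      simp only [cc, rr, dist_eq_norm]
      have := hring.sep i j fun h => hij (by rw [h])
      linarith
  have hsub : closedBall 0 R' \ ⋃ i, ball (cc c i) (rr M ρ τ i) ⊆ UU ρ τ R c := by
    intro z hz
    rw [mem_UU]
    have h1 : ‖z‖ ≤ R' := by simpa using hz.1
    have h2 : ∀ i, rr M ρ τ i ≤ ‖z - cc c i‖ := by
      have := hz.2
      simpa [dist_eq_norm] using this
    have h3 := h2 none
    simp only [cc, rr, sub_zero] at h3
    refine ⟨by linarith, by linarith, fun j => ?_⟩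
    have h4 := h2 (some j)
    simp only [cc, rr] at h4
    linarith
  have := Pool.Agent.Lib.MP_05e272_an.multiHole (cc c) (rr M ρ τ) 0 R' (by linarith) hr hin hdis
    (UU ρ τ R c) (isOpen_UU ρ τ R c) hsub f hf
  simp only [J]
  rw [this, Fintype.sum_option, smul_add, Finset.smul_sum]
  rfl

/-- the kernel with poles at the centres -/
def hh (c : Fin M → ℂ) (w : Fin M → ℝ) (ζ : ℂ) : ℂ := ∑ j, (w j : ℂ) / (ζ - c j)

/-- the kernel with poles at `± ρ` -/
def kk (lam ρ : ℝ) (ζ : ℂ) : ℂ := (lam : ℂ) * ρ / (ζ ^ 2 - (ρ : ℂ) ^ 2)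

theorem kk_eq {lam ρ : ℝ} {ζ : ℂ} (h1 : ζ - ρ ≠ 0) (h2 : ζ + ρ ≠ 0) :
    kk lam ρ ζ = (lam / 2 : ℂ) * ((ζ - ρ)⁻¹ - (ζ + ρ)⁻¹) := by
  have h3 : ζ ^ 2 - (ρ : ℂ) ^ 2 ≠ 0 := by
    have : ζ ^ 2 - (ρ : ℂ) ^ 2 = (ζ - ρ) * (ζ + ρ) := by ring
    rw [this]
    exact mul_ne_zero h1 h2
  rw [kk, div_eq_iff h3]
  field_simp
  ring

theorem hh_outer {c : Fin M → ℂ} {w : Fin M → ℝ} (hc : ∀ j, ‖c j‖ = 1) (hw0 : ∀ j, 0 ≤ w j)
    (hw1 : ∑ j, w j = 1) {r : ℝ} (hr : 1 < r) {ζ : ℂ} (hζ : ‖ζ‖ = r) :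
    ‖hh c w ζ - ζ⁻¹‖ ≤ 1 / (r * (r - 1)) := by
  have hζ0 : ζ ≠ 0 := by
    intro h
    rw [h, norm_zero] at hζ
    linarith
  have hne : ∀ j, ζ - c j ≠ 0 := by
    intro j h
    have : ‖ζ‖ = ‖c j‖ := by rw [sub_eq_zero.mp h]
    rw [hζ, hc j] at this
    linarith
  have e1 : hh c w ζ - ζ⁻¹ = ∑ j, (w j : ℂ) * (c j / (ζ * (ζ - c j))) := by
    have e2 : ζ⁻¹ = ∑ j, (w j : ℂ) * ζ⁻¹ := by
      rw [← Finset.sum_mul, ← ofReal_sum, hw1, ofReal_one, one_mul]
    rw [e2, hh, ← Finset.sum_sub_distrib]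
    apply Finset.sum_congr rfl
    intro j _
    have := hne j
    field_simp
    ring
  rw [e1]
  calc ‖∑ j, (w j : ℂ) * (c j / (ζ * (ζ - c j)))‖
      ≤ ∑ j, ‖(w j : ℂ) * (c j / (ζ * (ζ - c j)))‖ := norm_sum_le _ _
    _ ≤ ∑ j, w j * (1 / (r * (r - 1))) := by
        apply Finset.sum_le_sum
        intro j _
        rw [norm_mul, norm_div, norm_mul, hc j, hζ, Complex.norm_real,
          Real.norm_of_nonneg (hw0 j)]
        apply mul_le_mul_of_nonneg_left _ (hw0 j)
        have h1 : r - 1 ≤ ‖ζ - c j‖ := by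
          have := norm_sub_norm_le ζ (c j)
          rw [hζ, hc j] at this
          exact this
        apply one_div_le_one_div_of_le
        · exact mul_pos (by linarith) (by linarith)
        · exact mul_le_mul_of_nonneg_left h1 (by linarith)
    _ = 1 / (r * (r - 1)) := by rw [← Finset.sum_mul, hw1, one_mul]

theorem hh_child {δ τ : ℝ} {c : Fin M → ℂ} {w : Fin M → ℝ} (hring : Ring δ c)
    (hw0 : ∀ j, 0 ≤ w j) (hw1 : ∑ j, w j = 1) (hτδ : 16 * τ ≤ δ) (j : Fin M) {ζ : ℂ}
    (hζ : ‖ζ - c j‖ = 4 * τ) : ‖hh c w ζ - (w j : ℂ) / (ζ - c j)‖ ≤ 2 / δ := by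
  have hδ := hring.pos
  have e1 : hh c w ζ - (w j : ℂ) / (ζ - c j) = ∑ i ∈ Finset.univ.erase j, (w i : ℂ) / (ζ - c i) := by
    rw [hh, ← Finset.add_sum_erase Finset.univ _ (Finset.mem_univ j), add_sub_cancel_left]
  rw [e1]
  calc ‖∑ i ∈ Finset.univ.erase j, (w i : ℂ) / (ζ - c i)‖
      ≤ ∑ i ∈ Finset.univ.erase j, ‖(w i : ℂ) / (ζ - c i)‖ := norm_sum_le _ _
    _ ≤ ∑ i ∈ Finset.univ.erase j, w i * (2 / δ) := by
        apply Finset.sum_le_sum
        intro i hi
        rw [norm_div, Complex.norm_real, Real.norm_of_nonneg (hw0 i), div_eq_mul_inv]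
        apply mul_le_mul_of_nonneg_left _ (hw0 i)
        have h1 : δ / 2 ≤ ‖ζ - c i‖ := by
          have h2 := hring.sep i j (Finset.ne_of_mem_erase hi)
          have h3 : ‖c i - c j‖ ≤ ‖ζ - c j‖ + ‖ζ - c i‖ := by
            have := norm_sub_le (ζ - c j) (ζ - c i)
            have h4 : ζ - c j - (ζ - c i) = c i - c j := by ring
            rwa [h4] at this
          linarith
        calc ‖ζ - c i‖⁻¹ ≤ (δ / 2)⁻¹ := inv_anti₀ (by positivity) h1
          _ = 2 / δ := by rw [inv_div]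
    _ ≤ ∑ i, w i * (2 / δ) := by
        apply Finset.sum_le_sum_of_subset_of_nonneg (Finset.erase_subset _ _)
        intro i _ _
        exact mul_nonneg (hw0 i) (by positivity)
    _ = 2 / δ := by rw [← Finset.sum_mul, hw1, one_mul]

theorem hh_diff {c : Fin M → ℂ} {w : Fin M → ℝ} {z : ℂ} (hz : ∀ j, z - c j ≠ 0) :
    DifferentiableAt ℂ (hh c w) z := by
  unfold hh
  exact DifferentiableAt.fun_sum fun j _ =>
    (differentiableAt_const _).div (differentiableAt_id.sub (differentiableAt_const _)) (hz j)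

/-- the drift inequality for fixed small `τ` -/
theorem drift {ρ τ δ lam κ C R v : ℝ} {c : Fin M → ℂ} {w : Fin M → ℝ} (hring : Ring δ c)
    (hρ : 0 < ρ) (hρ4 : ρ ≤ 1 / 4) (hlam : 0 < lam) (hlam1 : lam ≤ 1) (hC : 1 ≤ C)
    (hR : 100 * C / lam ≤ R) (hw0 : ∀ j, 0 ≤ w j) (hw1 : ∑ j, w j = 1)
    (hker : ∀ ζ : ℂ, ‖ζ‖ = ρ / 2 →
      ‖∑ j, (w j : ℂ) / (ζ - c j) - (lam : ℂ) * ρ / (ζ ^ 2 - (ρ : ℂ) ^ 2)‖ ≤ κ)
    (hκ : C * (ρ / 2) * κ ≤ lam / 8) (hτ : 0 < τ) (hτδ : 16 * τ ≤ δ)
    (hτM : 800 * (M * C * τ) ≤ lam * δ) {G : ℂ → ℂ} (hG : DifferentiableOn ℂ G (UU ρ τ R c))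
    (hGC : ∀ z ∈ UU ρ τ R c, ‖G z‖ ≤ C) (hGp : G ρ = 1) (hGn : G (-ρ) = -1)
    (hv : ∀ j, (V G (c j) (4 * τ)).re ≤ v) : (V G 0 4).re ≤ v - lam / 2 := by
  have hδ := hring.pos
  have hδ1 := hring.le_one
  have hτ1 : 4 * τ ≤ 1 / 4 := by linarith
  have hCl : 1 ≤ C / lam := by rw [le_div_iff₀ hlam]; linarith
  have hRC : 100 * (C / lam) ≤ R := by rwa [← mul_div_assoc]
  set R' : ℝ := R / 2 with hR'
  have hR'50 : 50 * (C / lam) ≤ R' := by rw [hR']; linarith
  have hR'1 : 50 ≤ R' := by linarith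
  have hR'R : R' < R := by rw [hR']; linarith
  have hR'49 : 49 * (C / lam) ≤ R' - 1 := by linarith
  have hUo := isOpen_UU ρ τ R c
  have hGa : ∀ z ∈ UU ρ τ R c, DifferentiableAt ℂ G z := fun z hz =>
    (hG z hz).differentiableAt (hUo.mem_nhds hz)
  -- the spheres lie in `UU`
  have hs0 : sphere (0 : ℂ) (ρ / 2) ⊆ UU ρ τ R c := by
    intro z hz
    rw [mem_sphere, dist_zero_right] at hz
    rw [mem_UU]
    refine ⟨by linarith, by linarith, fun j => ?_⟩
    have h1 : ‖c j‖ ≤ ‖z - c j‖ + ‖z‖ := by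
      have := norm_sub_le z (z - c j)
      rw [sub_sub_cancel] at this
      linarith
    rw [hring.norm j] at h1
    linarith
  have hsR : sphere (0 : ℂ) R' ⊆ UU ρ τ R c := by
    intro z hz
    rw [mem_sphere, dist_zero_right] at hz
    rw [mem_UU]
    refine ⟨by linarith, by linarith, fun j => ?_⟩
    have h1 := norm_sub_norm_le z (c j)
    rw [hring.norm j] at h1
    linarith
  have hsc : ∀ j, sphere (c j) (4 * τ) ⊆ UU ρ τ R c := by
    intro j z hz
    rw [mem_sphere, dist_eq_norm] at hz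
    rw [mem_UU]
    have h0 : ‖c j‖ ≤ ‖z - c j‖ + ‖z‖ := by
      have := norm_sub_le z (z - c j)
      rw [sub_sub_cancel] at this
      linarith
    have h0' : ‖z‖ ≤ ‖z - c j‖ + ‖c j‖ := by simpa using norm_add_le (z - c j) (c j)
    rw [hring.norm j] at h0 h0'
    refine ⟨by linarith, by linarith, fun i => ?_⟩
    by_cases hij : i = j
    · rw [hij, hz]; linarith
    · have h2 := hring.sep i j hij
      have h3 : ‖c i - c j‖ ≤ ‖z - c j‖ + ‖z - c i‖ := by
        have := norm_sub_le (z - c j) (z - c i)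
        have h4 : z - c j - (z - c i) = c i - c j := by ring
        rwa [h4] at this
      linarith
  have hne : ∀ z ∈ UU ρ τ R c, ∀ j, z - c j ≠ 0 := by
    intro z hz j h
    have := (mem_UU.mp hz).2.2 j
    rw [h, norm_zero] at this
    linarith
  have hGh : DifferentiableOn ℂ (fun z => G z * hh c w z) (UU ρ τ R c) := fun z hz =>
    ((hGa z hz).mul (hh_diff (hne z hz))).differentiableWithinAt
  have hhc : ContinuousOn (hh c w) (UU ρ τ R c) := fun z hz =>
    (hh_diff (hne z hz)).continuousAt.continuousWithinAt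
  have hGc := hG.continuousOn
  -- step A: radius of the mean value
  have hA : V G 0 4 = V G 0 R' := by
    apply V_radius (s := 2) (S := R) (by norm_num) (by linarith) (by norm_num) hR'R
    apply hG.mono
    intro z hz
    have h1 : ‖z‖ < R := by simpa using hz.1
    have h2 : 2 < ‖z‖ := by simpa using hz.2
    rw [mem_UU]
    refine ⟨h1, by linarith, fun j => ?_⟩
    have h3 := norm_sub_norm_le z (c j)
    rw [hring.norm j] at h3
    linarith
  -- error 1
  have hE1 : ‖J (fun z => G z * hh c w z) 0 R' - V G 0 R'‖ ≤ lam / 40 := by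
    rw [V_eq_J]
    have hc1 : ContinuousOn (fun z => G z * hh c w z) (sphere (0 : ℂ) R') :=
      hGh.continuousOn.mono hsR
    have hc2 : ContinuousOn (fun z => G z / (z - 0)) (sphere (0 : ℂ) R') := by
      refine (hGc.mono hsR).div (continuousOn_id.sub continuousOn_const) ?_
      intro z hz h
      rw [mem_sphere, dist_zero_right] at hz
      have h' : z = 0 := by simpa using h
      rw [h', norm_zero] at hz
      linarith
    rw [← J_sub (by linarith) hc1 hc2]
    have hb : ∀ z ∈ sphere (0 : ℂ) R', ‖G z * hh c w z - G z / (z - 0)‖ ≤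
        C * (1 / (R' * (R' - 1))) := by
      intro z hz
      have h1 : G z * hh c w z - G z / (z - 0) = G z * (hh c w z - z⁻¹) := by
        rw [sub_zero, div_eq_mul_inv]; ring
      rw [h1, norm_mul]
      rw [mem_sphere, dist_zero_right] at hz
      have h2 := hGC z (hsR (by rw [mem_sphere, dist_zero_right]; exact hz))
      have h3 := hh_outer hring.norm hw0 hw1 (by linarith : (1 : ℝ) < R') hz
      exact mul_le_mul h2 h3 (norm_nonneg _) (by linarith)
    refine (J_norm_le (by linarith) hb).trans ?_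
    have h4 : R' * (C * (1 / (R' * (R' - 1)))) = C / (R' - 1) := by
      have : R' ≠ 0 := by linarith
      have : R' - 1 ≠ 0 := by linarith
      field_simp
    rw [h4, div_le_iff₀ (by linarith)]
    have h5 : C = lam * (C / lam) := by field_simp
    have h6 : lam * (49 * (C / lam)) ≤ lam * (R' - 1) := mul_le_mul_of_nonneg_left hR'49 hlam.le
    nlinarith
  -- error 2
  have hρs : ∀ z ∈ sphere (0 : ℂ) (ρ / 2), z - ρ ≠ 0 ∧ z + ρ ≠ 0 := by
    intro z hz
    rw [mem_sphere, dist_zero_right] at hz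
    constructor
    · intro h
      have : ‖z‖ = ‖(ρ : ℂ)‖ := by rw [sub_eq_zero.mp h]
      rw [hz, Complex.norm_real, Real.norm_of_nonneg hρ.le] at this
      linarith
    · intro h
      have : ‖z‖ = ‖-(ρ : ℂ)‖ := by rw [eq_neg_of_add_eq_zero_left h]
      rw [hz, norm_neg, Complex.norm_real, Real.norm_of_nonneg hρ.le] at this
      linarith
  have hkc : ∀ s : Set ℂ, (∀ z ∈ s, z - ρ ≠ 0 ∧ z + ρ ≠ 0) → ContinuousOn (kk lam ρ) s := by
    intro s hs
    refine ContinuousOn.div continuousOn_const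
      ((continuousOn_id.pow 2).sub continuousOn_const) ?_
    intro z hz h
    have h1 : (z - ρ) * (z + ρ) = 0 := by
      have h2 : (z - ρ) * (z + ρ) = id z ^ 2 - (ρ : ℂ) ^ 2 := by rw [id]; ring
      rw [h2]; exact h
    rcases mul_eq_zero.mp h1 with h3 | h3
    · exact (hs z hz).1 h3
    · exact (hs z hz).2 h3
  have hE2 : ‖J (fun z => G z * hh c w z) 0 (ρ / 2) - J (fun z => G z * kk lam ρ z) 0 (ρ / 2)‖ ≤
      lam / 8 := by
    have hc2 : ContinuousOn (fun z => G z * kk lam ρ z) (sphere (0 : ℂ) (ρ / 2)) :=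
      (hGc.mono hs0).mul (hkc _ hρs)
    rw [← J_sub (by positivity) (hGh.continuousOn.mono hs0) hc2]
    have hb : ∀ z ∈ sphere (0 : ℂ) (ρ / 2), ‖G z * hh c w z - G z * kk lam ρ z‖ ≤ C * κ := by
      intro z hz
      have h1 : G z * hh c w z - G z * kk lam ρ z = G z * (hh c w z - kk lam ρ z) := by ring
      rw [h1, norm_mul]
      have h2 := hGC z (hs0 hz)
      rw [mem_sphere, dist_zero_right] at hz
      exact mul_le_mul h2 (hker z hz) (norm_nonneg _) (by linarith)
    refine (J_norm_le (by positivity) hb).trans ?_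
    linarith
  -- error 3
  have hE3 : ‖∑ j, (J (fun z => G z * hh c w z) (c j) (4 * τ) - (w j : ℂ) * V G (c j) (4 * τ))‖ ≤
      lam / 100 := by
    have hj : ∀ j, ‖J (fun z => G z * hh c w z) (c j) (4 * τ) -
        (w j : ℂ) * V G (c j) (4 * τ)‖ ≤ 8 * (C * τ) / δ := by
      intro j
      rw [V_eq_J, ← J_const_mul]
      have hc2 : ContinuousOn (fun z => (w j : ℂ) * (G z / (z - c j))) (sphere (c j) (4 * τ)) :=
        continuousOn_const.mul ((hGc.mono (hsc j)).div (continuousOn_id.sub continuousOn_const)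
          fun z hz => hne z (hsc j hz) j)
      rw [← J_sub (by positivity) (hGh.continuousOn.mono (hsc j)) hc2]
      have hb : ∀ z ∈ sphere (c j) (4 * τ), ‖G z * hh c w z - (w j : ℂ) * (G z / (z - c j))‖ ≤
          C * (2 / δ) := by
        intro z hz
        have h1 : G z * hh c w z - (w j : ℂ) * (G z / (z - c j)) =
            G z * (hh c w z - (w j : ℂ) / (z - c j)) := by ring
        rw [h1, norm_mul]
        have h2 := hGC z (hsc j hz)
        rw [mem_sphere, dist_eq_norm] at hz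
        exact mul_le_mul h2 (hh_child hring hw0 hw1 hτδ j hz) (norm_nonneg _) (by linarith)
      refine (J_norm_le (by positivity) hb).trans (le_of_eq ?_)
      ring
    calc ‖∑ j, (J (fun z => G z * hh c w z) (c j) (4 * τ) - (w j : ℂ) * V G (c j) (4 * τ))‖
        ≤ ∑ j, ‖J (fun z => G z * hh c w z) (c j) (4 * τ) - (w j : ℂ) * V G (c j) (4 * τ)‖ :=
          norm_sum_le _ _
      _ ≤ ∑ _j : Fin M, 8 * (C * τ) / δ := Finset.sum_le_sum fun j _ => hj j
      _ = 8 * (M * C * τ) / δ := by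
          rw [Finset.sum_const, Finset.card_univ, Fintype.card_fin, nsmul_eq_mul]
          ring
      _ ≤ lam / 100 := by
          rw [div_le_iff₀ hδ]
          linarith
  -- the second function
  have hρU : (ρ : ℂ) ∈ UU ρ τ R c := by
    rw [mem_UU, Complex.norm_real, Real.norm_of_nonneg hρ.le]
    refine ⟨by linarith, by linarith, fun j => ?_⟩
    have h1 := norm_sub_norm_le (c j) (ρ : ℂ)
    rw [hring.norm j, Complex.norm_real, Real.norm_of_nonneg hρ.le, norm_sub_rev] at h1
    linarith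
  have hρU' : (-ρ : ℂ) ∈ UU ρ τ R c := by
    rw [mem_UU, norm_neg, Complex.norm_real, Real.norm_of_nonneg hρ.le]
    refine ⟨by linarith, by linarith, fun j => ?_⟩
    have h1 := norm_sub_norm_le (c j) (-ρ : ℂ)
    rw [hring.norm j, norm_neg, Complex.norm_real, Real.norm_of_nonneg hρ.le, norm_sub_rev] at h1
    linarith
  set g2 : ℂ → ℂ := fun z => (lam / 2 : ℂ) * (dslope G ρ z - dslope G (-ρ) z) with hg2
  have hg2d : DifferentiableOn ℂ g2 (UU ρ τ R c) :=
    (((differentiableOn_dslope (hUo.mem_nhds hρU)).mpr hG).sub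
      ((differentiableOn_dslope (hUo.mem_nhds hρU')).mpr hG)).const_mul _
  have hg2e : ∀ z : ℂ, z - ρ ≠ 0 → z + ρ ≠ 0 → g2 z = G z * kk lam ρ z -
      (lam / 2 : ℂ) * ((z - ρ)⁻¹ + (z - (-ρ))⁻¹) := by
    intro z h1 h2
    have h1' : z ≠ ρ := fun h => h1 (by rw [h, sub_self])
    have h2' : z ≠ -ρ := fun h => h2 (by rw [h, neg_add_cancel])
    simp only [hg2, dslope_of_ne _ h1', dslope_of_ne _ h2', slope_def_field, hGp, hGn, kk_eq h1 h2,
      sub_neg_eq_add]
    field_simp
    ring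
  have hJ2 : ∀ r : ℝ, 0 ≤ r → sphere (0 : ℂ) r ⊆ UU ρ τ R c →
      (∀ z ∈ sphere (0 : ℂ) r, z - ρ ≠ 0 ∧ z + ρ ≠ 0) →
      J g2 0 r = J (fun z => G z * kk lam ρ z) 0 r -
        (lam / 2 : ℂ) * (J (fun z => (z - ρ)⁻¹) 0 r + J (fun z => (z - (-ρ))⁻¹) 0 r) := by
    intro r hr hrU hrne
    have hi1 : ContinuousOn (fun z : ℂ => (z - ρ)⁻¹) (sphere 0 r) :=
      (continuousOn_id.sub continuousOn_const).inv₀ fun z hz => (hrne z hz).1
    have hi2 : ContinuousOn (fun z : ℂ => (z - (-ρ))⁻¹) (sphere 0 r) :=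
      (continuousOn_id.sub continuousOn_const).inv₀ fun z hz h => (hrne z hz).2 (by
        have h' : z - -(ρ : ℂ) = 0 := h
        rwa [sub_neg_eq_add] at h')
    have hc1 : ContinuousOn (fun z => G z * kk lam ρ z) (sphere (0 : ℂ) r) :=
      (hGc.mono hrU).mul (hkc _ hrne)
    have hc2 : ContinuousOn (fun z : ℂ => (lam / 2 : ℂ) * ((z - ρ)⁻¹ + (z - (-ρ))⁻¹))
        (sphere (0 : ℂ) r) := continuousOn_const.mul (hi1.add hi2)
    rw [J_congr hr fun z hz => hg2e z (hrne z hz).1 (hrne z hz).2, J_sub hr hc1 hc2,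
      J_const_mul, J_add hr hi1 hi2]
  have hRs : ∀ z ∈ sphere (0 : ℂ) R', z - ρ ≠ 0 ∧ z + ρ ≠ 0 := by
    intro z hz
    rw [mem_sphere, dist_zero_right] at hz
    constructor
    · intro h
      have : ‖z‖ = ‖(ρ : ℂ)‖ := by rw [sub_eq_zero.mp h]
      rw [hz, Complex.norm_real, Real.norm_of_nonneg hρ.le] at this
      linarith
    · intro h
      have : ‖z‖ = ‖-(ρ : ℂ)‖ := by rw [eq_neg_of_add_eq_zero_left h]
      rw [hz, norm_neg, Complex.norm_real, Real.norm_of_nonneg hρ.le] at this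
      linarith
  have hroot : J g2 0 (ρ / 2) = J (fun z => G z * kk lam ρ z) 0 (ρ / 2) := by
    rw [hJ2 (ρ / 2) (by positivity) hs0 hρs, J_inv_outside (by positivity),
      J_inv_outside (by positivity)]
    · ring
    · rw [mem_closedBall, dist_zero_right, norm_neg, Complex.norm_real, Real.norm_of_nonneg hρ.le]
      linarith
    · rw [mem_closedBall, dist_zero_right, Complex.norm_real, Real.norm_of_nonneg hρ.le]
      linarith
  have houter : J g2 0 R' = J (fun z => G z * kk lam ρ z) 0 R' - lam := by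
    rw [hJ2 R' (by linarith) hsR hRs, J_inv_inside, J_inv_inside]
    · ring
    · rw [mem_ball, dist_zero_right, norm_neg, Complex.norm_real, Real.norm_of_nonneg hρ.le]
      linarith
    · rw [mem_ball, dist_zero_right, Complex.norm_real, Real.norm_of_nonneg hρ.le]
      linarith
  -- error 4
  have hE4 : ‖J (fun z => G z * kk lam ρ z) 0 R'‖ ≤ lam / 40 := by
    have hb : ∀ z ∈ sphere (0 : ℂ) R', ‖G z * kk lam ρ z‖ ≤ C * (1 / (R' * (R' - 1))) := by
      intro z hz
      have h2 := hGC z (hsR hz)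
      rw [mem_sphere, dist_zero_right] at hz
      rw [norm_mul]
      refine mul_le_mul h2 ?_ (norm_nonneg _) (by linarith)
      rw [kk, norm_div, norm_mul, Complex.norm_real, Complex.norm_real,
        Real.norm_of_nonneg hlam.le, Real.norm_of_nonneg hρ.le]
      have h3 : R' * (R' - 1) ≤ ‖z ^ 2 - (ρ : ℂ) ^ 2‖ := by
        have h4 := norm_sub_norm_le (z ^ 2) ((ρ : ℂ) ^ 2)
        rw [norm_pow, norm_pow, hz, Complex.norm_real, Real.norm_of_nonneg hρ.le] at h4
        nlinarith
      have h5 : 0 < R' * (R' - 1) := mul_pos (by linarith) (by linarith)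
      have h6 : lam * ρ ≤ 1 := by nlinarith
      exact div_le_div₀ (by norm_num) h6 h5 h3
    refine (J_norm_le (by linarith) hb).trans ?_
    have h4 : R' * (C * (1 / (R' * (R' - 1)))) = C / (R' - 1) := by
      have : R' ≠ 0 := by linarith
      have : R' - 1 ≠ 0 := by linarith
      field_simp
    rw [h4, div_le_iff₀ (by linarith)]
    have h5 : C = lam * (C / lam) := by field_simp
    have h6 : lam * (49 * (C / lam)) ≤ lam * (R' - 1) := mul_le_mul_of_nonneg_left hR'49 hlam.le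
    nlinarith
  -- error 5
  have hE5 : ‖∑ j, J g2 (c j) (4 * τ)‖ ≤ lam / 40 := by
    have hj : ∀ j, ‖J g2 (c j) (4 * τ)‖ ≤ 16 * (C * τ) := by
      intro j
      have hb : ∀ z ∈ sphere (c j) (4 * τ), ‖g2 z‖ ≤ 4 * C := by
        intro z hz
        have h2 := hGC z (hsc j hz)
        rw [mem_sphere, dist_eq_norm] at hz
        have h0 : ‖c j‖ ≤ ‖z - c j‖ + ‖z‖ := by
          have := norm_sub_le z (z - c j)
          rw [sub_sub_cancel] at this
          linarith
        rw [hring.norm j, hz] at h0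
        have h3 : 1 / 2 ≤ ‖z - ρ‖ := by
          have := norm_sub_norm_le z (ρ : ℂ)
          rw [Complex.norm_real, Real.norm_of_nonneg hρ.le] at this
          linarith
        have h4 : 1 / 2 ≤ ‖z + ρ‖ := by
          have := norm_sub_norm_le z (-(ρ : ℂ))
          rw [norm_neg, Complex.norm_real, Real.norm_of_nonneg hρ.le, sub_neg_eq_add] at this
          linarith
        have h3' : z - ρ ≠ 0 := by
          intro h; rw [h, norm_zero] at h3; linarith
        have h4' : z + ρ ≠ 0 := by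
          intro h; rw [h, norm_zero] at h4; linarith
        have h5 : ‖(z - ρ)⁻¹‖ ≤ 2 := by
          rw [norm_inv]
          calc ‖z - ρ‖⁻¹ ≤ (1 / 2 : ℝ)⁻¹ := inv_anti₀ (by norm_num) h3
            _ = 2 := by norm_num
        have h6 : ‖(z + ρ)⁻¹‖ ≤ 2 := by
          rw [norm_inv]
          calc ‖z + ρ‖⁻¹ ≤ (1 / 2 : ℝ)⁻¹ := inv_anti₀ (by norm_num) h4
            _ = 2 := by norm_num
        have hl : ‖(lam / 2 : ℂ)‖ ≤ 1 / 2 := by
          rw [norm_div, Complex.norm_real, Real.norm_of_nonneg hlam.le]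
          simp only [RCLike.norm_ofNat]
          linarith
        rw [hg2e z h3' h4', kk_eq h3' h4', sub_neg_eq_add]
        calc ‖G z * ((lam / 2 : ℂ) * ((z - ρ)⁻¹ - (z + ρ)⁻¹)) -
              (lam / 2 : ℂ) * ((z - ρ)⁻¹ + (z + ρ)⁻¹)‖
            ≤ ‖G z * ((lam / 2 : ℂ) * ((z - ρ)⁻¹ - (z + ρ)⁻¹))‖ +
              ‖(lam / 2 : ℂ) * ((z - ρ)⁻¹ + (z + ρ)⁻¹)‖ := norm_sub_le _ _
          _ ≤ C * (1 / 2 * (2 + 2)) + 1 / 2 * (2 + 2) := by
              rw [norm_mul, norm_mul, norm_mul]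
              gcongr
              · exact (norm_sub_le _ _).trans (add_le_add h5 h6)
              · exact (norm_add_le _ _).trans (add_le_add h5 h6)
          _ ≤ 4 * C := by linarith
      refine (J_norm_le (by positivity) hb).trans (le_of_eq ?_)
      ring
    calc ‖∑ j, J g2 (c j) (4 * τ)‖ ≤ ∑ j, ‖J g2 (c j) (4 * τ)‖ := norm_sum_le _ _
      _ ≤ ∑ _j : Fin M, 16 * (C * τ) := Finset.sum_le_sum fun j _ => hj j
      _ = 16 * (M * C * τ) := by
          rw [Finset.sum_const, Finset.card_univ, Fintype.card_fin, nsmul_eq_mul]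
          ring
      _ ≤ lam / 40 := by nlinarith
  -- conclusion
  have hid1 := cauchy_config hring hρ hρ4 hτ hτδ (by linarith) hR'R hGh
  have hid2 := cauchy_config hring hρ hρ4 hτ hτδ (by linarith) hR'R hg2d
  rw [houter, hroot] at hid2
  have hsum : ∑ j, J (fun z => G z * hh c w z) (c j) (4 * τ) =
      ∑ j, (J (fun z => G z * hh c w z) (c j) (4 * τ) - (w j : ℂ) * V G (c j) (4 * τ)) +
        ∑ j, (w j : ℂ) * V G (c j) (4 * τ) := by
    rw [← Finset.sum_add_distrib]
    apply Finset.sum_congr rfl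
    intro j _
    ring
  rw [hsum] at hid1
  set E1 := J (fun z => G z * hh c w z) 0 R' - V G 0 R' with hE1d
  set E2 := J (fun z => G z * hh c w z) 0 (ρ / 2) - J (fun z => G z * kk lam ρ z) 0 (ρ / 2)
    with hE2d
  set E3 := ∑ j, (J (fun z => G z * hh c w z) (c j) (4 * τ) - (w j : ℂ) * V G (c j) (4 * τ))
    with hE3d
  set E4 := J (fun z => G z * kk lam ρ z) 0 R' with hE4d
  set E5 := ∑ j, J g2 (c j) (4 * τ) with hE5d
  have hfin : V G 0 R' = E4 - lam - E5 + E2 + E3 - E1 + ∑ j, (w j : ℂ) * V G (c j) (4 * τ) := by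
    linear_combination hid1 - hid2 + hE1d - hE2d
  have hre : (∑ j, (w j : ℂ) * V G (c j) (4 * τ)).re ≤ v := by
    rw [re_sum]
    calc ∑ j, ((w j : ℂ) * V G (c j) (4 * τ)).re = ∑ j, w j * (V G (c j) (4 * τ)).re := by
          apply Finset.sum_congr rfl
          intro j _
          rw [re_ofReal_mul]
      _ ≤ ∑ j, w j * v := Finset.sum_le_sum fun j _ => mul_le_mul_of_nonneg_left (hv j) (hw0 j)
      _ = v := by rw [← Finset.sum_mul, hw1, one_mul]
  have r1 := (abs_le.mp ((abs_re_le_norm E1).trans hE1)).1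
  have r2 := (abs_le.mp ((abs_re_le_norm E2).trans hE2)).2
  have r3 := (abs_le.mp ((abs_re_le_norm E3).trans hE3)).2
  have r4 := (abs_le.mp ((abs_re_le_norm E4).trans hE4)).2
  have r5 := (abs_le.mp ((abs_re_le_norm E5).trans hE5)).1
  rw [hA, hfin]
  simp only [add_re, sub_re, ofReal_re]
  linarith

theorem lowStep : LowStepStmt := by
  intro M ρ δ lam κ C R c w hring hρ hρ4 hlam hlam1 hC hR hw0 hw1 hker hκ
  have hδ := hring.pos
  have hδ1 := hring.le_one
  have hCl : 1 ≤ C / lam := by rw [le_div_iff₀ hlam]; linarith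
  have hR100 : 100 ≤ R := by
    have : 100 * (C / lam) ≤ R := by rwa [← mul_div_assoc]
    linarith
  set ε : ℝ := min (δ / (4 * R)) (lam * δ / (800 * (M * C) + 1)) with hε
  have hε0 : 0 < ε := lt_min (by positivity) (by positivity)
  filter_upwards [Ioo_mem_nhdsGT hε0] with τ hτ v K Z α α' hgeo hdata hlow G hG hGC hGZ
  have hτ0 : 0 < τ := hτ.1
  have hτ1 : 4 * (τ * R) ≤ δ := by
    have h1 : τ ≤ δ / (4 * R) := hτ.2.le.trans (min_le_left _ _)
    rw [le_div_iff₀ (by positivity)] at h1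
    linarith
  have hτM : 800 * (M * C * τ) ≤ lam * δ := by
    have h1 : τ ≤ lam * δ / (800 * (M * C) + 1) := hτ.2.le.trans (min_le_right _ _)
    rw [le_div_iff₀ (by positivity)] at h1
    nlinarith
  have hτδ : 16 * τ ≤ δ := by nlinarith
  have hτc : (τ : ℂ) ≠ 0 := by exact_mod_cast hτ0.ne'
  -- `UU` avoids the next compact set
  have hsub : UU ρ τ R c ⊆ ball 0 R \ nextK ρ τ c K := by
    intro z hz
    obtain ⟨h1, h2, h3⟩ := mem_UU.mp hz
    refine ⟨by simpa using h1, ?_⟩
    rintro (h | h)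
    · rw [mem_closedBall, dist_zero_right] at h
      linarith
    · obtain ⟨j, hj⟩ := mem_iUnion.mp h
      obtain ⟨u, hu, rfl⟩ := hj
      have h4 := hgeo.sub hu
      rw [mem_closedBall, dist_zero_right] at h4
      have h5 := h3 j
      simp only [add_sub_cancel_left, norm_mul, Complex.norm_real,
        Real.norm_of_nonneg hτ0.le] at h5
      nlinarith
  refine drift hring hρ hρ4 hlam hlam1 hC hR hw0 hw1 hker hκ hτ0 hτδ hτM (hG.mono hsub)
    (fun z hz => hGC z (hsub hz)) ?_ ?_ ?_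
  · rw [hGZ _ (mem_nextZ.mpr (Or.inl rfl)), hdata.pos]
  · rw [hGZ _ (mem_nextZ.mpr (Or.inr (Or.inl rfl))), hdata.neg]
  · intro j
    rw [V_scale G (c j) hτ0 (by norm_num)]
    have hmem : ∀ u ∈ ball (0 : ℂ) R \ K, c j + τ * u ∈ ball (0 : ℂ) R \ nextK ρ τ c K := by
      intro u hu
      have h1 : ‖u‖ < R := by simpa using hu.1
      have h2 : ‖(τ : ℂ) * u‖ ≤ τ * R := by
        rw [norm_mul, Complex.norm_real, Real.norm_of_nonneg hτ0.le]
        exact mul_le_mul_of_nonneg_left h1.le hτ0.le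
      have h3 : ‖c j + τ * u‖ ≤ 1 + τ * R := by
        have := norm_add_le (c j) (τ * u)
        rw [hring.norm j] at this
        linarith
      refine ⟨?_, ?_⟩
      · rw [mem_ball, dist_zero_right]
        linarith
      rintro (h | h)
      · rw [mem_closedBall, dist_zero_right] at h
        have h4 := norm_sub_le (c j + τ * u) (τ * u)
        rw [add_sub_cancel_right, hring.norm j] at h4
        linarith
      · obtain ⟨i, hi⟩ := mem_iUnion.mp h
        obtain ⟨u', hu', he⟩ := hi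
        simp only at he
        have h5 := hgeo.sub hu'
        rw [mem_closedBall, dist_zero_right] at h5
        by_cases hij : i = j
        · rw [hij] at he
          have h6 : u' = u := by
            have := add_left_cancel he
            exact mul_left_cancel₀ hτc this
          exact hu.2 (h6 ▸ hu')
        · have h6 := hring.sep i j hij
          have h7 : c i - c j = τ * u - τ * u' := by linear_combination he
          have h8 : ‖(τ : ℂ) * u'‖ ≤ τ * 2 := by
            rw [norm_mul, Complex.norm_real, Real.norm_of_nonneg hτ0.le]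
            exact mul_le_mul_of_nonneg_left h5 hτ0.le
          have h9 := norm_sub_le (τ * u) (τ * u')
          rw [← h7] at h9
          nlinarith
    apply hlow
    · intro u hu
      have hin := hmem u hu
      have hopen : IsOpen (ball (0 : ℂ) R \ K) := isOpen_ball.sdiff hgeo.closed
      have h1 : DifferentiableWithinAt ℂ G (ball 0 R \ nextK ρ τ c K) (c j + τ * u) := hG _ hin
      have h2 : DifferentiableWithinAt ℂ (fun u : ℂ => c j + τ * u) (ball 0 R \ K) u :=
        ((differentiableAt_const _).add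
          ((differentiableAt_const _).mul differentiableAt_id)).differentiableWithinAt
      exact h1.comp u h2 hmem
    · intro u hu
      exact hGC _ (hmem u hu)
    · intro p hp
      rw [hGZ _ (mem_nextZ.mpr (Or.inr (Or.inr ⟨j, p, hp, rfl⟩))), hdata.child j p hp]

end MP05e272
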