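import Pool.Agent.Lib.MP_05e272_an.Stmts

/-! MP_05e272_an: separation for the next generation. -/

set_option autoImplicit false

open Metric Set Complex Filter Topology
open scoped Real

noncomputable section

namespace MP05e272

theorem exists_norm_of_cocompact {P : ℂ → Prop} (hP : ∀ᶠ w in cocompact ℂ, P w) :
    ∃ r : ℝ, 0 < r ∧ ∀ w : ℂ, r ≤ ‖w‖ → P w := by
  rw [← Metric.cobounded_eq_cocompact] at hP
  obtain ⟨r, -, hr⟩ := (hasBasis_cobounded_norm (E := ℂ)).eventually_iff.1 hP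
  refine ⟨max r 1, lt_of_lt_of_le one_pos (le_max_right r 1), fun w hw => ?_⟩
  have h1 : r ≤ ‖w‖ := le_trans (le_max_left r 1) hw
  exact hr h1

theorem ev_far {P : ℂ → Prop} (hP : ∀ᶠ w in cocompact ℂ, P w) {d : ℝ} (hd : 0 < d) :
    ∀ᶠ τ : ℝ in 𝓝[>] (0 : ℝ), ∀ w : ℂ, d ≤ ‖w‖ → P (w / (τ : ℂ)) := by
  obtain ⟨r, hr0, hr⟩ := exists_norm_of_cocompact hP
  have h1 : Ioo (0 : ℝ) (d / r) ∈ 𝓝[>] (0 : ℝ) := Ioo_mem_nhdsGT (by positivity)
  filter_upwards [h1] with τ hτ w hw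
  apply hr
  rw [norm_div, Complex.norm_real, Real.norm_eq_abs, abs_of_pos hτ.1, le_div_iff₀ hτ.1]
  have := hτ.2
  rw [lt_div_iff₀ hr0] at this
  nlinarith

theorem aff_tendsto (c : ℂ) {τ : ℝ} (hτ : τ ≠ 0) :
    Tendsto (fun z : ℂ => (z - c) / τ) (cocompact ℂ) (cocompact ℂ) := by
  have hτ' : ((τ : ℂ))⁻¹ ≠ 0 := by simpa using hτ
  have h := ((Homeomorph.subRight c).trans (Homeomorph.mulRight₀ ((τ : ℂ))⁻¹ hτ')).isClosedEmbedding.tendsto_cocompact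
  refine h.congr (fun z => ?_)
  simp [div_eq_mul_inv]

theorem inv_tendsto (ρ : ℝ) : Tendsto (fun z : ℂ => (ρ : ℂ) / z) (cocompact ℂ) (𝓝 0) := by
  rw [← Metric.cobounded_eq_cocompact]
  have := (tendsto_inv₀_cobounded (α := ℂ)).const_mul (ρ : ℂ)
  simpa [div_eq_mul_inv] using this

theorem mem_compl_nextK {ι : Type*} {ρ τ : ℝ} (hτ : τ ≠ 0) {c : ι → ℂ} {K : Set ℂ} {z : ℂ} :
    z ∈ (nextK ρ τ c K)ᶜ ↔ ρ / 4 < ‖z‖ ∧ ∀ j, (z - c j) / τ ∈ Kᶜ := by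
  have hτ' : (τ : ℂ) ≠ 0 := by simpa using hτ
  unfold nextK
  rw [compl_union, mem_inter_iff]
  refine and_congr ?_ ?_
  · simp
  · simp only [mem_compl_iff, mem_iUnion, mem_image, not_exists, not_and]
    refine forall_congr' (fun j => ⟨fun h hK => h _ hK ?_, fun h w hw hwz => h ?_⟩)
    · field_simp
      ring
    · rw [← hwz]
      convert hw using 1
      field_simp
      ring

/-- differentiability of a scaled copy off the next holes -/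
theorem scaled_diff {ι : Type*} {ρ τ : ℝ} (hτ : τ ≠ 0) {c : ι → ℂ} {K : Set ℂ}
    (hK : IsClosed K) {f : ℂ → ℂ} (hf : DifferentiableOn ℂ f Kᶜ) (j : ι) :
    DifferentiableOn ℂ (fun z => f ((z - c j) / τ)) (nextK ρ τ c K)ᶜ := by
  intro z hz
  have h1 := ((mem_compl_nextK hτ).1 hz).2 j
  have h2 : DifferentiableAt ℂ f ((z - c j) / τ) := hf.differentiableAt (hK.isOpen_compl.mem_nhds h1)
  have h3 : DifferentiableAt ℂ (fun z : ℂ => (z - c j) / (τ : ℂ)) z :=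
    (differentiableAt_id.sub_const _).div_const _
  exact (DifferentiableAt.comp z h2 h3).differentiableWithinAt

theorem root_diff {ι : Type*} {ρ τ : ℝ} (hρ : 0 < ρ) (hτ : τ ≠ 0) {c : ι → ℂ} {K : Set ℂ} :
    DifferentiableOn ℂ (fun z : ℂ => (ρ : ℂ) / z) (nextK ρ τ c K)ᶜ := by
  intro z hz
  have h1 := ((mem_compl_nextK hτ).1 hz).1
  have h2 : z ≠ 0 := by
    intro h
    rw [h, norm_zero] at h1
    linarith
  exact ((differentiableAt_const _).div differentiableAt_id h2).differentiableWithinAt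

section

variable {M : ℕ} {ρ δ τ ε B : ℝ} {c : Fin M → ℂ} {K : Set ℂ} {U : ℂ → ℂ}

theorem norm_near_one {a : ℂ} {e : ℝ} (h : ‖a - 1‖ ≤ e) : ‖a‖ ≤ 1 + e ∧ 1 - e ≤ ‖a‖ := by
  constructor
  · calc ‖a‖ = ‖1 + (a - 1)‖ := by ring_nf
      _ ≤ ‖(1 : ℂ)‖ + ‖a - 1‖ := norm_add_le _ _
      _ ≤ 1 + e := by rw [norm_one]; linarith
  · have h2 : ‖(1 : ℂ)‖ ≤ ‖a‖ + ‖a - 1‖ := by
      calc ‖(1 : ℂ)‖ = ‖a - (a - 1)‖ := by ring_nf
        _ ≤ _ := norm_sub_le _ _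
    rw [norm_one] at h2
    linarith

/-- far from all centres of `s`, the product is close to `1` -/
theorem prod_far (hε0 : 0 < ε) (hε1 : ε ≤ 1)
    (hU : ∀ w : ℂ, δ / 2 ≤ ‖w‖ → ‖U (w / τ) - 1‖ ≤ ε / (2 * (M + 1)))
    {s : Finset (Fin M)} {z : ℂ} (hz : ∀ j ∈ s, δ / 2 ≤ ‖z - c j‖) :
    ‖∏ j ∈ s, U ((z - c j) / τ) - 1‖ ≤ ε := by
  have h1 : ∏ j ∈ s, U ((z - c j) / τ) = ∏ j ∈ s, (1 + (U ((z - c j) / τ) - 1)) := by
    refine Finset.prod_congr rfl (fun j _ => by ring)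
  rw [h1]
  refine (Finset.norm_prod_one_add_sub_one_le s _).trans ?_
  have h2 : ∑ j ∈ s, ‖U ((z - c j) / τ) - 1‖ ≤ ε / 2 := by
    calc ∑ j ∈ s, ‖U ((z - c j) / τ) - 1‖ ≤ ∑ j ∈ s, ε / (2 * (M + 1)) :=
          Finset.sum_le_sum (fun j hj => hU _ (hz j hj))
      _ = s.card * (ε / (2 * (M + 1))) := by rw [Finset.sum_const, nsmul_eq_mul]
      _ ≤ (M + 1) * (ε / (2 * (M + 1))) := by
          have : (s.card : ℝ) ≤ M := by
            have := Finset.card_le_univ s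
            rw [Fintype.card_fin] at this
            exact_mod_cast this
          gcongr
          linarith
      _ = ε / 2 := by field_simp
  have h3 : 0 ≤ ∑ j ∈ s, ‖U ((z - c j) / τ) - 1‖ := Finset.sum_nonneg (fun _ _ => norm_nonneg _)
  have h4 := Real.exp_bound_div_one_sub_of_interval h3 (by linarith)
  have h5 : 1 / (1 - ∑ j ∈ s, ‖U ((z - c j) / τ) - 1‖) ≤ 1 + ε := by
    rw [div_le_iff₀ (by linarith)]
    nlinarith
  linarith

/-- the general bound for the product -/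
theorem prod_le (hR : Ring δ c) (hτ : τ ≠ 0) (hε0 : 0 < ε) (hε1 : ε ≤ 1) (hB : 1 ≤ B)
    (hU : ∀ w : ℂ, δ / 2 ≤ ‖w‖ → ‖U (w / τ) - 1‖ ≤ ε / (2 * (M + 1)))
    (hUB : ∀ z ∈ Kᶜ, ‖U z‖ ≤ B)
    {s : Finset (Fin M)} {z : ℂ} (hz : z ∈ (nextK ρ τ c K)ᶜ) :
    ‖∏ j ∈ s, U ((z - c j) / τ)‖ ≤ B * (1 + ε) := by
  classical
  by_cases hcase : ∀ j ∈ s, δ / 2 ≤ ‖z - c j‖
  · have h1 := prod_far hε0 hε1 hU hcase
    have h2 : ‖∏ j ∈ s, U ((z - c j) / τ)‖ ≤ 1 + ε := (norm_near_one h1).1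
    nlinarith
  · push Not at hcase
    obtain ⟨j, hj, hjz⟩ := hcase
    have hfar : ∀ i ∈ s.erase j, δ / 2 ≤ ‖z - c i‖ := by
      intro i hi
      have hij : i ≠ j := Finset.ne_of_mem_erase hi
      have h1 := hR.sep i j hij
      have h2 : ‖c i - c j‖ ≤ ‖z - c j‖ + ‖z - c i‖ := by
        calc ‖c i - c j‖ = ‖(z - c j) - (z - c i)‖ := by ring_nf
          _ ≤ _ := norm_sub_le _ _
      linarith
    have h1 := prod_far hε0 hε1 hU hfar
    have h2 : ‖∏ i ∈ s.erase j, U ((z - c i) / τ)‖ ≤ 1 + ε := (norm_near_one h1).1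
    rw [← Finset.mul_prod_erase s _ hj, norm_mul]
    have h3 := hUB _ (((mem_compl_nextK hτ).1 hz).2 j)
    gcongr

theorem prod_far_le (hε0 : 0 < ε) (hε1 : ε ≤ 1)
    (hU : ∀ w : ℂ, δ / 2 ≤ ‖w‖ → ‖U (w / τ) - 1‖ ≤ ε / (2 * (M + 1)))
    {s : Finset (Fin M)} {z : ℂ} (hz : ∀ j ∈ s, δ / 2 ≤ ‖z - c j‖) :
    ‖∏ j ∈ s, U ((z - c j) / τ)‖ ≤ 1 + ε ∧ 1 - ε ≤ ‖∏ j ∈ s, U ((z - c j) / τ)‖ := by
  exact norm_near_one (prod_far hε0 hε1 hU hz)

end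

/-- bound of the root factor -/
theorem root_le {ρ : ℝ} (hρ : 0 < ρ) {z : ℂ} (hz : ρ / 4 < ‖z‖) : ‖(ρ : ℂ) / z‖ ≤ 4 := by
  rw [norm_div, Complex.norm_real, Real.norm_eq_abs, abs_of_pos hρ,
    div_le_iff₀ (by linarith)]
  linarith

theorem root_le' {ρ : ℝ} (hρ : 0 < ρ) {z : ℂ} (hz : 1 / 2 ≤ ‖z‖) : ‖(ρ : ℂ) / z‖ ≤ 2 * ρ := by
  rw [norm_div, Complex.norm_real, Real.norm_eq_abs, abs_of_pos hρ,
    div_le_iff₀ (by linarith)]
  nlinarith

theorem one_sub_pow_le {N : ℕ} {a : ℂ} {b : ℝ} (h : ‖a‖ ≤ b) :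
    ‖1 - a ^ N‖ ≤ 1 + b ^ N ∧ 1 - b ^ N ≤ ‖1 - a ^ N‖ := by
  have h1 : ‖a ^ N‖ ≤ b ^ N := by
    rw [norm_pow]
    gcongr
  constructor
  · calc ‖1 - a ^ N‖ ≤ ‖(1 : ℂ)‖ + ‖a ^ N‖ := norm_sub_le _ _
      _ ≤ _ := by rw [norm_one]; linarith
  · have h2 : ‖(1 : ℂ)‖ ≤ ‖1 - a ^ N‖ + ‖a ^ N‖ := by
      calc ‖(1 : ℂ)‖ = ‖(1 - a ^ N) + a ^ N‖ := by ring_nf
        _ ≤ _ := norm_add_le _ _
    rw [norm_one] at h2
    linarith


/-- everything the construction needs at one scale `τ` -/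
structure Ctx (M N : ℕ) (ρ δ θ S B τ : ℝ) (c : Fin M → ℂ) (K : Set ℂ) (Z : Finset ℂ)
    (U : ℂ → ℂ) (F : ℂ → ℂ → ℂ) : Prop where
  ring : Ring δ c
  even : Even N
  two : 2 ≤ N
  hρN : ρ * 4 ^ N = 1
  hθ0 : 0 < θ
  hθ1 : θ ≤ 1 / 2
  hx : (2 * ρ) ^ N ≤ θ / 8
  hS : 12 ≤ S
  hB1 : 1 + 4 ^ N ≤ B
  hB2 : B ≤ 2 * (1 + 4 ^ N)
  closed : IsClosed K
  sub : K ⊆ closedBall 0 2
  pts : ∀ p ∈ Z, p ∈ closedBall (0 : ℂ) 2 \ K
  Ud : DifferentiableOn ℂ U Kᶜ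
  UB : ∀ z ∈ Kᶜ, ‖U z‖ ≤ B
  UZ : ∀ p ∈ Z, U p = 0
  Ut : Tendsto U (cocompact ℂ) (𝓝 1)
  Fd : ∀ p ∈ Z, DifferentiableOn ℂ (F p) Kᶜ
  FS : ∀ p ∈ Z, ∀ z ∈ Kᶜ, ‖F p z‖ ≤ S
  F1 : ∀ p ∈ Z, F p p = 1
  F0 : ∀ p ∈ Z, ∀ q ∈ Z, q ≠ p → F p q = 0
  Ft : ∀ p ∈ Z, Tendsto (F p) (cocompact ℂ) (𝓝 0)
  hU : ∀ w : ℂ, δ / 2 ≤ ‖w‖ → ‖U (w / τ) - 1‖ ≤ (θ / 8) / (2 * (M + 1))
  hF : ∀ p ∈ Z, ∀ w : ℂ, δ / 2 ≤ ‖w‖ → ‖F p (w / τ)‖ ≤ 1 / (4 * B * (1 + 4 ^ N))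
  τ0 : 0 < τ
  τ1 : τ < δ / 8

namespace Ctx

variable {M N : ℕ} {ρ δ θ S B τ : ℝ} {c : Fin M → ℂ} {K : Set ℂ} {Z : Finset ℂ}
  {U : ℂ → ℂ} {F : ℂ → ℂ → ℂ}

theorem ρ0 (h : Ctx M N ρ δ θ S B τ c K Z U F) : 0 < ρ := by
  have h1 : (0 : ℝ) < 4 ^ N := by positivity
  have h2 := h.hρN
  by_contra hcon
  push Not at hcon
  nlinarith

theorem four (h : Ctx M N ρ δ θ S B τ c K Z U F) : (16 : ℝ) ≤ 4 ^ N := by
  calc (16 : ℝ) = 4 ^ 2 := by norm_num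
    _ ≤ 4 ^ N := pow_le_pow_right₀ (by norm_num) h.two

theorem ρ1 (h : Ctx M N ρ δ θ S B τ c K Z U F) : ρ ≤ 1 / 16 := by
  have h1 := h.four
  have h2 := h.hρN
  have h3 := h.ρ0
  nlinarith

theorem far_root (h : Ctx M N ρ δ θ S B τ c K Z U F) {z : ℂ} (hz : ‖z‖ ≤ 1 / 2) (j : Fin M) :
    δ / 2 ≤ ‖z - c j‖ := by
  have h1 := h.ring.norm j
  have h2 := h.ring.le_one
  have h3 : ‖c j‖ ≤ ‖z‖ + ‖z - c j‖ := by
    calc ‖c j‖ = ‖z - (z - c j)‖ := by ring_nf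
      _ ≤ _ := norm_sub_le _ _
  linarith

theorem prodDiff (h : Ctx M N ρ δ θ S B τ c K Z U F) (s : Finset (Fin M)) :
    DifferentiableOn ℂ (fun z => ∏ j ∈ s, U ((z - c j) / τ)) (nextK ρ τ c K)ᶜ := by
  refine DifferentiableOn.fun_finsetProd (fun j _ => ?_)
  exact scaled_diff h.τ0.ne' h.closed h.Ud j

theorem prodTend (h : Ctx M N ρ δ θ S B τ c K Z U F) (s : Finset (Fin M)) :
    Tendsto (fun z => ∏ j ∈ s, U ((z - c j) / τ)) (cocompact ℂ) (𝓝 1) := by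
  have := tendsto_finsetProd s (fun j _ => h.Ut.comp (aff_tendsto (c j) h.τ0.ne'))
  simpa using this

theorem prodLe (h : Ctx M N ρ δ θ S B τ c K Z U F) (s : Finset (Fin M)) {z : ℂ}
    (hz : z ∈ (nextK ρ τ c K)ᶜ) : ‖∏ j ∈ s, U ((z - c j) / τ)‖ ≤ B * (1 + θ / 8) := by
  refine prod_le h.ring h.τ0.ne' ?_ ?_ ?_ h.hU h.UB hz
  · linarith [h.hθ0]
  · linarith [h.hθ1]
  · linarith [h.hB1, h.four]

theorem prodFar (h : Ctx M N ρ δ θ S B τ c K Z U F) {s : Finset (Fin M)} {z : ℂ}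
    (hz : ∀ j ∈ s, δ / 2 ≤ ‖z - c j‖) :
    ‖∏ j ∈ s, U ((z - c j) / τ)‖ ≤ 1 + θ / 8 ∧ 1 - θ / 8 ≤ ‖∏ j ∈ s, U ((z - c j) / τ)‖ := by
  refine prod_far_le ?_ ?_ h.hU hz
  · linarith [h.hθ0]
  · linarith [h.hθ1]

theorem prodZero (h : Ctx M N ρ δ θ S B τ c K Z U F) {s : Finset (Fin M)} {j : Fin M}
    (hj : j ∈ s) {w : ℂ} (hw : w ∈ Z) : ∏ i ∈ s, U ((c j + τ * w - c i) / τ) = 0 := by
  refine Finset.prod_eq_zero hj ?_
  have h1 : (τ : ℂ) ≠ 0 := by exact_mod_cast h.τ0.ne'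
  have h2 : (c j + τ * w - c j) / (τ : ℂ) = w := by field_simp; ring
  rw [h2]
  exact h.UZ w hw

/-- the bounded function vanishing on the next points -/
theorem exU' (h : Ctx M N ρ δ θ S B τ c K Z U F) :
    ∃ U' : ℂ → ℂ, DifferentiableOn ℂ U' (nextK ρ τ c K)ᶜ ∧
      (∀ z ∈ (nextK ρ τ c K)ᶜ, ‖U' z‖ ≤ B * (1 + θ)) ∧
      (∀ p ∈ nextZ ρ τ c Z, U' p = 0) ∧ Tendsto U' (cocompact ℂ) (𝓝 1) := by
  have hρ := h.ρ0
  have hτ := h.τ0.ne'
  have hB := h.hB1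
  have h4 := h.four
  refine ⟨fun z => (1 - (ρ / z) ^ N) * ∏ j, U ((z - c j) / τ), ?_, ?_, ?_, ?_⟩
  · exact ((differentiableOn_const _).sub ((root_diff hρ hτ).pow N)).mul (h.prodDiff _)
  · intro z hz
    rw [norm_mul]
    have hz1 := ((mem_compl_nextK hτ).1 hz).1
    rcases le_total ‖z‖ (1 / 2) with h1 | h1
    · have h2 := (one_sub_pow_le (N := N) (root_le hρ hz1)).1
      have h3 := (h.prodFar (s := Finset.univ) (fun j _ => h.far_root h1 j)).1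
      have hθ := h.hθ0
      calc ‖1 - ((ρ : ℂ) / z) ^ N‖ * ‖∏ j, U ((z - c j) / τ)‖ ≤ (1 + 4 ^ N) * (1 + θ / 8) := by
            gcongr
        _ ≤ B * (1 + θ) := by
            have h5 : 1 + θ / 8 ≤ 1 + θ := by linarith
            have h6 : 0 ≤ B := by linarith
            gcongr
    · have h2 := (one_sub_pow_le (N := N) (root_le' hρ h1)).1
      have h3 := h.prodLe Finset.univ hz
      have hθ := h.hθ0
      have hθ1 := h.hθ1
      have hx := h.hx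
      have hx0 : 0 ≤ (2 * ρ) ^ N := by positivity
      calc ‖1 - ((ρ : ℂ) / z) ^ N‖ * ‖∏ j, U ((z - c j) / τ)‖
          ≤ (1 + (2 * ρ) ^ N) * (B * (1 + θ / 8)) := by
            gcongr
        _ ≤ (1 + θ / 8) * (B * (1 + θ / 8)) := by
            have h6 : 0 ≤ B := by linarith
            have : 0 ≤ B * (1 + θ / 8) := by positivity
            gcongr
        _ = B * ((1 + θ / 8) * (1 + θ / 8)) := by ring
        _ ≤ B * (1 + θ) := by
            have : 0 ≤ B := by linarith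
            gcongr
            nlinarith
  · intro p hp
    rw [mem_nextZ] at hp
    have hρ' : (ρ : ℂ) ≠ 0 := by exact_mod_cast hρ.ne'
    rcases hp with rfl | rfl | ⟨j, w, hw, rfl⟩
    · simp [div_self hρ']
    · have h1 : (ρ : ℂ) / (-ρ) = -1 := by field_simp
      change (1 - ((ρ : ℂ) / (-ρ)) ^ N) * _ = 0
      rw [h1, h.even.neg_one_pow, sub_self, zero_mul]
    · change _ * ∏ i, U ((c j + τ * w - c i) / τ) = 0
      rw [h.prodZero (Finset.mem_univ j) hw, mul_zero]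
  · have h1 := ((inv_tendsto ρ).pow N).const_sub 1
    have h2 := h1.mul (h.prodTend Finset.univ)
    have hN : N ≠ 0 := by have := h.two; omega
    simpa [zero_pow hN] using h2

theorem rootFar (h : Ctx M N ρ δ θ S B τ c K Z U F) {s : ℂ} (hs : ‖s‖ = 1) (j : Fin M) :
    δ / 2 ≤ ‖s * ρ - c j‖ := by
  refine h.far_root ?_ j
  rw [norm_mul, hs, Complex.norm_real, Real.norm_eq_abs, abs_of_pos h.ρ0]
  linarith [h.ρ1]

/-- the separating functions of the two root points -/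
theorem exRoot (h : Ctx M N ρ δ θ S B τ c K Z U F) {s : ℂ} (hs : s = 1 ∨ s = -1) :
    ∃ G : ℂ → ℂ, DifferentiableOn ℂ G (nextK ρ τ c K)ᶜ ∧
      (∀ z ∈ (nextK ρ τ c K)ᶜ, ‖G z‖ ≤ S * (1 + θ)) ∧ G (s * ρ) = 1 ∧
      (∀ q ∈ nextZ ρ τ c Z, q ≠ s * ρ → G q = 0) ∧ Tendsto G (cocompact ℂ) (𝓝 0) := by
  have hρ := h.ρ0
  have hρ1 := h.ρ1
  have hτ := h.τ0.ne'
  have hB := h.hB1
  have hB2 := h.hB2
  have h4 := h.four
  have hθ := h.hθ0
  have hθ1 := h.hθ1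
  have hS := h.hS
  have hρN := h.hρN
  have hρ' : (ρ : ℂ) ≠ 0 := by exact_mod_cast hρ.ne'
  have hsn : ‖s‖ = 1 := by rcases hs with rfl | rfl <;> simp
  have hss : s * s = 1 := by rcases hs with rfl | rfl <;> norm_num
  have hs0 : s ≠ 0 := by rcases hs with rfl | rfl <;> norm_num
  obtain ⟨ν, hν⟩ : ∃ ν : ℂ, ν = ∏ j, U ((s * ρ - c j) / τ) := ⟨_, rfl⟩
  have hν1 : 1 - θ / 8 ≤ ‖ν‖ := by
    rw [hν]
    exact (h.prodFar (s := Finset.univ) (fun j _ => h.rootFar hsn j)).2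
  have hν2 : 15 / 16 ≤ ‖ν‖ := by linarith
  have hν0 : ν ≠ 0 := by
    rw [← norm_pos_iff]
    linarith
  have hS1 : 12 ≤ S * (1 + θ) := by nlinarith
  refine ⟨fun z => ((ρ / z) ^ 2 + s * (ρ / z)) / 2 * (∏ j, U ((z - c j) / τ)) / ν,
    ?_, ?_, ?_, ?_, ?_⟩
  · exact ((((root_diff hρ hτ).pow 2).add ((root_diff hρ hτ).const_mul s)).div_const 2
      |>.mul (h.prodDiff _)).div_const ν
  · intro z hz
    have hz1 := ((mem_compl_nextK hτ).1 hz).1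
    rw [norm_div, norm_mul, norm_div, div_le_iff₀ (by linarith)]
    have hnum : ‖((ρ : ℂ) / z) ^ 2 + s * (ρ / z)‖ ≤ ‖(ρ : ℂ) / z‖ ^ 2 + ‖(ρ : ℂ) / z‖ := by
      refine (norm_add_le _ _).trans ?_
      rw [norm_pow, norm_mul, hsn, one_mul]
    have h2n : ‖(2 : ℂ)‖ = 2 := by simp
    rw [h2n]
    have hlow : 12 * (15 / 16) ≤ S * (1 + θ) * ‖ν‖ := by
      have : (0 : ℝ) ≤ 15 / 16 := by norm_num
      gcongr
    refine le_trans ?_ hlow
    rcases le_total ‖z‖ (1 / 2) with h1 | h1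
    · have h2 := root_le hρ hz1
      have h3 := (h.prodFar (s := Finset.univ) (fun j _ => h.far_root h1 j)).1
      calc ‖((ρ : ℂ) / z) ^ 2 + s * (ρ / z)‖ / 2 * ‖∏ j, U ((z - c j) / τ)‖
          ≤ (4 ^ 2 + 4) / 2 * (1 + θ / 8) := by
            have : ‖((ρ : ℂ) / z) ^ 2 + s * (ρ / z)‖ ≤ 4 ^ 2 + 4 := by
              refine hnum.trans ?_
              gcongr
            gcongr
        _ ≤ 12 * (15 / 16) := by linarith
    · have h2 := root_le' hρ h1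
      have h3 := h.prodLe Finset.univ hz
      have h5 : ρ * B ≤ 2 * (ρ + 1) := by
        calc ρ * B ≤ ρ * (2 * (1 + 4 ^ N)) := by gcongr
          _ = 2 * (ρ + ρ * 4 ^ N) := by ring
          _ = 2 * (ρ + 1) := by rw [hρN]
      calc ‖((ρ : ℂ) / z) ^ 2 + s * (ρ / z)‖ / 2 * ‖∏ j, U ((z - c j) / τ)‖
          ≤ ((2 * ρ) ^ 2 + 2 * ρ) / 2 * (B * (1 + θ / 8)) := by
            have : ‖((ρ : ℂ) / z) ^ 2 + s * (ρ / z)‖ ≤ (2 * ρ) ^ 2 + 2 * ρ := by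
              refine hnum.trans ?_
              gcongr
            gcongr
        _ = (2 * ρ + 1) * (1 + θ / 8) * (ρ * B) := by ring
        _ ≤ (2 * (1 / 16) + 1) * (1 + (1 / 2) / 8) * (2 * (1 / 16 + 1)) := by
            have : ρ * B ≤ 2 * (1 / 16 + 1) := by linarith
            have hB0 : 0 ≤ B := by linarith
            gcongr
        _ ≤ 12 * (15 / 16) := by norm_num
  · have h1 : (ρ : ℂ) / (s * ρ) = s := by
      rw [div_eq_iff (mul_ne_zero hs0 hρ'), ← mul_assoc, hss, one_mul]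
    change (((ρ : ℂ) / (s * ρ)) ^ 2 + s * (ρ / (s * ρ))) / 2 * (∏ j, U ((s * ρ - c j) / τ)) / ν = 1
    rw [← hν, h1, pow_two, hss, mul_div_assoc, div_self hν0]
    norm_num
  · intro q hq hne
    have hneg : ((ρ : ℂ) / (-(s * ρ))) ^ 2 + s * (ρ / (-(s * ρ))) = 0 := by
      have h1 : (ρ : ℂ) / (-(s * ρ)) = -s := by
        rw [div_eq_iff (neg_ne_zero.2 (mul_ne_zero hs0 hρ')), neg_mul_neg, ← mul_assoc, hss,
          one_mul]
      rw [h1]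
      linear_combination (0 : ℂ) * hss
    have hcase : q = -(s * ρ) → ((ρ : ℂ) / q) ^ 2 + s * (ρ / q) = 0 := by
      intro h1
      rw [h1, hneg]
    rw [mem_nextZ] at hq
    have hgoal : q = -(s * ρ) ∨ ∃ j, ∃ w ∈ Z, c j + τ * w = q := by
      rcases hq with h1 | h1 | h1
      · left
        rcases hs with h2 | h2
        · exact absurd (by rw [h1, h2]; ring) hne
        · rw [h1, h2]; ring
      · left
        rcases hs with h2 | h2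
        · rw [h1, h2]; ring
        · exact absurd (by rw [h1, h2]; ring) hne
      · exact Or.inr h1
    rcases hgoal with h1 | ⟨j, w, hw, rfl⟩
    · change (((ρ : ℂ) / q) ^ 2 + s * (ρ / q)) / 2 * _ / ν = 0
      rw [hcase h1]
      simp
    · change _ * (∏ i, U ((c j + τ * w - c i) / τ)) / ν = 0
      rw [h.prodZero (Finset.mem_univ j) hw]
      simp
  · have h1 := ((((inv_tendsto ρ).pow 2).add ((inv_tendsto ρ).const_mul s)).div_const 2).mul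
      (h.prodTend Finset.univ)
    have h2 := h1.div_const ν
    simpa using h2

/-- the separating functions of the child points -/
theorem exChild (h : Ctx M N ρ δ θ S B τ c K Z U F) (j : Fin M) {p : ℂ} (hp : p ∈ Z) :
    ∃ G : ℂ → ℂ, DifferentiableOn ℂ G (nextK ρ τ c K)ᶜ ∧
      (∀ z ∈ (nextK ρ τ c K)ᶜ, ‖G z‖ ≤ S * (1 + θ)) ∧ G (c j + τ * p) = 1 ∧
      (∀ q ∈ nextZ ρ τ c Z, q ≠ c j + τ * p → G q = 0) ∧ Tendsto G (cocompact ℂ) (𝓝 0) := by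
  have hρ := h.ρ0
  have hρ1 := h.ρ1
  have hτ := h.τ0.ne'
  have hτ0 := h.τ0
  have hB := h.hB1
  have hB2 := h.hB2
  have h4 := h.four
  have hθ := h.hθ0
  have hθ1 := h.hθ1
  have hS := h.hS
  have hx := h.hx
  have hδ := h.ring.pos
  have hρ' : (ρ : ℂ) ≠ 0 := by exact_mod_cast hρ.ne'
  have hτ' : (τ : ℂ) ≠ 0 := by exact_mod_cast hτ
  have hδ1 := h.ring.le_one
  have hτ1 := h.τ1
  obtain ⟨q0, hq0⟩ : ∃ q0 : ℂ, q0 = c j + τ * p := ⟨_, rfl⟩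
  rw [← hq0]
  have hpn : ‖p‖ ≤ 2 := by
    have := (h.pts p hp).1
    simpa using this
  have hq0c : ‖q0 - c j‖ ≤ δ / 4 := by
    rw [hq0, add_sub_cancel_left, norm_mul, Complex.norm_real, Real.norm_eq_abs,
      abs_of_pos hτ0]
    nlinarith [norm_nonneg p]
  -- points close to `c j` are far from the origin and from the other centres
  have hclose : ∀ z : ℂ, ‖z - c j‖ ≤ δ / 2 → 1 / 2 ≤ ‖z‖ ∧
      ∀ i ∈ Finset.univ.erase j, δ / 2 ≤ ‖z - c i‖ := by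
    intro z hz
    constructor
    · have h1 := h.ring.norm j
      have h3 : ‖c j‖ ≤ ‖z‖ + ‖z - c j‖ := by
        calc ‖c j‖ = ‖z - (z - c j)‖ := by ring_nf
          _ ≤ _ := norm_sub_le _ _
      linarith
    · intro i hi
      have hij : i ≠ j := Finset.ne_of_mem_erase hi
      have h1 := h.ring.sep i j hij
      have h2 : ‖c i - c j‖ ≤ ‖z - c j‖ + ‖z - c i‖ := by
        calc ‖c i - c j‖ = ‖(z - c j) - (z - c i)‖ := by ring_nf
          _ ≤ _ := norm_sub_le _ _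
      linarith
  have hq0close := hclose q0 (by linarith)
  obtain ⟨ν, hν⟩ : ∃ ν : ℂ, ν = (∏ i ∈ Finset.univ.erase j, U ((q0 - c i) / τ)) *
    (1 - (ρ / q0) ^ N) := ⟨_, rfl⟩
  have hν1 : (1 - θ / 8) * (1 - θ / 8) ≤ ‖ν‖ := by
    rw [hν, norm_mul]
    have h1 := (h.prodFar (s := Finset.univ.erase j) hq0close.2).2
    have h2 := (one_sub_pow_le (N := N) (root_le' hρ hq0close.1)).2
    have h3 : 1 - θ / 8 ≤ ‖1 - ((ρ : ℂ) / q0) ^ N‖ := by linarith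
    have h4 : 0 ≤ 1 - θ / 8 := by linarith
    gcongr
  have hν2 : 1 / 2 ≤ ‖ν‖ := by nlinarith
  have hν0 : ν ≠ 0 := by
    rw [← norm_pos_iff]
    linarith
  have hdiv : ∀ w : ℂ, (c j + τ * w - c j) / (τ : ℂ) = w := by
    intro w
    field_simp
    ring
  refine ⟨fun z => F p ((z - c j) / τ) * ((∏ i ∈ Finset.univ.erase j, U ((z - c i) / τ)) *
    (1 - (ρ / z) ^ N)) / ν, ?_, ?_, ?_, ?_, ?_⟩
  · exact ((scaled_diff hτ h.closed (h.Fd p hp) j).mul ((h.prodDiff _).mul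
      ((differentiableOn_const _).sub ((root_diff hρ hτ).pow N)))).div_const ν
  · intro z hz
    have hz1 := ((mem_compl_nextK hτ).1 hz).1
    have hzj := ((mem_compl_nextK hτ).1 hz).2 j
    have hB0 : 0 < B := by linarith
    have hS0 : 0 < S := by linarith
    rw [norm_div, norm_mul, norm_mul, div_le_iff₀ (by linarith)]
    rcases le_total ‖z - c j‖ (δ / 2) with h1 | h1
    · obtain ⟨h2, h3⟩ := hclose z h1
      have h5 := (h.prodFar h3).1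
      have h6 := (one_sub_pow_le (N := N) (root_le' hρ h2)).1
      have h7 := h.FS p hp _ hzj
      calc ‖F p ((z - c j) / τ)‖ * (‖∏ i ∈ Finset.univ.erase j, U ((z - c i) / τ)‖ *
            ‖1 - ((ρ : ℂ) / z) ^ N‖) ≤ S * ((1 + θ / 8) * (1 + θ / 8)) := by
            have h8 : ‖1 - ((ρ : ℂ) / z) ^ N‖ ≤ 1 + θ / 8 := by linarith
            gcongr
        _ ≤ S * ((1 + θ) * ((1 - θ / 8) * (1 - θ / 8))) := by
            have h9 : (1 + θ / 8) * (1 + θ / 8) ≤ (1 + θ) * ((1 - θ / 8) * (1 - θ / 8)) := by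
              nlinarith [mul_pos hθ hθ, mul_pos (mul_pos hθ hθ) hθ]
            gcongr
        _ = S * (1 + θ) * ((1 - θ / 8) * (1 - θ / 8)) := by ring
        _ ≤ S * (1 + θ) * ‖ν‖ := by gcongr
    · have h5 := h.prodLe (Finset.univ.erase j) hz
      have h6 := (one_sub_pow_le (N := N) (root_le hρ hz1)).1
      have h7 := h.hF p hp _ h1
      calc ‖F p ((z - c j) / τ)‖ * (‖∏ i ∈ Finset.univ.erase j, U ((z - c i) / τ)‖ *
            ‖1 - ((ρ : ℂ) / z) ^ N‖)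
            ≤ 1 / (4 * B * (1 + 4 ^ N)) * ((B * (1 + θ / 8)) * (1 + 4 ^ N)) := by
            gcongr
        _ = (1 + θ / 8) / 4 := by
            field_simp
        _ ≤ 12 * (1 + θ) * (1 / 2) := by nlinarith
        _ ≤ S * (1 + θ) * ‖ν‖ := by gcongr
  · change F p ((q0 - c j) / τ) * ((∏ i ∈ Finset.univ.erase j, U ((q0 - c i) / τ)) *
      (1 - (ρ / q0) ^ N)) / ν = 1
    rw [← hν]
    have h1 : F p ((q0 - c j) / τ) = 1 := by
      rw [hq0, hdiv, h.F1 p hp]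
    rw [h1, one_mul, div_self hν0]
  · intro q hq hne
    rw [mem_nextZ] at hq
    rcases hq with h1 | h1 | ⟨i, w, hw, rfl⟩
    · have h2 : 1 - ((ρ : ℂ) / q) ^ N = 0 := by
        rw [h1, div_self hρ', one_pow, sub_self]
      simp only [h2, mul_zero, zero_div]
    · have h2 : 1 - ((ρ : ℂ) / q) ^ N = 0 := by
        have h3 : (ρ : ℂ) / (-ρ) = -1 := by field_simp
        rw [h1, h3, h.even.neg_one_pow, sub_self]
      simp only [h2, mul_zero, zero_div]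
    · by_cases hij : i = j
      · subst hij
        have hwp : w ≠ p := by
          rintro rfl
          exact hne hq0.symm
        change F p ((c i + τ * w - c i) / τ) * _ / ν = 0
        rw [hdiv, h.F0 p hp w hw hwp]
        simp
      · have h2 := h.prodZero (s := Finset.univ.erase j) (Finset.mem_erase.2 ⟨hij, Finset.mem_univ i⟩) hw
        simp only [h2, zero_mul, mul_zero, zero_div]
  · have hN : N ≠ 0 := by have := h.two; omega
    have h1 := ((inv_tendsto ρ).pow N).const_sub 1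
    have h2 := (h.prodTend (Finset.univ.erase j)).mul h1
    have h3 := ((h.Ft p hp).comp (aff_tendsto (c j) hτ)).mul h2
    have h4 := h3.div_const ν
    simpa [zero_pow hN] using h4

end Ctx

theorem sepStep : SepStepStmt := by
  intro M N ρ δ θ S B c K Z hR hN hN2 hρN hθ0 hθ1 hx hS hB1 hB2 hG hSep
  obtain ⟨U, hUd, hUB, hUZ, hUt⟩ := hSep.exU
  choose! F hFd hFS hF1 hF0 hFt using hSep.exF
  have hδ := hR.pos
  have h4 : (0 : ℝ) < 4 ^ N := by positivity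
  have hB0 : 0 < B := by linarith
  have evU : ∀ᶠ τ : ℝ in 𝓝[>] (0 : ℝ), ∀ w : ℂ, δ / 2 ≤ ‖w‖ →
      ‖U (w / (τ : ℂ)) - 1‖ ≤ (θ / 8) / (2 * (M + 1)) := by
    refine ev_far (P := fun w => ‖U w - 1‖ ≤ (θ / 8) / (2 * (M + 1))) ?_ (by positivity)
    have h1 : Tendsto (fun w => ‖U w - 1‖) (cocompact ℂ) (𝓝 0) := by
      have := (hUt.sub_const 1).norm
      simpa using this
    exact h1.eventually (eventually_le_nhds (by positivity))
  have evF : ∀ᶠ τ : ℝ in 𝓝[>] (0 : ℝ), ∀ p ∈ Z, ∀ w : ℂ, δ / 2 ≤ ‖w‖ →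
      ‖F p (w / (τ : ℂ))‖ ≤ 1 / (4 * B * (1 + 4 ^ N)) := by
    refine (Filter.eventually_all_finset Z).2 (fun p hp => ?_)
    refine ev_far (P := fun w => ‖F p w‖ ≤ 1 / (4 * B * (1 + 4 ^ N))) ?_ (by positivity)
    have h1 : Tendsto (fun w => ‖F p w‖) (cocompact ℂ) (𝓝 0) := by
      have := (hFt p hp).norm
      simpa using this
    exact h1.eventually (eventually_le_nhds (by positivity))
  have evτ : Ioo (0 : ℝ) (δ / 8) ∈ 𝓝[>] (0 : ℝ) := Ioo_mem_nhdsGT (by positivity)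
  filter_upwards [evU, evF, evτ] with τ hU hF hτ
  have ctx : Ctx M N ρ δ θ S B τ c K Z U F :=
    ⟨hR, hN, hN2, hρN, hθ0, hθ1, hx, hS, hB1, hB2, hG.closed, hG.sub, hG.pts, hUd, hUB, hUZ, hUt,
      hFd, hFS, hF1, hF0, hFt, hU, hF, hτ.1, hτ.2⟩
  refine ⟨ctx.exU', fun p hp => ?_⟩
  rw [mem_nextZ] at hp
  rcases hp with rfl | rfl | ⟨j, w, hw, rfl⟩
  · have := ctx.exRoot (s := 1) (Or.inl rfl)
    simpa using this
  · have := ctx.exRoot (s := -1) (Or.inr rfl)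
    simpa using this
  · exact ctx.exChild j hw

end MP05e272
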