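import Mathlib

set_option autoImplicit false

/-!
Weights on the roots of unity: a probability vector `w` on the `M`-th roots of unity `c j` with
`∑ w j / (z - c j)` close to `ρ ^ (2 p) * ρ / (z ^ 2 - ρ ^ 2)` on `|z| ≤ ρ / 2`.
-/

namespace Pool.Agent.Lib.MP_05e272_an

open Finset

/-- The `M`-th roots of unity. -/
noncomputable def rt (M j : ℕ) : ℂ := Complex.exp (2 * Real.pi * Complex.I / M) ^ j

/-- The weights. -/
noncomputable def wt (p : ℕ) (ρ : ℝ) (M j : ℕ) : ℝ :=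
  (1 / M) * (1 + ρ ^ (2 * p) * ∑ i ∈ range p, (ρ⁻¹) ^ (2 * i + 1) * (2 * (rt M j ^ (2 * i + 1)).re))

lemma rt_prim {M : ℕ} (hM : 0 < M) :
    IsPrimitiveRoot (Complex.exp (2 * Real.pi * Complex.I / M)) M :=
  Complex.isPrimitiveRoot_exp M hM.ne'

lemma norm_rt {M : ℕ} (hM : 0 < M) (j : ℕ) : ‖rt M j‖ = 1 := by
  unfold rt
  rw [norm_pow, (rt_prim hM).norm'_eq_one hM.ne', one_pow]

lemma rt_ne_zero {M : ℕ} (hM : 0 < M) (j : ℕ) : rt M j ≠ 0 := by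
  intro h
  have := norm_rt hM j
  rw [h, norm_zero] at this
  norm_num at this

lemma moment {M : ℕ} (hM : 0 < M) {k : ℤ} (hk : ¬ (M : ℤ) ∣ k) :
    ∑ j ∈ range M, rt M j ^ k = 0 := by
  have hp := rt_prim hM
  set ζ := Complex.exp (2 * Real.pi * Complex.I / M) with hζ
  have h1 : ζ ^ k ≠ 1 := by
    intro h
    exact hk ((hp.zpow_eq_one_iff_dvd k).1 h)
  have h2 : ∀ j ∈ range M, rt M j ^ k = (ζ ^ k) ^ j := by
    intro j _
    show (ζ ^ j) ^ k = _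
    rw [← zpow_natCast, ← zpow_natCast, ← zpow_mul, ← zpow_mul, mul_comm]
  rw [Finset.sum_congr rfl h2, geom_sum_eq h1]
  have h3 : (ζ ^ k) ^ M = 1 := by
    rw [← zpow_natCast, ← zpow_mul, mul_comm, zpow_mul, zpow_natCast, hp.pow_eq_one, one_zpow]
  rw [h3, sub_self, zero_div]

lemma wt_cast {M : ℕ} (hM : 0 < M) (p : ℕ) (ρ : ℝ) (j : ℕ) :
    (wt p ρ M j : ℂ) = (1 / M) * (1 + (ρ : ℂ) ^ (2 * p) *
      ∑ i ∈ range p, ((ρ : ℂ)⁻¹) ^ (2 * i + 1) *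
        (rt M j ^ ((2 * i + 1 : ℕ) : ℤ) + rt M j ^ (-((2 * i + 1 : ℕ) : ℤ)))) := by
  unfold wt
  push_cast
  congr 3
  apply Finset.sum_congr rfl
  intro i _
  congr 1
  have h1 : ((2 : ℂ) * ((rt M j ^ (2 * i + 1)).re : ℂ)) =
      rt M j ^ (2 * i + 1) + (starRingEnd ℂ) (rt M j ^ (2 * i + 1)) := by
    rw [Complex.add_conj]
    push_cast; ring
  rw [h1]
  have h2 : (starRingEnd ℂ) (rt M j ^ (2 * i + 1)) = (rt M j ^ (2 * i + 1))⁻¹ := by
    rw [Complex.inv_def, Complex.normSq_eq_norm_sq, norm_pow, norm_rt hM]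
    simp
  rw [h2]
  norm_cast

lemma geom_bound {ρ : ℝ} (h0 : 0 < ρ) (h1 : ρ ≤ 1 / 4) (p : ℕ) :
    ρ ^ (2 * p) * ∑ i ∈ range p, (ρ⁻¹) ^ (2 * i + 1) * 2 ≤ 1 := by
  have key : ρ ^ (2 * p) * ∑ i ∈ range p, (ρ⁻¹) ^ (2 * i + 1) * 2 ≤ 1 - ρ ^ (2 * p) := by
    induction p with
    | zero => simp
    | succ p ih =>
      rw [Finset.sum_range_succ, mul_add]
      have e1 : ρ ^ (2 * (p + 1)) = ρ ^ 2 * ρ ^ (2 * p) := by ring
      have e2 : ρ ^ (2 * (p + 1)) * ((ρ⁻¹) ^ (2 * p + 1) * 2) = 2 * ρ := by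
        rw [show 2 * (p + 1) = (2 * p + 1) + 1 by ring, pow_succ, inv_pow]
        field_simp
      rw [e2, e1, mul_assoc]
      have h3 : 0 < ρ ^ (2 * p) := by positivity
      have h4 : ρ ^ (2 * p) ≤ 1 := pow_le_one₀ h0.le (by linarith)
      have h5 : ρ ^ 2 ≤ 1 / 16 := by nlinarith
      have h6 : ρ ^ 2 * (ρ ^ (2 * p) * ∑ i ∈ range p, (ρ⁻¹) ^ (2 * i + 1) * 2) ≤
          ρ ^ 2 * (1 - ρ ^ (2 * p)) := mul_le_mul_of_nonneg_left ih (by positivity)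
      nlinarith
  have : 0 < ρ ^ (2 * p) := by positivity
  linarith

lemma wt_nonneg {M : ℕ} (hM : 0 < M) {ρ : ℝ} (h0 : 0 < ρ) (h1 : ρ ≤ 1 / 4) (p j : ℕ) :
    0 ≤ wt p ρ M j := by
  unfold wt
  apply mul_nonneg (by positivity)
  have h2 : -(∑ i ∈ range p, (ρ⁻¹) ^ (2 * i + 1) * 2) ≤
      ∑ i ∈ range p, (ρ⁻¹) ^ (2 * i + 1) * (2 * (rt M j ^ (2 * i + 1)).re) := by
    rw [← Finset.sum_neg_distrib]
    apply Finset.sum_le_sum
    intro i _
    have h3 : |(rt M j ^ (2 * i + 1)).re| ≤ 1 := by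
      refine (Complex.abs_re_le_norm _).trans ?_
      rw [norm_pow, norm_rt hM, one_pow]
    rw [abs_le] at h3
    have h4 : 0 < (ρ⁻¹) ^ (2 * i + 1) := by positivity
    nlinarith [h3.1, h3.2]
  have h5 := geom_bound h0 h1 p
  have h6 : 0 < ρ ^ (2 * p) := by positivity
  nlinarith

lemma wt_moment {M : ℕ} (hM : 0 < M) (p : ℕ) (ρ : ℝ) (k : ℤ) :
    ∑ j ∈ range M, (wt p ρ M j : ℂ) * rt M j ^ k = (1 / M) * (∑ j ∈ range M, rt M j ^ k +
      (ρ : ℂ) ^ (2 * p) * ∑ i ∈ range p, ((ρ : ℂ)⁻¹) ^ (2 * i + 1) *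
        (∑ j ∈ range M, rt M j ^ (((2 * i + 1 : ℕ) : ℤ) + k) +
          ∑ j ∈ range M, rt M j ^ (-((2 * i + 1 : ℕ) : ℤ) + k))) := by
  have h1 : ∀ j ∈ range M, (wt p ρ M j : ℂ) * rt M j ^ k = (1 / M) * (rt M j ^ k +
      (ρ : ℂ) ^ (2 * p) * ∑ i ∈ range p, ((ρ : ℂ)⁻¹) ^ (2 * i + 1) *
        (rt M j ^ (((2 * i + 1 : ℕ) : ℤ) + k) + rt M j ^ (-((2 * i + 1 : ℕ) : ℤ) + k))) := by
    intro j _
    rw [wt_cast hM, mul_assoc, add_mul, one_mul, mul_assoc, Finset.sum_mul]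
    refine congrArg (fun x => (1 / (M : ℂ)) * (rt M j ^ k + (ρ : ℂ) ^ (2 * p) * x))
      (Finset.sum_congr rfl fun i _ => ?_)
    rw [mul_assoc, add_mul, ← zpow_add₀ (rt_ne_zero hM j), ← zpow_add₀ (rt_ne_zero hM j)]
  rw [Finset.sum_congr rfl h1, ← Finset.mul_sum, Finset.sum_add_distrib, ← Finset.mul_sum,
    Finset.sum_comm]
  refine congrArg (fun x => (1 / (M : ℂ)) * (∑ j ∈ range M, rt M j ^ k + (ρ : ℂ) ^ (2 * p) * x))
    (Finset.sum_congr rfl fun i _ => ?_)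
  rw [← Finset.mul_sum, Finset.sum_add_distrib]

lemma sum_wt {M : ℕ} {p : ℕ} (hM : 4 * p < M) (ρ : ℝ) : ∑ j ∈ range M, wt p ρ M j = 1 := by
  have hM0 : 0 < M := by omega
  have h := wt_moment hM0 p ρ 0
  have h2 : ∑ i ∈ range p, ((ρ : ℂ)⁻¹) ^ (2 * i + 1) *
        (∑ j ∈ range M, rt M j ^ (((2 * i + 1 : ℕ) : ℤ) + 0) +
          ∑ j ∈ range M, rt M j ^ (-((2 * i + 1 : ℕ) : ℤ) + 0)) = 0 := by
    apply Finset.sum_eq_zero
    intro i hi
    rw [mem_range] at hi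
    rw [moment hM0, moment hM0]
    · simp
    · intro hd
      have := Int.le_of_dvd (by omega) ((dvd_neg (a := (M : ℤ))).2 hd)
      omega
    · intro hd
      have := Int.le_of_dvd (by omega) hd
      omega
  rw [h2] at h
  have h3 : (M : ℂ) ≠ 0 := by exact_mod_cast hM0.ne'
  simp only [zpow_zero, mul_one, Finset.sum_const, card_range, nsmul_eq_mul, mul_zero, add_zero]
    at h
  rw [one_div, inv_mul_cancel₀ h3] at h
  exact_mod_cast h

lemma inv_expand {z c : ℂ} (hc : c ≠ 0) (hz : z ≠ c) (n : ℕ) :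
    1 / (z - c) = -∑ k ∈ range n, z ^ k * c ^ (-((k + 1 : ℕ) : ℤ)) + (z / c) ^ n / (z - c) := by
  have hzc : z - c ≠ 0 := sub_ne_zero.2 hz
  induction n with
  | zero => simp
  | succ n ih =>
    rw [ih, Finset.sum_range_succ]
    have h1 : (z / c) ^ n / (z - c) =
        -(z ^ n * c ^ (-((n + 1 : ℕ) : ℤ))) + (z / c) ^ (n + 1) / (z - c) := by
      rw [zpow_neg, zpow_natCast, pow_succ (z / c), div_pow]
      field_simp
      ring
    rw [h1]; ring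

/-- The main identity for the weights. -/
theorem wt_kernel {M : ℕ} {p : ℕ} (hp : 1 ≤ p) (hM : 4 * p < M) {ρ : ℝ} (h0 : 0 < ρ)
    (h1 : ρ ≤ 1 / 4) {z : ℂ} (hz : ‖z‖ ≤ ρ / 2) :
    ‖∑ j ∈ range M, (wt p ρ M j : ℂ) / (z - rt M j) -
      (ρ : ℂ) ^ (2 * p) * ρ / (z ^ 2 - ρ ^ 2)‖ ≤ 2 * (ρ ^ (2 * p) * (1 / 4) ^ p / ρ) := by
  have hM0 : 0 < M := by omega
  have hMC : (M : ℂ) ≠ 0 := by exact_mod_cast hM0.ne'
  have hρC : (ρ : ℂ) ≠ 0 := by exact_mod_cast h0.ne'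
  have hne : ∀ j, z ≠ rt M j := by
    intro j h
    have := norm_rt hM0 j
    rw [← h] at this
    linarith
  -- expansion
  set n := M - 2 * p with hn
  have hA : ∀ k ∈ range n, ∑ j ∈ range M, (wt p ρ M j : ℂ) * rt M j ^ (-((k + 1 : ℕ) : ℤ)) =
      if k ∈ (range p).image (fun i => 2 * i) then (ρ : ℂ) ^ (2 * p) * ((ρ : ℂ)⁻¹) ^ (k + 1)
      else 0 := by
    intro k hk
    rw [mem_range] at hk
    rw [wt_moment hM0, moment hM0 (k := (-((k + 1 : ℕ) : ℤ))), zero_add]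
    swap
    · intro hd
      have := Int.le_of_dvd (by omega) ((dvd_neg (a := (M : ℤ))).2 hd)
      omega
    have hB : ∀ i ∈ range p, ((ρ : ℂ)⁻¹) ^ (2 * i + 1) *
        (∑ j ∈ range M, rt M j ^ (((2 * i + 1 : ℕ) : ℤ) + -((k + 1 : ℕ) : ℤ)) +
          ∑ j ∈ range M, rt M j ^ (-((2 * i + 1 : ℕ) : ℤ) + -((k + 1 : ℕ) : ℤ))) =
        if k = 2 * i then (M : ℂ) * ((ρ : ℂ)⁻¹) ^ (k + 1) else 0 := by
      intro i hi
      rw [mem_range] at hi
      rw [moment hM0 (k := -((2 * i + 1 : ℕ) : ℤ) + -((k + 1 : ℕ) : ℤ)), add_zero]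
      swap
      · intro hd
        have := Int.le_of_dvd (by omega) ((dvd_neg (a := (M : ℤ))).2 hd)
        omega
      split_ifs with hki
      · subst hki
        have : (((2 * i + 1 : ℕ) : ℤ) + -((2 * i + 1 : ℕ) : ℤ)) = 0 := by omega
        rw [this]
        simp only [zpow_zero, Finset.sum_const, card_range, nsmul_eq_mul, mul_one]
        ring
      · rw [moment hM0, mul_zero]
        intro hd
        rcases lt_or_gt_of_ne hki with h | h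
        · have := Int.le_of_dvd (by omega) hd
          omega
        · have := Int.le_of_dvd (by omega) ((dvd_neg (a := (M : ℤ))).2 hd)
          omega
    rw [Finset.sum_congr rfl hB]
    by_cases hk2 : k ∈ (range p).image (fun i => 2 * i)
    · rw [if_pos hk2]
      rw [mem_image] at hk2
      obtain ⟨i, hi, hik⟩ := hk2
      rw [Finset.sum_eq_single i]
      · rw [if_pos hik.symm]
        field_simp
      · intro b _ hb
        rw [if_neg]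
        intro h
        apply hb
        omega
      · intro h
        exact absurd hi h
    · rw [if_neg hk2, Finset.sum_eq_zero]
      · simp
      · intro i hi
        rw [if_neg]
        intro h
        apply hk2
        rw [mem_image]
        exact ⟨i, hi, h.symm⟩
  have hsum : ∑ j ∈ range M, (wt p ρ M j : ℂ) / (z - rt M j) =
      -∑ i ∈ range p, z ^ (2 * i) * ((ρ : ℂ) ^ (2 * p) * ((ρ : ℂ)⁻¹) ^ (2 * i + 1)) +
        ∑ j ∈ range M, (wt p ρ M j : ℂ) * ((z / rt M j) ^ n / (z - rt M j)) := by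
    have e1 : ∀ j ∈ range M, (wt p ρ M j : ℂ) / (z - rt M j) =
        -∑ k ∈ range n, z ^ k * ((wt p ρ M j : ℂ) * rt M j ^ (-((k + 1 : ℕ) : ℤ))) +
          (wt p ρ M j : ℂ) * ((z / rt M j) ^ n / (z - rt M j)) := by
      intro j _
      rw [div_eq_mul_one_div, inv_expand (rt_ne_zero hM0 j) (hne j) n, mul_add, mul_neg,
        Finset.mul_sum]
      congr 2
      apply Finset.sum_congr rfl
      intro k _
      ring
    rw [Finset.sum_congr rfl e1, Finset.sum_add_distrib, Finset.sum_neg_distrib, Finset.sum_comm]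
    congr 2
    have e2 : ∀ k ∈ range n, ∑ j ∈ range M,
        z ^ k * ((wt p ρ M j : ℂ) * rt M j ^ (-((k + 1 : ℕ) : ℤ))) =
        if k ∈ (range p).image (fun i => 2 * i) then
          z ^ k * ((ρ : ℂ) ^ (2 * p) * ((ρ : ℂ)⁻¹) ^ (k + 1)) else 0 := by
      intro k hk
      rw [← Finset.mul_sum, hA k hk]
      split_ifs <;> simp
    rw [Finset.sum_congr rfl e2, ← Finset.sum_filter]
    have e3 : (range n).filter (fun k => k ∈ (range p).image (fun i => 2 * i)) =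
        (range p).image (fun i => 2 * i) := by
      ext k
      simp only [mem_filter, mem_image, mem_range]
      constructor
      · rintro ⟨_, h⟩; exact h
      · rintro ⟨i, hi, rfl⟩
        exact ⟨by omega, i, hi, rfl⟩
    rw [e3, Finset.sum_image (by intro a _ b _ h; simpa using h)]
  -- geometric sum
  have hz2 : z ^ 2 - (ρ : ℂ) ^ 2 ≠ 0 := by
    intro h
    have h2 : ‖z‖ ^ 2 = ρ ^ 2 := by
      have : z ^ 2 = (ρ : ℂ) ^ 2 := sub_eq_zero.1 h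
      rw [← norm_pow, this, norm_pow, Complex.norm_real, Real.norm_eq_abs, sq_abs]
    have h3 : ‖z‖ ^ 2 ≤ (ρ / 2) ^ 2 := pow_le_pow_left₀ (norm_nonneg _) hz 2
    nlinarith
  have hgeom : -∑ i ∈ range p, z ^ (2 * i) * ((ρ : ℂ) ^ (2 * p) * ((ρ : ℂ)⁻¹) ^ (2 * i + 1)) -
      (ρ : ℂ) ^ (2 * p) * ρ / (z ^ 2 - ρ ^ 2) = -(ρ * z ^ (2 * p) / (z ^ 2 - ρ ^ 2)) := by
    have hx : (z / ρ) ^ 2 ≠ 1 := by
      intro h
      apply hz2
      rw [div_pow, div_eq_one_iff_eq (pow_ne_zero 2 hρC)] at h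
      rw [h, sub_self]
    have e1 : ∑ i ∈ range p, z ^ (2 * i) * ((ρ : ℂ) ^ (2 * p) * ((ρ : ℂ)⁻¹) ^ (2 * i + 1)) =
        (ρ : ℂ) ^ (2 * p) * (ρ : ℂ)⁻¹ * ∑ i ∈ range p, ((z / ρ) ^ 2) ^ i := by
      rw [Finset.mul_sum]
      apply Finset.sum_congr rfl
      intro i _
      rw [← pow_mul, div_pow, pow_succ, inv_pow]
      field_simp
    rw [e1, geom_sum_eq hx, ← pow_mul, div_pow, div_pow]
    have e2 : z ^ 2 / (ρ : ℂ) ^ 2 - 1 = (z ^ 2 - ρ ^ 2) / ρ ^ 2 := by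
      field_simp
    rw [e2]
    field_simp
    ring
  rw [hsum]
  have hre : -∑ i ∈ range p, z ^ (2 * i) * ((ρ : ℂ) ^ (2 * p) * ((ρ : ℂ)⁻¹) ^ (2 * i + 1)) +
        ∑ j ∈ range M, (wt p ρ M j : ℂ) * ((z / rt M j) ^ n / (z - rt M j)) -
      (ρ : ℂ) ^ (2 * p) * ρ / (z ^ 2 - ρ ^ 2) = -(ρ * z ^ (2 * p) / (z ^ 2 - ρ ^ 2)) +
        ∑ j ∈ range M, (wt p ρ M j : ℂ) * ((z / rt M j) ^ n / (z - rt M j)) := by
    rw [← hgeom]; ring
  rw [hre]
  have hpow : ρ ^ (2 * p) * (1 / 4) ^ p = (ρ / 2) ^ (2 * p) := by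
    rw [pow_mul ρ, pow_mul (ρ / 2), ← mul_pow]
    congr 1; ring
  -- first error
  have hr1 : ‖-((ρ : ℂ) * z ^ (2 * p) / (z ^ 2 - ρ ^ 2))‖ ≤
      4 / 3 * (ρ ^ (2 * p) * (1 / 4) ^ p / ρ) := by
    rw [norm_neg, norm_div, norm_mul, norm_pow, Complex.norm_real, Real.norm_eq_abs,
      abs_of_pos h0]
    have h3 : 3 / 4 * ρ ^ 2 ≤ ‖z ^ 2 - (ρ : ℂ) ^ 2‖ := by
      have h4 : ‖(ρ : ℂ) ^ 2‖ - ‖z ^ 2‖ ≤ ‖(ρ : ℂ) ^ 2 - z ^ 2‖ := norm_sub_norm_le _ _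
      rw [norm_sub_rev, norm_pow, norm_pow, Complex.norm_real, Real.norm_eq_abs, abs_of_pos h0]
        at h4
      have h5 : ‖z‖ ^ 2 ≤ (ρ / 2) ^ 2 := pow_le_pow_left₀ (norm_nonneg _) hz 2
      nlinarith
    have h6 : ‖z‖ ^ (2 * p) ≤ ρ ^ (2 * p) * (1 / 4) ^ p := by
      rw [hpow]
      exact pow_le_pow_left₀ (norm_nonneg _) hz _
    rw [div_le_iff₀ (lt_of_lt_of_le (by positivity) h3)]
    have h7 : 0 ≤ ρ ^ (2 * p) * (1 / 4) ^ p := by positivity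
    calc ρ * ‖z‖ ^ (2 * p) ≤ ρ * (ρ ^ (2 * p) * (1 / 4) ^ p) :=
          mul_le_mul_of_nonneg_left h6 h0.le
      _ = 4 / 3 * (ρ ^ (2 * p) * (1 / 4) ^ p / ρ) * (3 / 4 * ρ ^ 2) := by
          field_simp
      _ ≤ _ := mul_le_mul_of_nonneg_left h3 (by positivity)
  -- second error
  have hr2 : ‖∑ j ∈ range M, (wt p ρ M j : ℂ) * ((z / rt M j) ^ n / (z - rt M j))‖ ≤
      2 / 3 * (ρ ^ (2 * p) * (1 / 4) ^ p / ρ) := by
    have h3 : ∀ j ∈ range M, ‖(wt p ρ M j : ℂ) * ((z / rt M j) ^ n / (z - rt M j))‖ ≤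
        wt p ρ M j * (8 / 7 * (ρ / 2) ^ n) := by
      intro j _
      rw [norm_mul, Complex.norm_real, Real.norm_eq_abs, abs_of_nonneg (wt_nonneg hM0 h0 h1 p j)]
      apply mul_le_mul_of_nonneg_left _ (wt_nonneg hM0 h0 h1 p j)
      rw [norm_div, norm_pow, norm_div, norm_rt hM0, div_one]
      have h4 : 7 / 8 ≤ ‖z - rt M j‖ := by
        have := norm_sub_norm_le (rt M j) z
        rw [norm_rt hM0, norm_sub_rev] at this
        linarith
      rw [div_le_iff₀ (by linarith)]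
      have h5 : ‖z‖ ^ n ≤ (ρ / 2) ^ n := pow_le_pow_left₀ (norm_nonneg _) hz _
      have h6 : 0 ≤ (ρ / 2) ^ n := by positivity
      nlinarith
    refine (norm_sum_le _ _).trans ((Finset.sum_le_sum h3).trans ?_)
    rw [← Finset.sum_mul, sum_wt hM, one_mul]
    have h7 : (ρ / 2) ^ n ≤ (ρ / 2) ^ (2 * p + 1) :=
      pow_le_pow_of_le_one (by positivity) (by linarith) (by omega)
    have h8 : (ρ / 2) ^ (2 * p + 1) = (ρ ^ (2 * p) * (1 / 4) ^ p / ρ) * (ρ ^ 2 / 2) := by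
      rw [pow_succ, ← hpow]
      field_simp
    have h9 : 0 ≤ ρ ^ (2 * p) * (1 / 4) ^ p / ρ := by positivity
    have h10 : ρ ^ 2 / 2 ≤ 1 / 32 := by nlinarith
    nlinarith
  calc _ ≤ _ := norm_add_le _ _
    _ ≤ 4 / 3 * (ρ ^ (2 * p) * (1 / 4) ^ p / ρ) + 2 / 3 * (ρ ^ (2 * p) * (1 / 4) ^ p / ρ) :=
        add_le_add hr1 hr2
    _ = _ := by ring

end Pool.Agent.Lib.MP_05e272_an
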