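import Mathlib
import Pool.Agent.Lib.MP_05e272_an.Stmts
import Pool.Agent.Lib.MP_05e272_an.Weights

set_option autoImplicit false

/-!
The modules `RingStmt` and `WeightsStmt`.
-/

namespace MP05e272

open Metric Set Pool.Agent.Lib.MP_05e272_an

lemma cM_eq (M : ℕ) (j : Fin M) : cM M j = rt M j := by
  unfold cM rt
  rw [← Complex.exp_nat_mul]
  congr 1
  ring

theorem weights : WeightsStmt := by
  intro k M ρ hk hM h0 h1
  have hM0 : 0 < M := by omega
  refine ⟨fun j => wt k ρ M j, fun j => wt_nonneg hM0 h0 h1 k j, ?_, ?_⟩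
  · rw [Fin.sum_univ_eq_sum_range (fun j => wt k ρ M j) M]
    exact sum_wt hM ρ
  · intro ζ hζ
    have h := wt_kernel hk hM h0 h1 (z := ζ) hζ.le
    have e : ∑ j : Fin M, (wt k ρ M j : ℂ) / (ζ - cM M j) =
        ∑ j ∈ Finset.range M, (wt k ρ M j : ℂ) / (ζ - rt M j) := by
      rw [← Fin.sum_univ_eq_sum_range (fun j => (wt k ρ M j : ℂ) / (ζ - rt M j)) M]
      apply Finset.sum_congr rfl
      intro j _
      rw [cM_eq]
    rw [e]
    refine h.trans (le_of_eq ?_)
    rw [one_div, inv_pow]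
    field_simp

theorem ring : RingStmt := by
  intro M hM
  have hinj : ∀ i j : Fin M, i ≠ j → cM M i ≠ cM M j := by
    intro i j hij h
    rw [cM_eq, cM_eq] at h
    apply hij
    exact Fin.ext ((rt_prim hM).pow_inj i.2 j.2 h)
  classical
  let s : Finset (Fin M × Fin M) := Finset.univ.filter (fun p => p.1 ≠ p.2)
  have hfin : ∃ δ : ℝ, 0 < δ ∧ δ ≤ 1 ∧ ∀ p ∈ s, δ ≤ ‖cM M p.1 - cM M p.2‖ := by
    have key : ∀ t : Finset (Fin M × Fin M), (∀ p ∈ t, p.1 ≠ p.2) →
        ∃ δ : ℝ, 0 < δ ∧ δ ≤ 1 ∧ ∀ p ∈ t, δ ≤ ‖cM M p.1 - cM M p.2‖ := by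
      intro t
      induction t using Finset.induction_on with
      | empty => exact fun _ => ⟨1, one_pos, le_rfl, by simp⟩
      | insert a t _ ih =>
        intro h
        obtain ⟨δ, h1, h2, h3⟩ := ih (fun p hp => h p (Finset.mem_insert_of_mem hp))
        have ha : 0 < ‖cM M a.1 - cM M a.2‖ :=
          norm_pos_iff.2 (sub_ne_zero.2 (hinj _ _ (h a (Finset.mem_insert_self a t))))
        refine ⟨min δ ‖cM M a.1 - cM M a.2‖, lt_min h1 ha, (min_le_left _ _).trans h2, ?_⟩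
        intro p hp
        rcases Finset.mem_insert.1 hp with rfl | hp
        · exact min_le_right _ _
        · exact (min_le_left _ _).trans (h3 p hp)
    exact key s (fun p hp => (Finset.mem_filter.1 hp).2)
  obtain ⟨δ, h1, h2, h3⟩ := hfin
  refine ⟨δ, h1, h2, fun j => ?_, fun i j hij => ?_⟩
  · rw [cM_eq]; exact norm_rt hM _
  · exact h3 (i, j) (Finset.mem_filter.2 ⟨Finset.mem_univ _, hij⟩)

end MP05e272
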